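import Pool.Agent.Lib.MP_6d85b4_al.HM.Defs

set_option autoImplicit false

/-!
Interface between the additive category of graded projectives and its homotopy category.
-/

namespace Pool.Agent.HM

open CategoryTheory Limits Module

universe u

section

variable (k : Type) [Field k] (C : Type u) [Category.{0} C] [Preadditive C] [Linear k C]

/-- A graded additive category with a trace in degree two. -/
structure GC where
  G : ℤ → C ⥤ C
  add : ∀ m, (G m).Additive
  lin : ∀ m, (G m).Linear k
  full : ∀ m, (G m).Full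
  faithful : ∀ m, (G m).Faithful
  G0 : G 0 ≅ 𝟭 C
  Gadd : ∀ m n, G n ⋙ G m ≅ G (m + n)
  fd : ∀ X Y : C, Module.Finite k (X ⟶ Y)
  tr : ∀ X : C, (X ⟶ (G 2).obj X) →ₗ[k] k
  cyc : ∀ (X Y : C) (u : X ⟶ Y) (v : Y ⟶ (G 2).obj X),
    tr X (u ≫ v) = tr Y (v ≫ (G 2).map u)
  nd : ∀ (X Y : C) (v : Y ⟶ (G 2).obj X), (∀ u : X ⟶ Y, tr X (u ≫ v) = 0) → v = 0

attribute [instance] GC.add GC.lin GC.full GC.faithful

variable {k C}

/-- An additive endofunctor with a unit and a counit satisfying one triangle identity. -/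
structure GC.Fn (g : GC k C) where
  R : C ⥤ C
  add : R.Additive
  lin : R.Linear k
  comm : ∀ m, g.G m ⋙ R ≅ R ⋙ g.G m
  η : 𝟭 C ⟶ R ⋙ R
  ε : R ⋙ R ⟶ 𝟭 C
  tri : ∀ X : C, R.map (η.app X) ≫ ε.app (R.obj X) = 𝟙 (R.obj X)

attribute [instance] GC.Fn.add GC.Fn.lin

end

/-- The direct sum of a list of objects. -/
noncomputable def lsum {C : Type u} [Category.{0} C] [Preadditive C] [HasZeroObject C]
    [HasBinaryBiproducts C] : List C → C
  | [] => (open ZeroObject in (0 : C))
  | X :: l => X ⊞ lsum l

open Classical in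
/-- The additive data: graded category, fusion functors, generators and framing objects. -/
structure CD (k : Type) [Field k] (C : Type u) [Category.{0} C] [Preadditive C] [Linear k C]
    [HasZeroObject C] [HasBinaryBiproducts C] (V E : Type) (adj : V → V → Prop)
    (N : E → V → V → Prop) where
  g : GC k C
  F : E → g.Fn
  P : V → C
  Q : V → C
  hom_P : ∀ v w (n : ℤ), finrank k (P v ⟶ (g.G n).obj (P w)) = tab adj v w n
  hom_Q : ∀ v w (n : ℤ), finrank k (Q v ⟶ (g.G n).obj (P w)) = if n = 1 ∧ v = w then 1 else 0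
  R_P : ∀ e v, ∃ l : List V, l.Nodup ∧ (∀ w, w ∈ l ↔ N e v w) ∧
    Nonempty ((F e).R.obj (P v) ≅ lsum (l.map P))

/-- Block (c): the additive category of graded projectives over the unfolded zigzag algebra. -/
def CStmt : Prop :=
  ∀ (S : Type) (m : S → S → ℕ), (∀ s t, m s t = m t s) →
    ∃ (k : Type) (_ : Field k) (C : Type 1) (_ : Category.{0} C) (_ : Preadditive C)
      (_ : Linear k C) (_ : HasZeroObject C) (_ : HasBinaryBiproducts C),
      Nonempty (CD k C (S × Irr) Bool (adjU m) fusU)

/-- Block (a): from additive data to graded data. -/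
def AStmt : Prop :=
  ∀ (k : Type) [Field k] (C : Type 1) [Category.{0} C] [Preadditive C] [Linear k C]
    [HasZeroObject C] [HasBinaryBiproducts C] (V E : Type) (adj : V → V → Prop)
    (N : E → V → V → Prop), Nonempty (CD k C V E adj N) → Nonempty (GD.{1} V E adj N)

theorem graded_of (hA : AStmt) (hC : CStmt) : GradedStmt := by
  intro S m hm
  obtain ⟨k, _, C, _, _, _, _, _, h⟩ := hC S m hm
  exact hA k C _ _ _ _ h

end Pool.Agent.HM
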