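import Mathlib

set_option autoImplicit false

/-! Serre duality inequality in the homotopy category of a category with a trace. -/

namespace Pool.Agent.HM

open CategoryTheory Limits Module

universe v u

variable {k : Type} [Field k] {C : Type u} [Category.{v} C] [Preadditive C] [Linear k C]

/-- Bounded complexes. -/
def Bnd (X : CochainComplex C ℤ) : Prop := {p : ℤ | ¬ IsZero (X.X p)}.Finite

/-- The quotient functor to the homotopy category. -/
abbrev QK (C : Type u) [Category.{v} C] [Preadditive C] :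
    CochainComplex C ℤ ⥤ HomotopyCategory C (ComplexShape.up ℤ) :=
  HomotopyCategory.quotient C (ComplexShape.up ℤ)

lemma fdK (fd : ∀ X Y : C, Module.Finite k (X ⟶ Y)) (X Y : CochainComplex C ℤ) (hX : Bnd X) :
    Module.Finite k ((QK C).obj X ⟶ (QK C).obj Y) := by
  have : Module.Finite k (X ⟶ Y) := by
    have := hX.fintype
    let φ : (X ⟶ Y) →ₗ[k] (∀ p : {p : ℤ | ¬ IsZero (X.X p)}, (X.X p ⟶ Y.X p)) :=
      { toFun := fun f p => f.f p
        map_add' := fun _ _ => rfl
        map_smul' := fun _ _ => rfl }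
    refine Module.Finite.of_injective φ ((injective_iff_map_eq_zero φ).2 fun f hf => ?_)
    ext p
    by_cases hp : IsZero (X.X p)
    · exact hp.eq_of_src _ _
    · exact congrFun hf ⟨p, hp⟩
  exact Module.Finite.of_surjective ((QK C).mapLinearMap k) (QK C).map_surjective

variable (k) in
/-- The sign `(-1)^p`. -/
def sg (p : ℤ) : k := ((p.negOnePow : ℤˣ) : ℤ)

lemma sg_succ (p : ℤ) : sg k (p + 1) = - sg k p := by simp [sg, Int.negOnePow_succ]

lemma sg_mul (p : ℤ) : sg k p * sg k p = 1 := by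
  unfold sg
  rw [← Int.cast_mul, ← Units.val_mul, Int.units_mul_self]
  simp

variable (ν : C ⥤ C) [ν.Additive] (tr : ∀ X : C, (X ⟶ ν.obj X) →ₗ[k] k)

omit [ν.Additive] in
lemma tr_zero {X : C} (hX : IsZero X) (u : X ⟶ ν.obj X) : tr X u = 0 := by
  rw [hX.eq_of_src u 0, map_zero]

omit [ν.Additive] in
lemma fsum_eq {X : CochainComplex C ℤ} (hX : Bnd X) (u : ∀ p, X.X p ⟶ ν.obj (X.X p)) :
    ∑ᶠ p, sg k p * tr _ (u p) = ∑ p ∈ hX.toFinset, sg k p * tr _ (u p) := by
  refine finsum_eq_sum_of_support_subset _ fun p hp => ?_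
  simp only [Set.Finite.coe_toFinset, Set.mem_ofPred_eq]
  intro h0
  exact hp (by simp [tr_zero ν tr h0])

omit [ν.Additive] in
lemma key_id (cyc : ∀ (X Y : C) (u : X ⟶ Y) (v : Y ⟶ ν.obj X),
      tr X (u ≫ v) = tr Y (v ≫ ν.map u))
    {X Y : CochainComplex C ℤ} (hX : Bnd X) (h : ∀ i j, X.X i ⟶ Y.X j)
    (b : ∀ p, Y.X p ⟶ ν.obj (X.X p)) :
    ∑ᶠ p, sg k p * tr _ ((Homotopy.nullHomotopicMap h).f p ≫ b p) =
      ∑ᶠ p, sg k (p + 1) * tr _ (h (p + 1) p ≫
        (Y.d p (p + 1) ≫ b (p + 1) - b p ≫ ν.map (X.d p (p + 1)))) := by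
  let A : ℤ → k := fun p => sg k p * tr _ (X.d p (p + 1) ≫ h (p + 1) p ≫ b p)
  let B : ℤ → ℤ → k := fun i j => sg k i * tr _ (h i j ≫ Y.d j i ≫ b i)
  have hA : (Function.support A).Finite := hX.subset fun p hp h0 => hp (by simp [A, tr_zero ν tr h0])
  have hB : (Function.support fun p => B p (p - 1)).Finite :=
    hX.subset fun p hp h0 => hp (by simp [B, tr_zero ν tr h0])
  have hB' : (Function.support fun p => B (p + 1) p).Finite := by
    refine (hX.preimage (f := fun p : ℤ => p + 1) (add_left_injective 1).injOn).subset ?_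
    exact fun p hp h0 => hp (by simp [B, tr_zero ν tr h0])
  have e1 : ∀ p, sg k p * tr _ ((Homotopy.nullHomotopicMap h).f p ≫ b p) = A p + B p (p - 1) := by
    intro p
    rw [Homotopy.nullHomotopicMap_f (k₂ := p - 1) (k₀ := p + 1) (by simp) (by simp)]
    simp [A, B, mul_add]
  have e2 : ∀ p, sg k (p + 1) * tr _ (h (p + 1) p ≫
        (Y.d p (p + 1) ≫ b (p + 1) - b p ≫ ν.map (X.d p (p + 1)))) = A p + B (p + 1) p := by
    intro p
    simp only [A, B, cyc _ _ (X.d p (p + 1)), Preadditive.comp_sub, map_sub, Category.assoc,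
      sg_succ]
    ring
  simp only [e1, e2]
  rw [finsum_add_distrib hA hB, finsum_add_distrib hA hB',
    ← finsum_comp_equiv (Equiv.addRight (1 : ℤ)) (f := fun p => B p (p - 1))]
  simp

theorem serre_le [ν.Faithful] (fd : ∀ X Y : C, Module.Finite k (X ⟶ Y))
    (cyc : ∀ (X Y : C) (u : X ⟶ Y) (v : Y ⟶ ν.obj X), tr X (u ≫ v) = tr Y (v ≫ ν.map u))
    (nd : ∀ (X Y : C) (v : Y ⟶ ν.obj X), (∀ u : X ⟶ Y, tr X (u ≫ v) = 0) → v = 0)
    (X Y : CochainComplex C ℤ) (hX : Bnd X) (hY : Bnd Y) :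
    finrank k ((QK C).obj X ⟶ (QK C).obj Y) ≤
      finrank k ((QK C).obj Y ⟶ (QK C).obj ((ν.mapHomologicalComplex _).obj X)) := by
  classical
  set Z : CochainComplex C ℤ := (ν.mapHomologicalComplex _).obj X with hZ
  have nd' : ∀ (P Q : C) (u : P ⟶ Q), (∀ v : Q ⟶ ν.obj P, tr P (u ≫ v) = 0) → u = 0 := by
    intro P Q u hu
    apply ν.map_injective
    rw [ν.map_zero]
    exact nd Q _ _ fun v => by rw [← cyc, hu]
  have sj : ∀ (P Q : C) (ψ : (Q ⟶ ν.obj P) →ₗ[k] k), ∃ u : P ⟶ Q, ∀ v, tr P (u ≫ v) = ψ v := by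
    intro P Q ψ
    have := fd P Q
    have := fd Q (ν.obj P)
    have hs : Function.Surjective ((Linear.comp P Q (ν.obj P)).compr₂ (tr P)) := by
      rw [← LinearMap.flip_injective_iff₁, injective_iff_map_eq_zero]
      exact fun v hv => nd P Q v fun u => LinearMap.congr_fun hv u
    obtain ⟨u, hu⟩ := hs ψ
    exact ⟨u, fun v => LinearMap.congr_fun hu v⟩
  let TrC : (X ⟶ Z) →ₗ[k] k :=
    { toFun := fun u => ∑ p ∈ hX.toFinset, sg k p * tr _ (u.f p)
      map_add' := fun u u' => by
        rw [← Finset.sum_add_distrib]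
        exact Finset.sum_congr rfl fun p _ => by rw [← mul_add, ← map_add]; rfl
      map_smul' := fun r u => by
        rw [RingHom.id_apply, smul_eq_mul, Finset.mul_sum]
        refine Finset.sum_congr rfl fun p _ => ?_
        rw [mul_left_comm, ← smul_eq_mul r, ← map_smul]; rfl }
  have hTr : TrC ∈ (LinearMap.ker ((QK C).mapLinearMap k (X := X) (Y := Z))).dualAnnihilator := by
    rw [Submodule.mem_dualAnnihilator]
    intro u hu
    have ho : Homotopy u 0 := HomotopyCategory.homotopyOfEq u 0 (by simpa using hu)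
    have hn : u = Homotopy.nullHomotopicMap ho.hom := by
      ext p
      exact (ho.comm p).trans (add_zero _)
    have := key_id ν tr cyc hX ho.hom (fun p => 𝟙 (ν.obj (X.X p)))
    rw [← hn, fsum_eq ν tr hX, finsum_eq_zero_of_forall_eq_zero] at this
    · refine Eq.trans (Finset.sum_congr rfl fun p _ => ?_) this
      exact congrArg (fun x => sg k p * tr _ x) (Category.comp_id (u.f p)).symm
    · intro p
      have e : ν.map (X.d p (p + 1)) ≫ 𝟙 (ν.obj (X.X (p + 1))) -
          𝟙 (ν.obj (X.X p)) ≫ ν.map (X.d p (p + 1)) = 0 := by simp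
      let u' : X.X (p + 1) ⟶ ν.obj (X.X p) := ho.hom (p + 1) p
      exact (congrArg (fun x => sg k (p + 1) * tr _ (u' ≫ x)) e).trans (by simp)
  rw [← LinearMap.range_dualMap_eq_dualAnnihilator_ker] at hTr
  obtain ⟨TrK, hTrK⟩ := hTr
  have := fdK fd Y Z hY
  rw [← Subspace.dual_finrank_eq (V := (QK C).obj Y ⟶ (QK C).obj Z)]
  refine LinearMap.finrank_le_finrank_of_injective
    (f := (Linear.comp ((QK C).obj X) ((QK C).obj Y) ((QK C).obj Z)).compr₂ TrK)
    ((injective_iff_map_eq_zero _).2 fun f hf => ?_)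
  obtain ⟨f, rfl⟩ := (QK C).map_surjective f
  let φ : (∀ p, Y.X p ⟶ ν.obj (X.X p)) →ₗ[k] k :=
    { toFun := fun b => ∑ p ∈ hX.toFinset, sg k p * tr _ (f.f p ≫ b p)
      map_add' := fun u u' => by simp [mul_add, Finset.sum_add_distrib]
      map_smul' := fun r u => by simp [Finset.mul_sum, mul_left_comm] }
  let δ : (∀ p, Y.X p ⟶ ν.obj (X.X p)) →ₗ[k] (∀ p, Y.X p ⟶ ν.obj (X.X (p + 1))) :=
    { toFun := fun b p => Y.d p (p + 1) ≫ b (p + 1) - b p ≫ ν.map (X.d p (p + 1))
      map_add' := fun u u' => by ext p; simp; abel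
      map_smul' := fun r u => by ext p; simp [smul_sub] }
  have hφ : φ ∈ (LinearMap.ker δ).dualAnnihilator := by
    rw [Submodule.mem_dualAnnihilator]
    intro b hb
    let g : Y ⟶ Z :=
      { f := b
        comm' := by
          rintro i j (rfl : i + 1 = j)
          exact (sub_eq_zero.1 (congrFun hb i)).symm }
    have h1 := LinearMap.congr_fun hf ((QK C).map g)
    have h2 := LinearMap.congr_fun hTrK (f ≫ g)
    simp only [LinearMap.dualMap_apply, Functor.mapLinearMap_apply] at h2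
    exact h2.symm.trans ((congrArg TrK ((QK C).map_comp f g)).trans h1)
  rw [← LinearMap.range_dualMap_eq_dualAnnihilator_ker] at hφ
  obtain ⟨ψ, hψ⟩ := hφ
  choose h0 hh0 using fun p : ℤ => sj (X.X (p + 1)) (Y.X p)
    (sg k (p + 1) • (ψ.comp (LinearMap.single k (fun p => Y.X p ⟶ ν.obj (X.X (p + 1))) p)))
  let h : ∀ i j, X.X i ⟶ Y.X j := fun i j =>
    if e : i = j + 1 then (X.XIsoOfEq e).hom ≫ h0 j else 0
  have hh : ∀ p, h (p + 1) p = h0 p := fun p => by simp [h]
  have hT := hX.preimage (f := fun p : ℤ => p + 1) (add_left_injective 1).injOn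
  have hψc : ∀ c : ∀ p, Y.X p ⟶ ν.obj (X.X (p + 1)),
      ψ c = ∑ᶠ p, sg k (p + 1) * tr _ (h (p + 1) p ≫ c p) := by
    intro c
    have hc : c = ∑ p ∈ hT.toFinset, Pi.single p (c p) := by
      ext q
      by_cases hq : IsZero (X.X (q + 1))
      · exact (ν.map_isZero hq).eq_of_tgt _ _
      · rw [Finset.sum_apply, Finset.sum_eq_single q (fun r _ hr => Pi.single_eq_of_ne' hr _)
          (fun hq' => absurd (by simpa using hq) hq'), Pi.single_eq_same]
    rw [finsum_eq_sum_of_support_subset (s := hT.toFinset)]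
    · conv_lhs => rw [hc, map_sum]
      refine Finset.sum_congr rfl fun p _ => ?_
      rw [hh, hh0, LinearMap.smul_apply, smul_eq_mul, ← mul_assoc, sg_mul, one_mul]
      rfl
    · intro p hp
      simp only [Set.Finite.coe_toFinset, Set.mem_preimage, Set.mem_ofPred_eq]
      exact fun h1 => hp (by simp [tr_zero ν tr h1])
  have hf0 : f = Homotopy.nullHomotopicMap h := by
    ext p
    by_cases hp : IsZero (X.X p)
    · exact hp.eq_of_src _ _
    rw [← sub_eq_zero]
    refine nd' _ _ _ fun v => ?_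
    have h1 := LinearMap.congr_fun hψ (Pi.single p v)
    rw [LinearMap.dualMap_apply, hψc] at h1
    have h2 := key_id ν tr cyc hX h (Pi.single p v)
    rw [fsum_eq ν tr hX] at h2
    have h3 := h2.trans h1
    have hp' : p ∈ hX.toFinset := by simpa using hp
    simp only [φ, LinearMap.coe_mk, AddHom.coe_mk] at h3
    rw [Finset.sum_eq_single_of_mem p hp' (fun q _ hq => by simp [Pi.single_eq_of_ne hq]),
      Finset.sum_eq_single_of_mem p hp' (fun q _ hq => by simp [Pi.single_eq_of_ne hq]),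
      Pi.single_eq_same] at h3
    have h4 : sg k p ≠ 0 := left_ne_zero_of_mul_eq_one (sg_mul p)
    rw [Preadditive.sub_comp, map_sub, mul_left_cancel₀ h4 h3, sub_self]
  rw [hf0, HomotopyCategory.eq_of_homotopy _ _ (Homotopy.nullHomotopy h fun i j hij => ?_),
    Functor.map_zero]
  exact dif_neg fun e => hij (by simpa using e.symm)

end Pool.Agent.HM
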