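import Pool.Agent.Lib.MP_6d85b4_al.HM.CatTG
import Pool.Agent.Lib.MP_6d85b4_al.HM.Serre
import Pool.Agent.Lib.MP_6d85b4_al.HM.GC

set_option autoImplicit false

/-! The graded data of the homotopy category of a graded category with trace. -/

namespace Pool.Agent.HM

open CategoryTheory Limits Pretriangulated ZeroObject Module

universe u

variable {k : Type} [Field k] {C : Type u} [Category.{0} C] [Preadditive C] [Linear k C]

/-- The homotopy category. -/
abbrev KC (C : Type u) [Category.{0} C] [Preadditive C] : Type u :=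
  HomotopyCategory C (ComplexShape.up ℤ)

/-- The functor induced on the homotopy category. -/
abbrev MH (F : C ⥤ C) [F.Additive] : KC C ⥤ KC C := F.mapHomotopyCategory (ComplexShape.up ℤ)

/-- The functor induced on complexes. -/
abbrev MC (F : C ⥤ C) [F.Additive] : CochainComplex C ℤ ⥤ CochainComplex C ℤ :=
  F.mapHomologicalComplex (ComplexShape.up ℤ)

/-- Objects isomorphic to a bounded complex. -/
def Good (a : KC C) : Prop := ∃ X : CochainComplex C ℤ, Bnd X ∧ Nonempty (a ≅ (QK C).obj X)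

lemma Good.iso {a b : KC C} (e : a ≅ b) (h : Good a) : Good b := by
  obtain ⟨X, hX, ⟨e'⟩⟩ := h
  exact ⟨X, hX, ⟨e.symm ≪≫ e'⟩⟩

lemma Good.map (F : C ⥤ C) [F.Additive] {a : KC C} (h : Good a) : Good ((MH F).obj a) := by
  obtain ⟨X, hX, ⟨e⟩⟩ := h
  exact ⟨(MC F).obj X, hX.subset fun p hp h0 => hp (F.map_isZero h0), ⟨(MH F).mapIso e⟩⟩

lemma Good.shift (n : ℤ) {a : KC C} (h : Good a) : Good (a⟦n⟧) := by
  obtain ⟨X, hX, ⟨e⟩⟩ := h
  exact ⟨X⟦n⟧, hX.preimage (f := fun p : ℤ => p + n) (add_left_injective n).injOn,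
    ⟨(shiftFunctor _ n).mapIso e ≪≫ (((QK C).commShiftIso n).app X).symm⟩⟩

lemma Good.fd (fd : ∀ X Y : C, Module.Finite k (X ⟶ Y)) {a : KC C} (h : Good a) (b : KC C) :
    Module.Finite k (a ⟶ b) := by
  obtain ⟨X, hX, ⟨e⟩⟩ := h
  obtain ⟨Y, rfl⟩ := b.quotient_obj_surjective
  have := fdK fd X Y hX
  exact Module.Finite.equiv (Linear.homCongr k e (Iso.refl _)).symm

lemma mh_iso {F F' : C ⥤ C} [F.Additive] [F'.Additive] (e : F ≅ F') (a : KC C) :
    Nonempty ((MH F).obj a ≅ (MH F').obj a) :=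
  ⟨(QK C).mapIso ((NatIso.mapHomologicalComplex e _).app a.as)⟩

lemma gk_add (g : GC k C) (m n p : ℤ) (h : m + n = p) (a : KC C) :
    Nonempty ((MH (g.G m)).obj ((MH (g.G n)).obj a) ≅ (MH (g.G p)).obj a) := by
  subst h
  exact mh_iso (g.Gadd m n) a

lemma gk_zero (g : GC k C) (a : KC C) : Nonempty ((MH (g.G 0)).obj a ≅ a) := mh_iso g.G0 a

lemma gk_inv (g : GC k C) (m n : ℤ) (h : m + n = 0) (a : KC C) :
    Nonempty ((MH (g.G m)).obj ((MH (g.G n)).obj a) ≅ a) := by
  obtain ⟨e⟩ := gk_add g m n 0 h a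
  obtain ⟨e'⟩ := gk_zero g a
  exact ⟨e ≪≫ e'⟩

lemma Good.serre (g : GC k C) {a b : KC C} (ha : Good a) (hb : Good b) :
    finrank k (a ⟶ b) ≤ finrank k (b ⟶ (MH (g.G 1)).obj ((MH (g.G 1)).obj a)) := by
  obtain ⟨X, hX, ⟨e⟩⟩ := ha
  obtain ⟨Y, hY, ⟨e'⟩⟩ := hb
  obtain ⟨e''⟩ := gk_add g 1 1 2 (by norm_num) a
  rw [(Linear.homCongr k e e').finrank_eq,
    (Linear.homCongr k e' (e'' ≪≫ (MH (g.G 2)).mapIso e)).finrank_eq]
  exact serre_le (g.G 2) g.tr g.fd g.cyc g.nd X Y hX hY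

lemma fn_le {g : GC k C} (F : g.Fn) (a b : KC C) [Module.Finite k (a ⟶ (MH F.R).obj b)] :
    finrank k ((MH F.R).obj a ⟶ b) ≤ finrank k (a ⟶ (MH F.R).obj b) := by
  obtain ⟨X, rfl⟩ := a.quotient_obj_surjective
  obtain ⟨Y, rfl⟩ := b.quotient_obj_surjective
  let η : X ⟶ (MC F.R).obj ((MC F.R).obj X) := (NatTrans.mapHomologicalComplex F.η _).app X
  let ε : (MC F.R).obj ((MC F.R).obj Y) ⟶ Y := (NatTrans.mapHomologicalComplex F.ε _).app Y
  have key : ∀ f : (MC F.R).obj X ⟶ Y, (MC F.R).map (η ≫ (MC F.R).map f) ≫ ε = f := by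
    intro f
    ext p
    change F.R.map (F.η.app (X.X p) ≫ F.R.map (f.f p)) ≫ F.ε.app (Y.X p) = f.f p
    have h1 : F.R.map (F.R.map (f.f p)) ≫ F.ε.app (Y.X p) =
      F.ε.app (F.R.obj (X.X p)) ≫ f.f p := F.ε.naturality (f.f p)
    rw [F.R.map_comp, Category.assoc]
    exact (congrArg (fun x => F.R.map (F.η.app (X.X p)) ≫ x) h1).trans
      (((Category.assoc _ _ _).symm.trans (congrArg (· ≫ f.f p) (F.tri (X.X p)))).trans
        (Category.id_comp _))
  let η' : (QK C).obj X ⟶ (MH F.R).obj ((MH F.R).obj ((QK C).obj X)) := (QK C).map η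
  let ε' : (MH F.R).obj ((MH F.R).obj ((QK C).obj Y)) ⟶ (QK C).obj Y := (QK C).map ε
  refine LinearMap.finrank_le_finrank_of_injective
    (f := (Linear.leftComp k _ η').comp ((MH F.R).mapLinearMap k))
    ((injective_iff_map_eq_zero _).2 fun f hf => ?_)
  have h2 : (MH F.R).map (η' ≫ (MH F.R).map f) ≫ ε' = f := by
    obtain ⟨f, rfl⟩ := (QK C).map_surjective (X := (MC F.R).obj X) f
    exact congrArg (QK C).map (key f)
  have h3 : η' ≫ (MH F.R).map f = 0 := hf
  rw [← h2, h3, Functor.map_zero, zero_comp]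

variable [HasZeroObject C]

lemma good_zero : Good (0 : KC C) := by
  refine ⟨0, Set.finite_empty.subset fun p hp => hp ?_,
    ⟨((QK C).map_isZero (isZero_zero _)).isoZero.symm⟩⟩
  exact (HomologicalComplex.eval C (ComplexShape.up ℤ) p).map_isZero (isZero_zero _)

/-- A complex concentrated in degree zero. -/
noncomputable abbrev SC (C : Type u) [Category.{0} C] [Preadditive C] [HasZeroObject C] :
    C ⥤ CochainComplex C ℤ := CochainComplex.singleFunctor C 0

/-- A complex concentrated in degree zero, in the homotopy category. -/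
noncomputable abbrev SK (C : Type u) [Category.{0} C] [Preadditive C] [HasZeroObject C] :
    C ⥤ KC C := HomotopyCategory.singleFunctor C 0

lemma sc_zero (A : C) (p : ℤ) (hp : p ≠ 0) : IsZero (((SC C).obj A).X p) :=
  HomologicalComplex.isZero_single_obj_X (ComplexShape.up ℤ) 0 A p hp

lemma good_single (A : C) : Good ((SK C).obj A) :=
  ⟨(SC C).obj A, (Set.finite_singleton (0 : ℤ)).subset fun p hp => by
    by_contra h0
    exact hp (sc_zero A p h0), ⟨Iso.refl _⟩⟩

lemma mh_single (F : C ⥤ C) [F.Additive] (A : C) :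
    Nonempty ((MH F).obj ((SK C).obj A) ≅ (SK C).obj (F.obj A)) :=
  ⟨(QK C).mapIso ((HomologicalComplex.singleMapHomologicalComplex F (ComplexShape.up ℤ) 0).app A)⟩

lemma hom_single (A B : C) : finrank k ((SK C).obj A ⟶ (SK C).obj B) = finrank k (A ⟶ B) := by
  refine (LinearEquiv.ofBijective ((SK C).mapLinearMap k) ⟨?_, ?_⟩).finrank_eq.symm
  · refine (injective_iff_map_eq_zero _).2 fun u hu => (SC C).map_injective ?_
    have ho : Homotopy ((SC C).map u) 0 :=
      HomotopyCategory.homotopyOfEq _ 0 (hu.trans ((QK C).map_zero _ _).symm)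
    rw [Functor.map_zero]
    ext p
    rw [ho.comm p, dNext_eq _ (show (ComplexShape.up ℤ).Rel p (p + 1) by simp),
      prevD_eq _ (show (ComplexShape.up ℤ).Rel (p - 1) p by simp)]
    simp
  · intro f
    obtain ⟨f, rfl⟩ := (QK C).map_surjective (X := (SC C).obj A) (Y := (SC C).obj B) f
    obtain ⟨f, rfl⟩ := (SC C).map_surjective f
    exact ⟨f, rfl⟩

lemma hom_single_shift (A B : C) (m : ℤ) (hm : m ≠ 0) :
    finrank k ((SK C).obj A ⟶ ((SK C).obj B)⟦m⟧) = 0 := by
  refine (Linear.homCongr k (Iso.refl ((SK C).obj A))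
    (((QK C).commShiftIso m).app ((SC C).obj B)).symm).finrank_eq.trans ?_
  have h : ∀ f : (QK C).obj ((SC C).obj A) ⟶ (QK C).obj (((SC C).obj B)⟦m⟧), f = 0 := by
    intro f
    obtain ⟨f, rfl⟩ := (QK C).map_surjective f
    have : f = 0 := by
      ext p
      by_cases hp : p = 0
      · exact (sc_zero B (p + m) (by omega)).eq_of_tgt _ _
      · exact (sc_zero A p hp).eq_of_src _ _
    rw [this, Functor.map_zero]
  have : Subsingleton ((QK C).obj ((SC C).obj A) ⟶ (QK C).obj (((SC C).obj B)⟦m⟧)) :=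
    ⟨fun x y => by rw [h x, h y]⟩
  exact @Module.finrank_zero_of_subsingleton k _ _ _ _ _ this

variable [HasBinaryBiproducts C]

lemma Good.cone {T : Triangle (KC C)} (hT : T ∈ distTriang (KC C)) (h1 : Good T.obj₁)
    (h2 : Good T.obj₂) : Good T.obj₃ := by
  obtain ⟨X, hX, ⟨e⟩⟩ := h1
  obtain ⟨Y, hY, ⟨e'⟩⟩ := h2
  obtain ⟨f, hf⟩ := (QK C).map_surjective (e.inv ≫ T.mor₁ ≫ e'.hom)
  refine ⟨CochainComplex.mappingCone f, ?_, ⟨Triangle.π₃.mapIso (isoTriangleOfIso₁₂ T _ hT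
    (HomotopyCategory.mappingCone_triangleh_distinguished f) e e' ?_)⟩⟩
  · refine ((hX.preimage (f := fun p : ℤ => p + 1) (add_left_injective 1).injOn).union hY).subset ?_
    intro p hp
    by_contra hc
    simp only [Set.mem_union, Set.mem_preimage, Set.mem_ofPred_eq, not_or, not_not] at hc
    exact hp ((CochainComplex.mappingCone.isZero_X_iff f p).2 hc)
  · change T.mor₁ ≫ e'.hom = e.hom ≫ (QK C).map f
    rw [hf, Iso.hom_inv_id_assoc]

/-- The categorical input given by the homotopy category. -/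
noncomputable def toTC {E : Type} (g : GC k C) (F : E → g.Fn) : TC k (KC C) E where
  G := (MH (g.G 1)).obj
  G' := (MH (g.G (-1))).obj
  Φ e := (MH (F e).R).obj
  Bd := Good
  G_iso e := ⟨(MH (g.G 1)).mapIso e⟩
  G'_iso e := ⟨(MH (g.G (-1))).mapIso e⟩
  Φ_iso e _ _ i := ⟨(MH (F e).R).mapIso i⟩
  GG' := gk_inv g 1 (-1) (by norm_num)
  G'G := gk_inv g (-1) 1 (by norm_num)
  G_dt _ _ _ h := h.map (MH (g.G 1))
  G'_dt _ _ _ h := h.map (MH (g.G (-1)))
  Φ_dt e _ _ _ h := h.map (MH (F e).R)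
  sG X := ⟨(((MH (g.G 1)).commShiftIso (1 : ℤ)).app X).symm⟩
  hom_G X Y := (mapEquiv k (MH (g.G 1)) X Y).finrank_eq.symm
  bd_iso := Good.iso
  bd_zero := good_zero
  bd_s X := ⟨fun h => (h.shift (-1)).iso
    ((shiftFunctorCompIsoId (KC C) (1 : ℤ) (-1) (by simp)).app X), Good.shift 1⟩
  bd_G X := ⟨fun h => by
    obtain ⟨e⟩ := gk_inv g (-1) 1 (by norm_num) X
    exact (h.map (g.G (-1))).iso e, Good.map _⟩
  bd_dt X Y Z h hX hZ := by
    obtain ⟨f, g, h, hT, -⟩ := h
    exact Good.cone (inv_rot_of_distTriang _ hT) (hZ.shift (-1)) hX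
  fd _ Y hX _ := hX.fd g.fd Y
  serre _ _ := Good.serre g
  ΦG e X := mh_iso ((F e).comm 1) X
  Φ_bd _ _ := Good.map _
  Φ_le e X Y hX _ := by
    have := hX.fd g.fd ((MH (F e).R).obj Y)
    exact fn_le (F e) X Y

lemma g_zpow {E : Type} (g : GC k C) (F : E → g.Fn) (n : ℤ) (a : KC C) :
    ((toTC g F).toTG.g ^ n) (ic a) = ic ((MH (g.G n)).obj a) := by
  induction n using Int.induction_on with
  | zero => exact (ic_eq.2 (gk_zero g a)).symm
  | succ n ih =>
    rw [add_comm, zpow_add, zpow_one, Equiv.Perm.mul_apply, ih]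
    exact ic_eq.2 (gk_add g 1 n _ rfl a)
  | pred n ih =>
    rw [sub_eq_neg_add, zpow_add, zpow_neg_one, Equiv.Perm.mul_apply, ih]
    exact ic_eq.2 (gk_add g (-1) (-n) _ rfl a)

lemma hom_gen {E : Type} (g : GC k C) (F : E → g.Fn) (A B : C) (m n : ℤ) :
    (toTC g F).toTG.hom (ic ((SK C).obj A))
      (((toTC g F).toTG.s ^ m) (((toTC g F).toTG.g ^ n) (ic ((SK C).obj B)))) =
      if m = 0 then finrank k (A ⟶ (g.G n).obj B) else 0 := by
  rw [g_zpow, ic_eq.2 (mh_single (g.G n) B)]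
  split_ifs with hm
  · subst hm
    exact hom_single A _
  · exact (congrArg (icHom k (ic ((SK C).obj A))) (icS_zpow m ((SK C).obj ((g.G n).obj B)))).trans
      (hom_single_shift A _ m hm)

lemma flt_lsum (l : List C) :
    Flt (ic (0 : KC C)) (icDT False) (l.map fun A => ic ((SK C).obj A))
      (ic ((SK C).obj (lsum l))) := by
  induction l with
  | nil =>
    have : ic ((SK C).obj (lsum [])) = ic (0 : KC C) :=
      ic_eq.2 ⟨((SK C).map_isZero (isZero_zero C)).isoZero⟩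
    rw [this]
    exact Flt.nil
  | cons A l ih =>
    refine Flt.cons (icDT_mk.2 ?_) ih
    have := preservesBinaryBiproducts_of_preservesBinaryProducts (SK C)
    exact (DT.of_mem (binaryBiproductTriangle_distinguished ((SK C).obj A)
      ((SK C).obj (lsum l)))).iso (Iso.refl _) ((SK C).mapBiprod A (lsum l)).symm (Iso.refl _)

end Pool.Agent.HM

namespace Pool.Agent.HM

open CategoryTheory

theorem aStmt : AStmt := by
  rintro k _ C _ _ _ _ _ V E adj N ⟨c⟩
  refine ⟨{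
    toTG := (toTC c.g c.F).toTG
    P := fun v => ic ((SK C).obj (c.P v))
    Q := fun v => ic ((SK C).obj (c.Q v))
    bd_P := fun v => good_single _
    bd_Q := fun v => good_single _
    hom_P := fun v w m n => by rw [hom_gen, c.hom_P]
    hom_Q := fun v w m n => by
      rw [hom_gen, c.hom_Q]
      by_cases hm : m = 0
      · rw [if_pos hm]
        by_cases h : n = 1 ∧ v = w
        · rw [if_pos h, if_pos ⟨hm, h⟩]
        · rw [if_neg h, if_neg fun h' => h h'.2]
      · simp [hm]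
    phi_P := fun e v => ?_ }⟩
  obtain ⟨l, h1, h2, ⟨i⟩⟩ := c.R_P e v
  refine ⟨l, h1, h2, ?_⟩
  obtain ⟨j⟩ := mh_single (c.F e).R (c.P v)
  have h3 := flt_lsum (l.map c.P)
  rw [List.map_map, ← ic_eq.2 ⟨j ≪≫ (SK C).mapIso i⟩] at h3
  exact h3

end Pool.Agent.HM
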