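import Pool.Agent.Lib.MP_6d85b4_al.HM.Rf

set_option autoImplicit false

/-!
The Ising and Fibonacci connections over the field with 31 elements.
-/

namespace Pool.Agent.HM

open CategoryTheory Limits Finset

instance fact31 : Fact (Nat.Prime 31) := ⟨by norm_num⟩

instance (e : Bool) : DecidableRel (fus e) := fun a b => by unfold fus; infer_instance

/-- Loop constants along the edges of the Ising graph. -/
def lamI (g h : Fin 3) : ZMod 31 := if g = 1 then (if h = 1 then 0 else 29) else
  if h = 1 then 15 else 0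

/-- Loop constants along the edges of the Fibonacci graph. -/
def lamT (u v : Fin 2) : ZMod 31 := if u = 1 then (if v = 1 then 1 else 7) else
  if v = 1 then 9 else 0

/-- Loop constants of a fusion graph. -/
def lamE (e : Bool) (a b : Irr) : ZMod 31 :=
  if fus e a b then (if e then lamI a.1 b.1 else lamT a.2 b.2) else 0

/-- Loop constants for a label class: none, 3, 4, 5. -/
def lamL (L : Fin 4) (a b : Irr) : ZMod 31 :=
  if L = 1 then (if a = b then 1 else 0) else if L = 2 then lamE true a b else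
    if L = 3 then lamE false a b else 0

/-- Quantum dimensions. -/
def wI (a : Irr) : ZMod 31 := (if a.1 = 1 then 8 else 1) * (if a.2 = 1 then 19 else 1)

/-- Ising symbols. -/
def symI (g h g' h' : Fin 3) : ZMod 31 :=
  if g = 1 then (if h = 2 ∧ g' = 2 then 27 else 4) else if g = 2 ∧ h' = 2 then 30 else 1

/-- Fibonacci symbols. -/
def symT (g h g' h' : Fin 2) : ZMod 31 :=
  if g = 1 ∧ h' = 1 then (if h = 0 ∧ g' = 0 then 18 else if h = 1 ∧ g' = 1 then 13 else 7) else 1

/-- The connection. -/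
def con (e : Bool) (L : Fin 4) (a b a' b' : Irr) : ZMod 31 :=
  if lamL L a' b' = 0 then 0 else
    if e = true ∧ L = 2 then symI a.1 b.1 a'.1 b'.1 else
      if e = false ∧ L = 3 then symT a.2 b.2 a'.2 b'.2 else 1

lemma wI_ne : ∀ a, wI a ≠ 0 := by decide +kernel

lemma wI_sym : ∀ L a b, wI a * lamL L a b = wI b * lamL L b a := by decide +kernel

lemma fus_symm : ∀ e a b, fus e a b → fus e b a := by decide +kernel

lemma con_funct : ∀ e L g h g₂ g', lamL L g h ≠ 0 → lamL L h g₂ ≠ 0 → fus e g g' →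
    fus e g₂ g' → (∑ h', if fus e h h' then
      con e L g h g' h' * con e L h g₂ h' g' * lamL L g' h' else 0) =
      if g = g₂ then lamL L g h else 0 := by decide +kernel

lemma con_eta : ∀ e L g h h' h'', lamL L g h ≠ 0 → fus e h h' → fus e h' h'' →
    (∑ g', if fus e g g' then lamE e g g' * (con e L g h g' h' * con e L g' h' g h'') else 0) =
      if h'' = h then lamE e h h' else 0 := by decide +kernel

lemma con_eps : ∀ e L g h g' g'', lamL L g h ≠ 0 → fus e g g' → fus e g' g'' →
    (∑ h', if fus e h h' then con e L g h g' h' * con e L g' h' g'' h * lamE e h h' else 0) =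
      if g'' = g then lamE e g g' else 0 := by decide +kernel

lemma lamE_tri : ∀ e a b, fus e a b → lamE e a b * lamE e b a = 1 := by decide +kernel

lemma lamE_ne : ∀ e a b, lamE e a b ≠ 0 ↔ fus e a b := by decide +kernel

/-- The class of a label. -/
def cls (n : ℕ) : Fin 4 := if n = 3 then 1 else if n = 4 then 2 else if n = 5 then 3 else 0

lemma lamL_cls (n : ℕ) (a b : Irr) : lamL (cls n) a b ≠ 0 ↔ lab n a b := by
  unfold cls lab
  by_cases h3 : n = 3
  · subst h3; simp [lamL]
  by_cases h4 : n = 4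
  · subst h4; simp [lamL, ← lamE_ne]
  by_cases h5 : n = 5
  · subst h5; simp [lamL, ← lamE_ne]
  · simp [h3, h4, h5, lamL]

section

variable {T : Type} (L : T → T → Fin 4) (hL : ∀ s t, L s t = L t s)

/-- The unfolded zigzag algebra. -/
def zd : ZD (ZMod 31) (T × Irr) where
  lam x y := lamL (L x.1 y.1) x.2 y.2
  w x := wI x.2
  w_ne x := wI_ne x.2
  sym x y := by rw [hL y.1 x.1]; exact wI_sym _ _ _

/-- The two connections. -/
def rf (e : Bool) : RF (zd L hL) where
  ρ := fus e
  dec := inferInstance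
  c x y := con e (L x.1 y.1) x.2 y.2
  η := lamE e
  ε := lamE e
  symm := fus_symm e
  supp := fun _ _ _ _ _ _ _ h => if_pos h
  funct := by
    intro s t g h g₂ g' h1 h2 h3 h4
    simp only [zd] at h1 h2 ⊢
    rw [hL t s] at h2 ⊢
    exact con_funct e _ g h g₂ g' h1 h2 h3 h4
  eta_nat := fun s t g h h' h'' h1 h2 h3 => con_eta e (L s t) g h h' h'' h1 h2 h3
  eps_nat := fun s t g h g' g'' h1 h2 h3 => con_eps e (L s t) g h g' g'' h1 h2 h3
  tri := lamE_tri e

end

open Classical in
/-- Label classes of the framed diagram. -/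
noncomputable def frL {S : Type} (m : S → S → ℕ) : S ⊕ S → S ⊕ S → Fin 4
  | Sum.inl s, Sum.inl t => if s = t then 0 else cls (m s t)
  | Sum.inl s, Sum.inr t => if s = t then 1 else 0
  | Sum.inr s, Sum.inl t => if s = t then 1 else 0
  | Sum.inr _, Sum.inr _ => 0

lemma frL_symm {S : Type} {m : S → S → ℕ} (hm : ∀ s t, m s t = m t s) (x y : S ⊕ S) :
    frL m x y = frL m y x := by
  rcases x with s | s <;> rcases y with t | t <;> simp only [frL]
  · by_cases h : s = t
    · subst h; rfl
    · rw [if_neg h, if_neg (Ne.symm h), hm]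
  · by_cases h : s = t
    · subst h; rfl
    · rw [if_neg h, if_neg (Ne.symm h)]
  · by_cases h : s = t
    · subst h; rfl
    · rw [if_neg h, if_neg (Ne.symm h)]

lemma lamL_zero (a b : Irr) : lamL 0 a b = 0 := by simp [lamL]

lemma lamL_one (a b : Irr) : lamL 1 a b ≠ 0 ↔ a = b := by simp [lamL]

theorem cStmt : CStmt := by
  intro S m hm
  classical
  let Z := zd (frL m) (frL_symm hm)
  refine ⟨ZMod 31, inferInstance, ZC Z, inferInstance, inferInstance, inferInstance,
    inferInstance, inferInstance, ⟨{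
      g := ZC.gc Z
      F := fun e => (rf (frL m) (frL_symm hm) e).fn
      P := fun v => ZC.pt Z ((Sum.inl v.1, v.2), 0)
      Q := fun v => ZC.pt Z ((Sum.inr v.1, v.2), 0)
      hom_P := ?_
      hom_Q := ?_
      R_P := ?_ }⟩⟩
  · intro v w n
    refine (ZC.finrank_pt (Z := Z) ((Sum.inl v.1, v.2), 0)
      (ZD.sv n ((Sum.inl w.1, w.2), 0))).trans ?_
    have e : Z.ok ((Sum.inl v.1, v.2), 0) (ZD.sv n ((Sum.inl w.1, w.2), 0)) ↔
        (((n = 0 ∨ n = 2) ∧ v = w) ∨ (n = 1 ∧ adjU m v w)) := by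
      have e1 : Z.lam (Sum.inl v.1, v.2) (Sum.inl w.1, w.2) ≠ 0 ↔ adjU m v w := by
        change lamL (if v.1 = w.1 then 0 else cls (m v.1 w.1)) v.2 w.2 ≠ 0 ↔ _
        unfold adjU
        by_cases h : v.1 = w.1
        · simp [h, lamL_zero]
        · rw [if_neg h, lamL_cls]; simp [h]
      have e2 : ((Sum.inl v.1, v.2) : (S ⊕ S) × Irr) = (Sum.inl w.1, w.2) ↔ v = w := by
        simp [Prod.ext_iff]
      simp only [ZD.ok, ZD.sv, e1, e2, zero_add]
      tauto
    unfold tab
    by_cases h : ((n = 0 ∨ n = 2) ∧ v = w) ∨ (n = 1 ∧ adjU m v w)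
    · rw [if_pos (e.2 h), if_pos h]
    · rw [if_neg (fun h' => h (e.1 h')), if_neg h]
  · intro v w n
    refine (ZC.finrank_pt (Z := Z) ((Sum.inr v.1, v.2), 0)
      (ZD.sv n ((Sum.inl w.1, w.2), 0))).trans ?_
    have e : Z.ok ((Sum.inr v.1, v.2), 0) (ZD.sv n ((Sum.inl w.1, w.2), 0)) ↔
        (n = 1 ∧ v = w) := by
      have e1 : Z.lam (Sum.inr v.1, v.2) (Sum.inl w.1, w.2) ≠ 0 ↔ v = w := by
        change lamL (if v.1 = w.1 then 1 else 0) v.2 w.2 ≠ 0 ↔ _
        by_cases h : v.1 = w.1
        · rw [if_pos h, lamL_one]; simp [Prod.ext_iff, h]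
        · rw [if_neg h]; simp [lamL_zero, Prod.ext_iff, h]
      simp [ZD.ok, ZD.sv, e1]
    by_cases h : n = 1 ∧ v = w
    · rw [if_pos (e.2 h), if_pos h]
    · rw [if_neg (fun h' => h (e.1 h')), if_neg h]
  · intro e v
    let s : Finset (S × Irr) := (Finset.univ.filter (fus e v.2)).image (fun a => (v.1, a))
    have hs : ∀ w, w ∈ s.toList ↔ fusU e v w := by
      intro w
      simp only [s, Finset.mem_toList, Finset.mem_image, Finset.mem_filter, Finset.mem_univ,
        true_and, fusU]
      constructor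
      · rintro ⟨a, ha, rfl⟩; exact ⟨rfl, ha⟩
      · rintro ⟨h1, h2⟩; exact ⟨w.2, h2, Prod.ext h1 rfl⟩
    refine ⟨s.toList, s.nodup_toList, hs, ?_⟩
    refine ZC.iso_lsum (Z := Z) (fun w : S × Irr => ((Sum.inl w.1, w.2), 0)) _ s.nodup_toList _
      { toFun := fun p => ⟨(v.1, p.1.2), (hs _).2 ⟨rfl, p.2⟩⟩
        invFun := fun w => ⟨((), w.1.2), ((hs _).1 w.2).2⟩
        left_inv := fun p => rfl
        right_inv := fun w => Subtype.ext (Prod.ext ((hs _).1 w.2).1 rfl) } (fun _ => rfl)

end Pool.Agent.HM
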