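import Pool.Agent.Lib.MP_6d85b4_al.HM.OrbB
import Pool.Agent.Lib.HT.Model

set_option autoImplicit false

/-!
From the 2-Calabi-Yau data `RD` to the model.
-/

namespace Pool.Agent.HM

universe u

namespace RD

variable {V E : Type} [Fintype V] {adj : V → V → Prop} {N : E → V → V → Prop}
  (R : RD.{u} V E adj N)

lemma nz_lt {A Y B : R.Obj} (h : R.NZ A Y B) : R.hom B (R.s A) ≠ 0 ∧
    R.hom B Y < R.hom B A + R.hom B B ∧ R.hom B (R.s Y) < R.hom B (R.s A) + R.hom B (R.s B) ∧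
    R.hom Y A < R.hom A A + R.hom B A ∧ R.hom Y (R.s A) < R.hom A (R.s A) + R.hom B (R.s A) := by
  obtain ⟨a, b, c, h0, e⟩ := R.les_nz A Y B h
  obtain ⟨a', b', c', h0', e'⟩ := R.les_nz' A Y B h
  obtain ⟨e1, e2, e3⟩ := e B
  obtain ⟨f1, f2, f3⟩ := e (R.s.symm B)
  obtain ⟨g1, g2, g3⟩ := e' A
  obtain ⟨k1, k2, k3⟩ := e' (R.s A)
  rw [← R.hom_s, Equiv.apply_symm_apply] at f1 f2 f3
  omega

/-- The Cartan form as a bilinear map. -/
noncomputable def form (adj : V → V → Prop) : (V → ℤ) →+ (V → ℤ) →+ ℤ :=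
  AddMonoidHom.mk' (fun x => AddMonoidHom.mk' (cartan adj x) (GD.cartan_add' x))
    fun x x' => AddMonoidHom.ext fun y => GD.cartan_add x x' y

/-- The triangulated data. -/
noncomputable def td : HT.TD.{u} (V → ℤ) where
  Obj := R.Obj
  s := R.s
  zero := R.zero
  Ext := R.Ext
  hom := R.hom
  cl := R.cl
  form := form adj
  rot := R.rot
  ext_zero := R.ext_zero
  eq_of_ext_zero := R.eq_of_ext_zero
  assoc := R.assoc
  fac := R.fac
  hom_s := R.hom_s
  eq_zero := R.eq_zero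
  hom_zero := R.hom_zero
  les W A Y B h := by
    obtain ⟨a, b, c, e⟩ := R.les A Y B h
    obtain ⟨e1, e2, e3⟩ := e W
    omega
  cy := R.cy
  dich A Y B h := (R.dich A Y B h).imp_right R.nz_lt
  cone A B h :=
    let ⟨Y, k⟩ := R.cone A B h
    ⟨Y, R.nz_ext _ _ _ k, (R.nz_lt k).2⟩
  sum := R.sum
  cl_ext := R.cl_ext
  euler := R.euler

lemma clo {X : Set R.Obj} {A : R.Obj} (h : Clo R.zero R.Ext X A) : R.td.Cl X A := by
  induction h with
  | zero => exact HT.TD.Cl.zero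
  | cons h1 h2 _ ih => exact HT.TD.Cl.cons h1 h2 ih

/-- The standard heart. -/
noncomputable def heart (hi : ∀ v, ¬ adj v v) : HT.Heart R.td V where
  S := R.P
  b := Pi.basisFun ℤ V
  cl_S v := by
    classical
    rw [Pi.basisFun_apply]
    exact (R.cl_P v).trans (by congr)
  neg v w n hn := (R.hom_P v w n).trans (if_neg (by omega))
  one v := (R.hom_P v v 0).trans (if_pos (by simp))
  off v w h := (R.hom_P v w 0).trans (if_neg (by simp [h]))
  rig v := (R.hom_P v v 1).trans (if_neg (by simp [hi]))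
  gen Y := HT.TD.Cl.mono (by rintro _ ⟨n, v, rfl⟩; exact HT.TD.Cl.of_mem ⟨v, n, rfl⟩)
    (R.clo (R.gen Y))

lemma phi_zero (e : E) : R.phi e R.zero = R.zero :=
  R.eq_zero _ ((R.phi_adj e _ _).trans (R.td.zero_hom _))

lemma phi_s (e : E) (A : R.Obj) : R.phi e (R.s A) = R.s (R.phi e A) := by
  have h0 : R.Ext A R.zero (R.s A) := by
    have := (R.rot _ _ _).1 ((R.rot _ _ _).1 (R.ext_zero A))
    rwa [show R.s R.zero = R.zero from R.td.s_zero] at this
  have h := R.phi_ext e _ _ _ h0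
  rw [R.phi_zero] at h
  exact R.td.eq_of_ext_zero_mid h

lemma flt_M (hi : ∀ v, ¬ adj v v) {l : List V} {Y : R.Obj} (h : Flt R.zero R.Ext (l.map R.P) Y) :
    (R.heart hi).M Y := by
  induction l generalizing Y with
  | nil => cases h; exact HT.TD.Cl.zero
  | cons v l ih =>
    cases h with
    | cons h1 h2 => exact HT.TD.Cl.cons ⟨v, 0, rfl, rfl⟩ h1 (ih h2)

end RD

open Classical in
lemma nF_eq (e : Bool) (a b : Irr) : HT.nF e a b = if fus e b a then 1 else 0 := by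
  cases e
  · simp only [HT.nF, HT.nT, fus, Bool.false_eq_true, if_false]
    congr 1
    exact propext ⟨fun ⟨x, y⟩ => ⟨x.symm, y.symm⟩, fun ⟨x, y⟩ => ⟨x.symm, y.symm⟩⟩
  · simp only [HT.nF, HT.nS, fus, if_true]
    congr 1
    exact propext ⟨fun ⟨x, y, z⟩ => ⟨x.symm, y.symm, z.symm⟩,
      fun ⟨x, y, z⟩ => ⟨x.symm, y.symm, z.symm⟩⟩

open Classical in
lemma nL_eq (m : ℕ) (a b : Irr) : HT.nL m a b = if lab m a b then 1 else 0 := by
  unfold HT.nL lab
  by_cases h3 : m = 3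
  · simp [h3]
  by_cases h4 : m = 4
  · simp [h4, HT.nS, fus]
  by_cases h5 : m = 5
  · simp [h5, HT.nT, fus]
  simp [h3, h4, h5]

/-- The model attached to the data of the unfolded graph. -/
noncomputable def RD.model {S : Type} [Fintype S] [DecidableEq S] {m : S → S → ℕ}
    (R : RD.{1} (S × Irr) Bool (adjU m) fusU) : HT.Model m where
  D := R.td
  H := R.heart fun _ h => h.1 rfl
  basis := rfl
  form_eq x y := by
    have := GD.cartan_single (adj := adjU m) x y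
    refine Eq.trans (show cartan (adjU m) _ _ = _ by congr <;> exact Subsingleton.elim _ _) (this.trans ?_)
    rw [HT.cartan, nL_eq]
    by_cases h : x.1 = y.1
    · simp [h, adjU, Prod.ext_iff]
    · by_cases k : lab (m x.1 y.1) x.2 y.2 <;> simp [h, k, adjU, Prod.ext_iff]
  Phi := R.phi
  Phi_ext := R.phi_ext
  Phi_s := R.phi_s
  Phi_adj e A B := by
    show R.hom _ _ = 0 ↔ R.hom _ _ = 0
    rw [R.phi_adj]
  Phi_cl e A x := by
    refine (R.phi_cl e A x).trans ?_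
    rw [Fintype.sum_prod_type, Finset.sum_eq_single x.1 (fun a _ h => by simp [fusU, h]) (by simp)]
    refine Finset.sum_congr rfl fun a _ => ?_
    rw [nF_eq]
    by_cases h : fus e a x.2 <;> simp [fusU, h, RD.td]
  Phi_M e x :=
    let ⟨_, _, _, h⟩ := R.phi_P e x
    R.flt_M _ h

lemma adjU_symm {S : Type} {m : S → S → ℕ} (hm : ∀ s t, m s t = m t s) (x y : S × Irr)
    (h : adjU m x y) : adjU m y x := by
  refine ⟨h.1.symm, ?_⟩
  rw [hm]
  rcases h.2 with ⟨a, b⟩ | ⟨a, b⟩ | ⟨a, b⟩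
  · exact Or.inl ⟨a, b.symm⟩
  · exact Or.inr (Or.inl ⟨a, b.1.symm, b.2.1.symm, b.2.2.symm⟩)
  · exact Or.inr (Or.inr ⟨a, b.1.symm, b.2.symm⟩)

theorem model_of (hO : OrbitStmt) (hG : GradedStmt) : HT.ModelStmt := fun S _ _ m hm =>
  let ⟨R⟩ := hO _ _ (adjU m) fusU (fun _ h => h.1 rfl) (adjU_symm hm) (hG S m hm)
  ⟨R.model⟩

end Pool.Agent.HM
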