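import Pool.Agent.Lib.MP_6d85b4_al.HM.Orbit
import Pool.Agent.Lib.MP_6d85b4_al.HM.Glue
import Pool.Agent.Lib.MP_6d85b4_al.HM.Asm
import Pool.Agent.Lib.MP_6d85b4_al.HM.Data

set_option autoImplicit false

/-! The model exists. -/

namespace Pool.Agent.HM

theorem modelStmt : HT.ModelStmt := model_of orbit (graded_of aStmt cStmt)

end Pool.Agent.HM
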