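import Pool.Agent.Lib.MP_6d85b4_al.HM.Defs

set_option autoImplicit false

/-! Distinguished triangles and ranks in a linear triangulated category. -/

namespace Pool.Agent.HM

open CategoryTheory Limits Pretriangulated ZeroObject Module

universe v u

variable (k : Type) [Field k] {D : Type u} [Category.{v} D] [Preadditive D] [Linear k D]
  [HasZeroObject D] [HasShift D ℤ] [∀ n : ℤ, (shiftFunctor D n).Additive] [Pretriangulated D]

/-- There is a distinguished triangle on `X, Y, Z` whose third map satisfies: non zero if `z`. -/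
def DT (z : Prop) (X Y Z : D) : Prop :=
  ∃ (f : X ⟶ Y) (g : Y ⟶ Z) (h : Z ⟶ X⟦(1 : ℤ)⟧), Triangle.mk f g h ∈ distTriang D ∧ (z → h ≠ 0)

lemma DT.iso {z : Prop} {X Y Z X' Y' Z' : D} (h : DT z X Y Z) (eX : X ≅ X') (eY : Y ≅ Y')
    (eZ : Z ≅ Z') : DT z X' Y' Z' := by
  obtain ⟨f, g, h, hT, hz⟩ := h
  refine ⟨eX.inv ≫ f ≫ eY.hom, eY.inv ≫ g ≫ eZ.hom, eZ.inv ≫ h ≫ eX.hom⟦(1 : ℤ)⟧', ?_, ?_⟩
  · refine isomorphic_distinguished _ hT _ (Triangle.isoMk _ _ eX.symm eY.symm eZ.symm ?_ ?_ ?_)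
    · change (eX.inv ≫ f ≫ eY.hom) ≫ eY.inv = eX.inv ≫ f
      simp
    · change (eY.inv ≫ g ≫ eZ.hom) ≫ eZ.inv = eY.inv ≫ g
      simp
    · change (eZ.inv ≫ h ≫ eX.hom⟦(1 : ℤ)⟧') ≫ eX.inv⟦(1 : ℤ)⟧' = eZ.inv ≫ h
      simp [← Functor.map_comp]
  · intro hz' h0
    apply hz hz'
    rw [← cancel_epi eZ.inv, ← cancel_mono (eX.hom⟦(1 : ℤ)⟧')]
    simpa using h0

lemma DT.of_mem {T : Triangle D} (hT : T ∈ distTriang D) : DT False T.obj₁ T.obj₂ T.obj₃ :=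
  ⟨T.mor₁, T.mor₂, T.mor₃, hT, False.elim⟩

lemma DT.weak {z : Prop} {X Y Z : D} (h : DT z X Y Z) : DT False X Y Z := by
  obtain ⟨f, g, h, hT, _⟩ := h
  exact ⟨f, g, h, hT, False.elim⟩

lemma DT.rot (X Y Z : D) : DT False X Y Z ↔ DT False Y Z (X⟦(1 : ℤ)⟧) := by
  constructor
  · rintro ⟨f, g, h, hT, _⟩
    exact DT.of_mem (rot_of_distTriang _ hT)
  · rintro ⟨f, g, h, hT, _⟩
    exact (DT.of_mem (inv_rot_of_distTriang _ hT)).iso
      ((shiftFunctorCompIsoId D (1 : ℤ) (-1) (by simp)).app X) (Iso.refl _) (Iso.refl _)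

lemma DT.zero (X : D) : DT False (0 : D) X X := DT.of_mem (contractible_distinguished₁ X)

lemma DT.iso_of_zero {Y Z : D} (h : DT False (0 : D) Y Z) : Nonempty (Y ≅ Z) := by
  obtain ⟨f, g, h, hT, _⟩ := h
  have : IsIso g := (Triangle.isZero₁_iff_isIso₂ _ hT).1 (isZero_zero D)
  exact ⟨asIso g⟩

lemma DT.assoc [IsTriangulated D] {A Y B C E : D} (h : DT False A Y B) (h' : DT False C A E) :
    ∃ F : D, DT False C Y F ∧ DT False E F B := by
  obtain ⟨f, g, h, hT, _⟩ := h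
  obtain ⟨f', g', h', hT', _⟩ := h'
  obtain ⟨F, g'', h'', hT''⟩ := distinguished_cocone_triangle (f' ≫ f)
  exact ⟨F, DT.of_mem hT'', DT.of_mem (Triangulated.someOctahedron rfl hT' hT hT'').mem⟩

lemma DT.fac [IsTriangulated D] {A Y B A' B' : D} (h0 : ∀ u : A ⟶ B', u = 0)
    (h : DT False A Y B) (h' : DT False A' Y B') :
    ∃ C : D, DT False A' C (A⟦(1 : ℤ)⟧) ∧ DT False C B B' := by
  obtain ⟨f, g, h, hT, _⟩ := h
  obtain ⟨f', g', h', hT', _⟩ := h'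
  obtain ⟨u, hu⟩ := Triangle.coyoneda_exact₂ _ hT' f (h0 _)
  obtain ⟨C, g'', h'', hT''⟩ := distinguished_cocone_triangle u
  exact ⟨C, (DT.rot _ _ _).1 (DT.of_mem hT''),
    DT.of_mem (Triangulated.someOctahedron hu.symm hT'' hT' hT).mem⟩

lemma DT.cone {A B : D} (h : B ⟶ A⟦(1 : ℤ)⟧) (h0 : h ≠ 0) : ∃ Y : D, DT True A Y B := by
  obtain ⟨Y, f, g, hT⟩ := distinguished_cocone_triangle₂ h
  exact ⟨Y, f, g, h, hT, fun _ => h0⟩

lemma DT.swap {T : Triangle D} (hT : T ∈ distTriang D) (h0 : T.mor₃ = 0) :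
    DT False T.obj₃ T.obj₂ T.obj₁ := by
  obtain ⟨e, -⟩ := exists_iso_binaryBiproduct_of_distTriang T hT h0
  exact (DT.of_mem (binaryBiproductTriangle_distinguished T.obj₃ T.obj₁)).iso (Iso.refl _)
    (biprod.braiding _ _ ≪≫ e.symm) (Iso.refl _)

lemma DT.map {z : Prop} {X Y Z : D} (F : D ⥤ D) [F.CommShift ℤ] [F.IsTriangulated]
    (h : DT z X Y Z) : DT False (F.obj X) (F.obj Y) (F.obj Z) := by
  obtain ⟨f, g, h, hT, _⟩ := h
  exact DT.of_mem (F.map_distinguished _ hT)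

lemma rank_eq {M M' N N' : Type v} [AddCommGroup M] [AddCommGroup M'] [AddCommGroup N]
    [AddCommGroup N'] [Module k M] [Module k M'] [Module k N] [Module k N']
    (e₁ : M ≃ₗ[k] M') (e₂ : N ≃ₗ[k] N') (φ : M →ₗ[k] N) (φ' : M' →ₗ[k] N')
    (h : ∀ x, φ' (e₁ x) = e₂ (φ x)) :
    finrank k (LinearMap.range φ') = finrank k (LinearMap.range φ) := by
  rw [← LinearEquiv.finrank_map_eq e₂ (LinearMap.range φ)]
  have : LinearMap.range φ' = Submodule.map (e₂ : N →ₗ[k] N') (LinearMap.range φ) := by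
    ext y
    simp only [LinearMap.mem_range, Submodule.mem_map, exists_exists_eq_and, LinearEquiv.coe_coe]
    constructor
    · rintro ⟨x, rfl⟩
      exact ⟨e₁.symm x, by rw [← h]; simp⟩
    · rintro ⟨x, rfl⟩
      exact ⟨e₁ x, h x⟩
  rw [this]

/-- Rank of composition with `f` on `Hom(W, -)`. -/
noncomputable def rk (W : D) {X Y : D} (f : X ⟶ Y) : ℕ :=
  finrank k (LinearMap.range (Linear.rightComp k W f))

/-- Rank of composition with `f` on `Hom(-, W)`. -/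
noncomputable def rk' (W : D) {X Y : D} (f : X ⟶ Y) : ℕ :=
  finrank k (LinearMap.range (Linear.leftComp k W f))

omit [HasZeroObject D] [HasShift D ℤ] [∀ n : ℤ, (shiftFunctor D n).Additive] [Pretriangulated D] in
lemma rk_iso {W W' X Y : D} (e : W ≅ W') (f : X ⟶ Y) : rk k W f = rk k W' f :=
  (rank_eq k (Linear.homCongr k e (Iso.refl X)) (Linear.homCongr k e (Iso.refl Y)) _ _
    (fun x => by simp [Linear.homCongr_apply])).symm

omit [HasZeroObject D] [HasShift D ℤ] [∀ n : ℤ, (shiftFunctor D n).Additive] [Pretriangulated D] in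
lemma rk'_iso {W W' X Y : D} (e : W ≅ W') (f : X ⟶ Y) : rk' k W f = rk' k W' f :=
  (rank_eq k (Linear.homCongr k (Iso.refl Y) e) (Linear.homCongr k (Iso.refl X) e) _ _
    (fun x => by simp [Linear.homCongr_apply])).symm

/-- A fully faithful linear functor gives linear equivalences. -/
noncomputable def mapEquiv (F : D ⥤ D) [F.Additive] [F.Linear k] [F.Full] [F.Faithful]
    (X Y : D) : (X ⟶ Y) ≃ₗ[k] (F.obj X ⟶ F.obj Y) :=
  LinearEquiv.ofBijective (F.mapLinearMap k) ⟨F.map_injective, F.map_surjective⟩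

variable [∀ n : ℤ, (shiftFunctor D n).Linear k]

omit [HasZeroObject D] [Pretriangulated D] in
lemma rk_shift (W : D) {X Y : D} (f : X ⟶ Y) :
    rk k (W⟦(1 : ℤ)⟧) (-f⟦(1 : ℤ)⟧') = rk k W f :=
  rank_eq k (mapEquiv k (shiftFunctor D (1 : ℤ)) W X)
    ((mapEquiv k (shiftFunctor D (1 : ℤ)) W Y).trans (LinearEquiv.neg k)) _ _
    (fun x => by simp [mapEquiv])

omit [HasZeroObject D] [Pretriangulated D] in
lemma rk'_shift (W : D) {X Y : D} (f : X ⟶ Y) :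
    rk' k (W⟦(1 : ℤ)⟧) (-f⟦(1 : ℤ)⟧') = rk' k W f :=
  rank_eq k (mapEquiv k (shiftFunctor D (1 : ℤ)) Y W)
    ((mapEquiv k (shiftFunctor D (1 : ℤ)) X W).trans (LinearEquiv.neg k)) _ _
    (fun x => by simp [mapEquiv])

omit [HasZeroObject D] [Pretriangulated D] in
lemma hom_shift (X Y : D) :
    finrank k (X⟦(1 : ℤ)⟧ ⟶ Y⟦(1 : ℤ)⟧) = finrank k (X ⟶ Y) :=
  (mapEquiv k (shiftFunctor D (1 : ℤ)) X Y).finrank_eq.symm

omit [∀ n : ℤ, (shiftFunctor D n).Linear k] in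
lemma rk_exact {T : Triangle D} (hT : T ∈ distTriang D) (W : D) [Module.Finite k (W ⟶ T.obj₂)] :
    finrank k (W ⟶ T.obj₂) = rk k W T.mor₁ + rk k W T.mor₂ := by
  have h := LinearMap.finrank_range_add_finrank_ker (Linear.rightComp k W T.mor₂)
  have : LinearMap.ker (Linear.rightComp k W T.mor₂) =
      LinearMap.range (Linear.rightComp k W T.mor₁) := by
    ext x
    simp only [LinearMap.mem_ker, LinearMap.mem_range, Linear.rightComp_apply]
    constructor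
    · intro hx
      obtain ⟨y, hy⟩ := Triangle.coyoneda_exact₂ _ hT x hx
      exact ⟨y, hy.symm⟩
    · rintro ⟨y, rfl⟩
      rw [Category.assoc, comp_distTriang_mor_zero₁₂ _ hT, comp_zero]
  rw [this] at h
  unfold rk
  omega

omit [∀ n : ℤ, (shiftFunctor D n).Linear k] in
lemma rk'_exact {T : Triangle D} (hT : T ∈ distTriang D) (W : D) [Module.Finite k (T.obj₂ ⟶ W)] :
    finrank k (T.obj₂ ⟶ W) = rk' k W T.mor₁ + rk' k W T.mor₂ := by
  have h := LinearMap.finrank_range_add_finrank_ker (Linear.leftComp k W T.mor₁)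
  have : LinearMap.ker (Linear.leftComp k W T.mor₁) =
      LinearMap.range (Linear.leftComp k W T.mor₂) := by
    ext x
    simp only [LinearMap.mem_ker, LinearMap.mem_range, Linear.leftComp_apply]
    constructor
    · intro hx
      obtain ⟨y, hy⟩ := Triangle.yoneda_exact₂ _ hT x hx
      exact ⟨y, hy.symm⟩
    · rintro ⟨y, rfl⟩
      rw [← Category.assoc, comp_distTriang_mor_zero₁₂ _ hT, zero_comp]
  rw [this] at h
  unfold rk'
  omega

lemma rk_three {A Y B : D} {f : A ⟶ Y} {g : Y ⟶ B} {h : B ⟶ A⟦(1 : ℤ)⟧}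
    (hT : Triangle.mk f g h ∈ distTriang D) (W : D) [Module.Finite k (W ⟶ Y)]
    [Module.Finite k (W ⟶ B)] [Module.Finite k (W⟦(1 : ℤ)⟧ ⟶ A⟦(1 : ℤ)⟧)] :
    finrank k (W ⟶ Y) = rk k W f + rk k W g ∧ finrank k (W ⟶ B) = rk k W g + rk k W h ∧
      finrank k (W ⟶ A) = rk k (W⟦(1 : ℤ)⟧) h + rk k W f := by
  refine ⟨@rk_exact k _ D _ _ _ _ _ _ _ _ hT W ‹_›,
    @rk_exact k _ D _ _ _ _ _ _ _ _ (rot_of_distTriang _ hT) W ‹_›, ?_⟩
  rw [← hom_shift, ← rk_shift k W f]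
  exact @rk_exact k _ D _ _ _ _ _ _ _ _ (rot_of_distTriang _ (rot_of_distTriang _ hT)) _ ‹_›

lemma rk'_three {A Y B : D} {f : A ⟶ Y} {g : Y ⟶ B} {h : B ⟶ A⟦(1 : ℤ)⟧}
    (hT : Triangle.mk f g h ∈ distTriang D) (W : D) [Module.Finite k (Y ⟶ W)]
    [Module.Finite k (B ⟶ W)] [Module.Finite k (A⟦(1 : ℤ)⟧ ⟶ W⟦(1 : ℤ)⟧)] :
    finrank k (Y ⟶ W) = rk' k W f + rk' k W g ∧ finrank k (B ⟶ W) = rk' k W g + rk' k W h ∧
      finrank k (A ⟶ W) = rk' k (W⟦(1 : ℤ)⟧) h + rk' k W f := by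
  refine ⟨@rk'_exact k _ D _ _ _ _ _ _ _ _ hT W ‹_›,
    @rk'_exact k _ D _ _ _ _ _ _ _ _ (rot_of_distTriang _ hT) W ‹_›, ?_⟩
  rw [← hom_shift, ← rk'_shift k W f]
  exact @rk'_exact k _ D _ _ _ _ _ _ _ _ (rot_of_distTriang _ (rot_of_distTriang _ hT)) _ ‹_›

omit [HasZeroObject D] [HasShift D ℤ] [∀ n : ℤ, (shiftFunctor D n).Additive] [Pretriangulated D]
  [∀ n : ℤ, (shiftFunctor D n).Linear k] in
lemma rk_zero (W X Y : D) : rk k W (0 : X ⟶ Y) = 0 := by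
  have : Linear.rightComp k W (0 : X ⟶ Y) = 0 := by ext x; simp
  unfold rk
  rw [this, LinearMap.range_zero, finrank_bot]

omit [HasZeroObject D] [HasShift D ℤ] [∀ n : ℤ, (shiftFunctor D n).Additive] [Pretriangulated D]
  [∀ n : ℤ, (shiftFunctor D n).Linear k] in
lemma rk_pos {X Y : D} (f : X ⟶ Y) (hf : f ≠ 0) [Module.Finite k (X ⟶ Y)] : 0 < rk k X f := by
  unfold rk
  rw [Module.finrank_pos_iff_exists_ne_zero]
  exact ⟨⟨f, 𝟙 X, by simp⟩, fun h => hf (congrArg Subtype.val h)⟩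

omit [HasZeroObject D] [HasShift D ℤ] [∀ n : ℤ, (shiftFunctor D n).Additive] [Pretriangulated D]
  [∀ n : ℤ, (shiftFunctor D n).Linear k] in
lemma rk'_pos {X Y : D} (f : X ⟶ Y) (hf : f ≠ 0) [Module.Finite k (X ⟶ Y)] : 0 < rk' k Y f := by
  unfold rk'
  rw [Module.finrank_pos_iff_exists_ne_zero]
  exact ⟨⟨f, 𝟙 Y, by simp⟩, fun h => hf (congrArg Subtype.val h)⟩

end Pool.Agent.HM
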