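import Pool.Agent.Lib.MP_6d85b4_al.HM.Cat

set_option autoImplicit false

/-! From a triangulated category to the numerical data of its isomorphism classes. -/

namespace Pool.Agent.HM

open CategoryTheory Limits Pretriangulated ZeroObject Module

universe v u

variable (k : Type) [Field k] (D : Type u) [Category.{v} D] [Preadditive D] [Linear k D]
  [HasZeroObject D] [HasShift D ℤ] [∀ n : ℤ, (shiftFunctor D n).Additive] [Pretriangulated D]

/-- Categorical input. -/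
structure TC (E : Type) where
  G : D → D
  G' : D → D
  Φ : E → D → D
  Bd : D → Prop
  G_iso : ∀ {X Y : D}, (X ≅ Y) → Nonempty (G X ≅ G Y)
  G'_iso : ∀ {X Y : D}, (X ≅ Y) → Nonempty (G' X ≅ G' Y)
  Φ_iso : ∀ (e : E) {X Y : D}, (X ≅ Y) → Nonempty (Φ e X ≅ Φ e Y)
  GG' : ∀ X, Nonempty (G (G' X) ≅ X)
  G'G : ∀ X, Nonempty (G' (G X) ≅ X)
  G_dt : ∀ X Y Z, DT False X Y Z → DT False (G X) (G Y) (G Z)
  G'_dt : ∀ X Y Z, DT False X Y Z → DT False (G' X) (G' Y) (G' Z)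
  Φ_dt : ∀ e X Y Z, DT False X Y Z → DT False (Φ e X) (Φ e Y) (Φ e Z)
  sG : ∀ X, Nonempty ((G X)⟦(1 : ℤ)⟧ ≅ G (X⟦(1 : ℤ)⟧))
  hom_G : ∀ X Y, finrank k (G X ⟶ G Y) = finrank k (X ⟶ Y)
  bd_iso : ∀ {X Y : D}, (X ≅ Y) → Bd X → Bd Y
  bd_zero : Bd 0
  bd_s : ∀ X, Bd (X⟦(1 : ℤ)⟧) ↔ Bd X
  bd_G : ∀ X, Bd (G X) ↔ Bd X
  bd_dt : ∀ X Y Z, DT False X Y Z → Bd X → Bd Z → Bd Y
  fd : ∀ X Y, Bd X → Bd Y → Module.Finite k (X ⟶ Y)
  serre : ∀ X Y, Bd X → Bd Y → finrank k (X ⟶ Y) ≤ finrank k (Y ⟶ G (G X))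
  ΦG : ∀ e X, Nonempty (Φ e (G X) ≅ G (Φ e X))
  Φ_bd : ∀ e X, Bd X → Bd (Φ e X)
  Φ_le : ∀ e X Y, Bd X → Bd Y → finrank k (Φ e X ⟶ Y) ≤ finrank k (X ⟶ Φ e Y)

/-- Isomorphism classes. -/
abbrev IC : Type u := _root_.Quotient (isIsomorphicSetoid D)

variable {D}

/-- The class of an object. -/
def ic (X : D) : IC D := _root_.Quotient.mk _ X

omit [Preadditive D] [HasZeroObject D] [HasShift D ℤ] [∀ n : ℤ, (shiftFunctor D n).Additive]
  [Pretriangulated D] in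
lemma ic_eq {X Y : D} : ic X = ic Y ↔ Nonempty (X ≅ Y) := _root_.Quotient.eq

omit [Preadditive D] [HasZeroObject D] [HasShift D ℤ] [∀ n : ℤ, (shiftFunctor D n).Additive]
  [Pretriangulated D] in
lemma ic_ind {P : IC D → Prop} (h : ∀ X, P (ic X)) (a : IC D) : P a := _root_.Quotient.ind h a

/-- Functions on isomorphism classes. -/
def icLift {α : Sort*} (F : D → α) (h : ∀ {X Y : D}, (X ≅ Y) → F X = F Y) : IC D → α :=
  _root_.Quotient.lift F (fun _ _ ⟨e⟩ => h e)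

/-- Maps of isomorphism classes. -/
def icMap (F : D → D) (h : ∀ {X Y : D}, (X ≅ Y) → Nonempty (F X ≅ F Y)) : IC D → IC D :=
  icLift (fun X => ic (F X)) (fun e => ic_eq.2 (h e))

/-- Permutations of isomorphism classes. -/
def icPerm (F F' : D → D) (h : ∀ {X Y : D}, (X ≅ Y) → Nonempty (F X ≅ F Y))
    (h' : ∀ {X Y : D}, (X ≅ Y) → Nonempty (F' X ≅ F' Y))
    (h1 : ∀ X, Nonempty (F (F' X) ≅ X)) (h2 : ∀ X, Nonempty (F' (F X) ≅ X)) :
    Equiv.Perm (IC D) where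
  toFun := icMap F h
  invFun := icMap F' h'
  left_inv := ic_ind fun X => ic_eq.2 (h2 X)
  right_inv := ic_ind fun X => ic_eq.2 (h1 X)

variable (D) in
/-- The shift. -/
def icS : Equiv.Perm (IC D) :=
  icPerm (fun X => X⟦(1 : ℤ)⟧) (fun X => X⟦(-1 : ℤ)⟧)
    (fun e => ⟨(shiftFunctor D (1 : ℤ)).mapIso e⟩) (fun e => ⟨(shiftFunctor D (-1 : ℤ)).mapIso e⟩)
    (fun X => ⟨(shiftFunctorCompIsoId D (-1 : ℤ) 1 (by simp)).app X⟩)
    (fun X => ⟨(shiftFunctorCompIsoId D (1 : ℤ) (-1) (by simp)).app X⟩)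

/-- Triangles on isomorphism classes. -/
def icDT (z : Prop) (a y b : IC D) : Prop :=
  ∃ X Y Z : D, ic X = a ∧ ic Y = y ∧ ic Z = b ∧ DT z X Y Z

lemma icDT_mk {z : Prop} {X Y Z : D} : icDT z (ic X) (ic Y) (ic Z) ↔ DT z X Y Z := by
  constructor
  · rintro ⟨X', Y', Z', h1, h2, h3, h⟩
    obtain ⟨e1⟩ := ic_eq.1 h1
    obtain ⟨e2⟩ := ic_eq.1 h2
    obtain ⟨e3⟩ := ic_eq.1 h3
    exact h.iso e1 e2 e3
  · exact fun h => ⟨X, Y, Z, rfl, rfl, rfl, h⟩

/-- Dimension of the space of morphisms. -/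
noncomputable def icHom (a b : IC D) : ℕ :=
  _root_.Quotient.lift₂ (s₁ := isIsomorphicSetoid D) (s₂ := isIsomorphicSetoid D)
    (fun X Y : D => finrank k (X ⟶ Y))
    (fun _ _ _ _ ⟨e⟩ ⟨e'⟩ => (Linear.homCongr k e e').finrank_eq) a b

omit [Preadditive D] [HasZeroObject D] [∀ n : ℤ, (shiftFunctor D n).Additive]
  [Pretriangulated D] in
lemma icS_zpow (m : ℤ) (X : D) : (icS D ^ m) (ic X) = ic (X⟦m⟧) := by
  induction m using Int.induction_on with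
  | zero => exact ic_eq.2 ⟨((shiftFunctorZero D ℤ).app X).symm⟩
  | succ n ih =>
    rw [add_comm, zpow_add, zpow_one, Equiv.Perm.mul_apply, ih]
    exact ic_eq.2 ⟨((shiftFunctorAdd' D (n : ℤ) 1 _ (add_comm _ _)).app X).symm⟩
  | pred n ih =>
    rw [sub_eq_neg_add, zpow_add, zpow_neg_one, Equiv.Perm.mul_apply, ih]
    exact ic_eq.2 ⟨((shiftFunctorAdd' D (-n : ℤ) (-1) _ (add_comm _ _)).app X).symm⟩

variable {k} {E : Type} (c : TC k D E) [∀ n : ℤ, (shiftFunctor D n).Linear k]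

/-- Finite classes. -/
def TC.icBd : IC D → Prop := icLift c.Bd (fun e => propext ⟨c.bd_iso e, c.bd_iso e.symm⟩)

lemma TC.les {z : Prop} {A Y B : D} (hA : c.Bd A) (hB : c.Bd B) (h : DT z A Y B) :
    ∃ a b c' : IC D → ℕ, (z → 0 < c' (ic B)) ∧
      ∀ W, c.icBd W → Rk (icHom k) (icS D) (ic A) (ic Y) (ic B) a b c' W := by
  have hY := c.bd_dt _ _ _ h.weak hA hB
  obtain ⟨f, g, h, hT, hz⟩ := h
  refine ⟨icLift (fun W => rk k W f) (fun e => rk_iso k e f),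
    icLift (fun W => rk k W g) (fun e => rk_iso k e g),
    icLift (fun W => rk k W h) (fun e => rk_iso k e h), fun h0 => ?_, ic_ind fun W hW => ?_⟩
  · have := c.fd _ _ hB ((c.bd_s A).2 hA)
    exact rk_pos k h (hz h0)
  · have := c.fd _ _ hW hY
    have := c.fd _ _ hW hB
    have := c.fd _ _ ((c.bd_s W).2 hW) ((c.bd_s A).2 hA)
    exact rk_three k hT W

lemma TC.les' {z : Prop} {A Y B : D} (hA : c.Bd A) (hB : c.Bd B) (h : DT z A Y B) :
    ∃ a b c' : IC D → ℕ, (z → 0 < c' (icS D (ic A))) ∧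
      ∀ W, c.icBd W → Rk' (icHom k) (icS D) (ic A) (ic Y) (ic B) a b c' W := by
  have hY := c.bd_dt _ _ _ h.weak hA hB
  obtain ⟨f, g, h, hT, hz⟩ := h
  refine ⟨icLift (fun W => rk' k W f) (fun e => rk'_iso k e f),
    icLift (fun W => rk' k W g) (fun e => rk'_iso k e g),
    icLift (fun W => rk' k W h) (fun e => rk'_iso k e h), fun h0 => ?_, ic_ind fun W hW => ?_⟩
  · have := c.fd _ _ hB ((c.bd_s A).2 hA)
    exact rk'_pos k h (hz h0)
  · have := c.fd _ _ hY hW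
    have := c.fd _ _ hB hW
    have := c.fd _ _ ((c.bd_s A).2 hA) ((c.bd_s W).2 hW)
    exact rk'_three k hT W

lemma TC.split {A Y B : D} (hA : c.Bd A) (hB : c.Bd B) {f : A ⟶ Y} {g : Y ⟶ B}
    (hT : Triangle.mk f g 0 ∈ distTriang D) :
    icDT False (ic B) (ic Y) (ic A) ∧
      ∀ W, c.icBd W → icHom k W (ic Y) = icHom k W (ic A) + icHom k W (ic B) := by
  have hY : c.Bd Y := c.bd_dt _ _ _ (DT.of_mem hT) hA hB
  refine ⟨icDT_mk.2 (DT.swap hT rfl), ic_ind fun W hW => ?_⟩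
  have := c.fd _ _ hW hY
  have := c.fd _ _ hW hB
  have := c.fd _ _ ((c.bd_s W).2 hW) ((c.bd_s A).2 hA)
  obtain ⟨h1, h2, h3⟩ := rk_three k hT W
  rw [rk_zero] at h2 h3
  change finrank k (W ⟶ Y) = finrank k (W ⟶ A) + finrank k (W ⟶ B)
  omega

/-- The numerical data of a triangulated category. -/
noncomputable def TC.toTG [IsTriangulated D] : TG.{u} E where
  O := IC D
  s := icS D
  g := icPerm c.G c.G' c.G_iso c.G'_iso c.GG' c.G'G
  zero := ic 0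
  Ext := icDT False
  NZ := icDT True
  hom := icHom k
  Bd := c.icBd
  phi e := icMap (c.Φ e) (c.Φ_iso e)
  sg := ic_ind fun X => ic_eq.2 (c.sG X)
  rot := ic_ind fun A => ic_ind fun Y => ic_ind fun B =>
    icDT_mk.trans ((DT.rot A Y B).trans icDT_mk.symm)
  ext_zero := ic_ind fun A => icDT_mk.2 (DT.zero A)
  eq_of_ext_zero := ic_ind fun _ => ic_ind fun _ h => ic_eq.2 (icDT_mk.1 h).iso_of_zero
  assoc := ic_ind fun _ => ic_ind fun _ => ic_ind fun _ => ic_ind fun _ => ic_ind fun _ h h' => by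
    obtain ⟨F, h1, h2⟩ := (icDT_mk.1 h).assoc (icDT_mk.1 h')
    exact ⟨ic F, icDT_mk.2 h1, icDT_mk.2 h2⟩
  sum := ic_ind fun A => ic_ind fun B hA hB =>
    ⟨ic (A ⊞ B), icDT_mk.2 (DT.of_mem (binaryBiproductTriangle_distinguished A B)),
      c.split hA hB (binaryBiproductTriangle_distinguished A B)⟩
  ext_g := ic_ind fun A => ic_ind fun Y => ic_ind fun B => by
    refine icDT_mk.trans (Iff.trans ⟨fun h => ?_, c.G_dt _ _ _⟩ icDT_mk.symm)
    obtain ⟨e1⟩ := c.G'G A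
    obtain ⟨e2⟩ := c.G'G Y
    obtain ⟨e3⟩ := c.G'G B
    exact (c.G'_dt _ _ _ h).iso e1 e2 e3
  hom_s := ic_ind fun A => ic_ind fun B => hom_shift k A B
  hom_g := ic_ind fun A => ic_ind fun B => c.hom_G A B
  hom_zero := ic_ind fun A => by
    have : Subsingleton (A ⟶ 0) := ⟨(isZero_zero D).eq_of_tgt⟩
    exact Module.finrank_zero_of_subsingleton
  bd_zero := c.bd_zero
  bd_s := ic_ind c.bd_s
  bd_g := ic_ind c.bd_G
  bd_ext := ic_ind fun _ => ic_ind fun _ => ic_ind fun _ h => c.bd_dt _ _ _ (icDT_mk.1 h)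
  fac := ic_ind fun A => ic_ind fun _ => ic_ind fun _ => ic_ind fun _ => ic_ind
    fun B' hA hB h0 h h' => by
    have := c.fd A B' hA hB
    have : Subsingleton (A ⟶ B') := Module.finrank_zero_iff.1 h0
    obtain ⟨C, h1, h2⟩ := DT.fac (fun u => Subsingleton.elim u 0) (icDT_mk.1 h) (icDT_mk.1 h')
    exact ⟨ic C, icDT_mk.2 h1, icDT_mk.2 h2⟩
  eq_zero := ic_ind fun A hA h0 => by
    have := c.fd A A hA hA
    have : Subsingleton (A ⟶ A) := Module.finrank_zero_iff.1 h0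
    exact ic_eq.2 ⟨((IsZero.iff_id_eq_zero A).2 (Subsingleton.elim _ _)).isoZero⟩
  nz_ext := ic_ind fun _ => ic_ind fun _ => ic_ind fun _ h => icDT_mk.2 (icDT_mk.1 h).weak
  dich := ic_ind fun A => ic_ind fun Y => ic_ind fun B hA hB h => by
    obtain ⟨f, g, h, hT, -⟩ := icDT_mk.1 h
    by_cases h0 : h = 0
    · subst h0
      exact Or.inl (c.split hA hB hT)
    · exact Or.inr (icDT_mk.2 ⟨f, g, h, hT, fun _ => h0⟩)
  cone := ic_ind fun A => ic_ind fun B h0 => by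
    have : ∃ h : B ⟶ A⟦(1 : ℤ)⟧, h ≠ 0 := by
      by_contra hc
      push Not at hc
      have : Subsingleton (B ⟶ A⟦(1 : ℤ)⟧) := ⟨fun x y => by rw [hc x, hc y]⟩
      exact h0 Module.finrank_zero_of_subsingleton
    obtain ⟨h, hh⟩ := this
    obtain ⟨Y, hY⟩ := DT.cone h hh
    exact ⟨ic Y, icDT_mk.2 hY⟩
  les := ic_ind fun _ => ic_ind fun _ => ic_ind fun _ hA hB h => by
    obtain ⟨a, b, c', -, h2⟩ := c.les hA hB (icDT_mk.1 h)
    exact ⟨a, b, c', h2⟩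
  les' := ic_ind fun _ => ic_ind fun _ => ic_ind fun _ hA hB h => by
    obtain ⟨a, b, c', -, h2⟩ := c.les' hA hB (icDT_mk.1 h)
    exact ⟨a, b, c', h2⟩
  les_nz := ic_ind fun _ => ic_ind fun _ => ic_ind fun _ hA hB h => by
    obtain ⟨a, b, c', h1, h2⟩ := c.les hA hB (icDT_mk.1 h)
    exact ⟨a, b, c', h1 trivial, h2⟩
  les_nz' := ic_ind fun _ => ic_ind fun _ => ic_ind fun _ hA hB h => by
    obtain ⟨a, b, c', h1, h2⟩ := c.les' hA hB (icDT_mk.1 h)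
    exact ⟨a, b, c', h1 trivial, h2⟩
  serre := ic_ind fun A => ic_ind fun B => c.serre A B
  phi_ext e := ic_ind fun _ => ic_ind fun _ => ic_ind fun _ h =>
    icDT_mk.2 (c.Φ_dt e _ _ _ (icDT_mk.1 h))
  phi_g e := ic_ind fun A => ic_eq.2 (c.ΦG e A)
  phi_bd e := ic_ind (c.Φ_bd e)
  phi_le e := ic_ind fun A => ic_ind fun B => c.Φ_le e A B

end Pool.Agent.HM
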