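import Mathlib

set_option autoImplicit false

/-!
Numerical data of the graded zigzag category (`GD`) and of its 2-Calabi-Yau orbit (`RD`).
Objects are isomorphism classes, `Ext A Y B` means that there is a distinguished triangle
`A -> Y -> B -> A[1]`, `NZ A Y B` that there is one with non zero third map, `hom` is the
dimension of the space of morphisms.
-/

namespace Pool.Agent.HM

universe u

/-- Ranks in the long exact sequence of `Hom(W, -)`. -/
def Rk {O : Type u} (hom : O → O → ℕ) (s : O → O) (A Y B : O) (a b c : O → ℕ) (W : O) : Prop :=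
  hom W Y = a W + b W ∧ hom W B = b W + c W ∧ hom W A = c (s W) + a W

/-- Ranks in the long exact sequence of `Hom(-, W)`. -/
def Rk' {O : Type u} (hom : O → O → ℕ) (s : O → O) (A Y B : O) (a b c : O → ℕ) (W : O) : Prop :=
  hom Y W = a W + b W ∧ hom B W = b W + c W ∧ hom A W = c (s W) + a W

/-- Extension closure of a class of objects. -/
inductive Clo {O : Type u} (zero : O) (Ext : O → O → O → Prop) (X : Set O) : O → Prop
  | zero : Clo zero Ext X zero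
  | cons {A Y B : O} : A ∈ X → Ext A Y B → Clo zero Ext X B → Clo zero Ext X Y

/-- Iterated extension of the members of a list. -/
inductive Flt {O : Type u} (zero : O) (Ext : O → O → O → Prop) : List O → O → Prop
  | nil : Flt zero Ext [] zero
  | cons {A Y B : O} {l : List O} : Ext A Y B → Flt zero Ext l B → Flt zero Ext (A :: l) Y

/-- Isomorphism classes of a triangulated category with automorphism `g`, endofunctor `phi`
and a class `Bd` of finite objects on which `g ∘ g` is a Serre functor. -/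
structure TG (E : Type) where
  O : Type u
  s : Equiv.Perm O
  g : Equiv.Perm O
  zero : O
  Ext : O → O → O → Prop
  NZ : O → O → O → Prop
  hom : O → O → ℕ
  Bd : O → Prop
  phi : E → O → O
  sg : ∀ A, s (g A) = g (s A)
  rot : ∀ A Y B, Ext A Y B ↔ Ext Y B (s A)
  ext_zero : ∀ A, Ext zero A A
  eq_of_ext_zero : ∀ Y B, Ext zero Y B → Y = B
  assoc : ∀ A Y B C E, Ext A Y B → Ext C A E → ∃ F, Ext C Y F ∧ Ext E F B
  sum : ∀ A B, Bd A → Bd B →
    ∃ Y, Ext A Y B ∧ Ext B Y A ∧ ∀ W, Bd W → hom W Y = hom W A + hom W B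
  ext_g : ∀ A Y B, Ext (g A) (g Y) (g B) ↔ Ext A Y B
  hom_s : ∀ A B, hom (s A) (s B) = hom A B
  hom_g : ∀ A B, hom (g A) (g B) = hom A B
  hom_zero : ∀ A, hom A zero = 0
  bd_zero : Bd zero
  bd_s : ∀ A, Bd (s A) ↔ Bd A
  bd_g : ∀ A, Bd (g A) ↔ Bd A
  bd_ext : ∀ A Y B, Ext A Y B → Bd A → Bd B → Bd Y
  fac : ∀ A Y B A' B', Bd A → Bd B' → hom A B' = 0 → Ext A Y B → Ext A' Y B' →
    ∃ C, Ext A' C (s A) ∧ Ext C B B'
  eq_zero : ∀ A, Bd A → hom A A = 0 → A = zero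
  nz_ext : ∀ A Y B, NZ A Y B → Ext A Y B
  dich : ∀ A Y B, Bd A → Bd B → Ext A Y B →
    (Ext B Y A ∧ ∀ W, Bd W → hom W Y = hom W A + hom W B) ∨ NZ A Y B
  cone : ∀ A B, hom B (s A) ≠ 0 → ∃ Y, NZ A Y B
  les : ∀ A Y B, Bd A → Bd B → Ext A Y B → ∃ a b c, ∀ W, Bd W → Rk hom s A Y B a b c W
  les' : ∀ A Y B, Bd A → Bd B → Ext A Y B → ∃ a b c, ∀ W, Bd W → Rk' hom s A Y B a b c W
  les_nz : ∀ A Y B, Bd A → Bd B → NZ A Y B →
    ∃ a b c, 0 < c B ∧ ∀ W, Bd W → Rk hom s A Y B a b c W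
  les_nz' : ∀ A Y B, Bd A → Bd B → NZ A Y B →
    ∃ a b c, 0 < c (s A) ∧ ∀ W, Bd W → Rk' hom s A Y B a b c W
  serre : ∀ A B, Bd A → Bd B → hom A B ≤ hom B (g (g A))
  phi_ext : ∀ e A Y B, Ext A Y B → Ext (phi e A) (phi e Y) (phi e B)
  phi_g : ∀ e A, phi e (g A) = g (phi e A)
  phi_bd : ∀ e A, Bd A → Bd (phi e A)
  phi_le : ∀ e A B, Bd A → Bd B → hom (phi e A) B ≤ hom A (phi e B)

open Classical in
/-- Dimensions of the graded pieces of the zigzag algebra of a graph. -/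
noncomputable def tab {V : Type} (adj : V → V → Prop) (v w : V) (n : ℤ) : ℕ :=
  if ((n = 0 ∨ n = 2) ∧ v = w) ∨ (n = 1 ∧ adj v w) then 1 else 0

open Classical in
/-- Graded data with generators `P v` and framing objects `Q v`. -/
structure GD (V E : Type) (adj : V → V → Prop) (N : E → V → V → Prop) extends TG.{u} E where
  P : V → O
  Q : V → O
  bd_P : ∀ v, Bd (P v)
  bd_Q : ∀ v, Bd (Q v)
  hom_P : ∀ v w (m n : ℤ),
    hom (P v) ((s ^ m) ((g ^ n) (P w))) = if m = 0 then tab adj v w n else 0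
  hom_Q : ∀ v w (m n : ℤ),
    hom (Q v) ((s ^ m) ((g ^ n) (P w))) = if m = 0 ∧ n = 1 ∧ v = w then 1 else 0
  phi_P : ∀ e v, ∃ l : List V, l.Nodup ∧ (∀ w, w ∈ l ↔ N e v w) ∧
    Flt zero Ext (l.map P) (phi e (P v))

open Classical in
/-- The Cartan form of a graph. -/
noncomputable def cartan {V : Type} [Fintype V] (adj : V → V → Prop) (x y : V → ℤ) : ℤ :=
  ∑ v, ∑ w, x v * y w * ((if v = w then 2 else 0) - (if adj v w then 1 else 0))

open Classical in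
/-- Numerical 2-Calabi-Yau data generated by a configuration `P` of spherical objects, with a
self adjoint endofunctor `phi`. -/
structure RD (V E : Type) [Fintype V] (adj : V → V → Prop) (N : E → V → V → Prop) where
  Obj : Type u
  s : Equiv.Perm Obj
  zero : Obj
  Ext : Obj → Obj → Obj → Prop
  NZ : Obj → Obj → Obj → Prop
  hom : Obj → Obj → ℕ
  cl : Obj → V → ℤ
  phi : E → Obj → Obj
  P : V → Obj
  rot : ∀ A Y B, Ext A Y B ↔ Ext Y B (s A)
  ext_zero : ∀ A, Ext zero A A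
  eq_of_ext_zero : ∀ Y B, Ext zero Y B → Y = B
  assoc : ∀ A Y B C E, Ext A Y B → Ext C A E → ∃ F, Ext C Y F ∧ Ext E F B
  fac : ∀ A Y B A' B', hom A B' = 0 → Ext A Y B → Ext A' Y B' →
    ∃ C, Ext A' C (s A) ∧ Ext C B B'
  hom_s : ∀ A B, hom (s A) (s B) = hom A B
  eq_zero : ∀ A, hom A A = 0 → A = zero
  hom_zero : ∀ A, hom A zero = 0
  cy : ∀ A B, hom A B = hom B (s (s A))
  sum : ∀ A B, ∃ Y, Ext A Y B ∧ Ext B Y A ∧ ∀ W, hom W Y = hom W A + hom W B
  nz_ext : ∀ A Y B, NZ A Y B → Ext A Y B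
  dich : ∀ A Y B, Ext A Y B → (Ext B Y A ∧ ∀ W, hom W Y = hom W A + hom W B) ∨ NZ A Y B
  cone : ∀ A B, hom B (s A) ≠ 0 → ∃ Y, NZ A Y B
  les : ∀ A Y B, Ext A Y B → ∃ a b c, ∀ W, Rk hom s A Y B a b c W
  les' : ∀ A Y B, Ext A Y B → ∃ a b c, ∀ W, Rk' hom s A Y B a b c W
  les_nz : ∀ A Y B, NZ A Y B → ∃ a b c, 0 < c B ∧ ∀ W, Rk hom s A Y B a b c W
  les_nz' : ∀ A Y B, NZ A Y B → ∃ a b c, 0 < c (s A) ∧ ∀ W, Rk' hom s A Y B a b c W
  fin : ∀ A B, {n : ℤ | hom A ((s ^ n) B) ≠ 0}.Finite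
  cl_ext : ∀ A Y B, Ext A Y B → cl Y = cl A + cl B
  euler : ∀ A B, cartan adj (cl A) (cl B) =
    ∑ᶠ n : ℤ, ((n.negOnePow : ℤˣ) : ℤ) * (hom A ((s ^ n) B) : ℤ)
  hom_P : ∀ v w (n : ℤ), hom (P v) ((s ^ n) (P w)) = tab adj v w n
  cl_P : ∀ v, cl (P v) = Pi.single v 1
  gen : ∀ X, Clo zero Ext {A | ∃ (n : ℤ) (v : V), A = (s ^ n) (P v)} X
  phi_ext : ∀ e A Y B, Ext A Y B → Ext (phi e A) (phi e Y) (phi e B)
  phi_adj : ∀ e A B, hom (phi e A) B = hom A (phi e B)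
  phi_P : ∀ e v, ∃ l : List V, l.Nodup ∧ (∀ w, w ∈ l ↔ N e v w) ∧
    Flt zero Ext (l.map P) (phi e (P v))
  phi_cl : ∀ e A w, cl (phi e A) w = ∑ v, if N e v w then cl A v else 0

/-- Block (b): the orbit construction. -/
def OrbitStmt : Prop :=
  ∀ (V E : Type) [Fintype V] (adj : V → V → Prop) (N : E → V → V → Prop), (∀ v, ¬ adj v v) →
    (∀ v w, adj v w → adj w v) →
    Nonempty (GD.{1} V E adj N) → Nonempty (RD.{1} V E adj N)

/-- Simple objects of Ising (0 = 1, 1 = sigma, 2 = psi) times Fibonacci (0 = 1, 1 = tau). -/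
abbrev Irr : Type := Fin 3 × Fin 2

/-- Fusion with sigma (`true`) and tau (`false`). -/
def fus (e : Bool) (a b : Irr) : Prop :=
  if e then a.2 = b.2 ∧ (a.1 = 1 ∨ b.1 = 1) ∧ a.1 ≠ b.1 else a.1 = b.1 ∧ (a.2 = 1 ∨ b.2 = 1)

/-- Edges between `(s, a)` and `(t, b)` when the label of `s, t` is `m`. -/
def lab (m : ℕ) (a b : Irr) : Prop :=
  (m = 3 ∧ a = b) ∨ (m = 4 ∧ fus true a b) ∨ (m = 5 ∧ fus false a b)

/-- The unfolded graph. -/
def adjU {S : Type} (m : S → S → ℕ) (x y : S × Irr) : Prop := x.1 ≠ y.1 ∧ lab (m x.1 y.1) x.2 y.2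

/-- Fusion inside a fibre. -/
def fusU {S : Type} (e : Bool) (x y : S × Irr) : Prop := x.1 = y.1 ∧ fus e x.2 y.2

/-- Blocks (a) and (c): the graded zigzag category. -/
def GradedStmt : Prop :=
  ∀ (S : Type) (m : S → S → ℕ), (∀ s t, m s t = m t s) →
    Nonempty (GD.{1} (S × Irr) Bool (adjU m) fusU)

end Pool.Agent.HM
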