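import Pool.Agent.Lib.MP_6d85b4_al.HM.Final

set_option autoImplicit false

/-! Two more properties of the model: the fusion functors are faithful, and a vanishing criterion
which uses composition of morphisms. -/

namespace Pool.Agent.HM

open CategoryTheory Limits Pretriangulated ZeroObject Module

universe v u

section

variable {D : Type u} [Category.{v} D] [Preadditive D]
  [HasZeroObject D] [HasShift D ℤ] [∀ n : ℤ, (shiftFunctor D n).Additive] [Pretriangulated D]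

lemma DT.comp {K P A X Z Z' W Y : D} (h1 : DT False K P A) (h2 : DT False P X Z)
    (h3 : DT False Z' W Y) (a : ∀ u : K⟦(1 : ℤ)⟧ ⟶ Y, u = 0) (b : ∀ u : Z ⟶ A⟦(1 : ℤ)⟧, u = 0)
    (c : ∀ u : A ⟶ Z'⟦(1 : ℤ)⟧, u = 0) (d : ∀ u : X ⟶ W, u = 0) (f : A ⟶ Y) : f = 0 := by
  obtain ⟨k, p, r, T1, -⟩ := h1
  obtain ⟨i, j, l, T2, -⟩ := h2
  obtain ⟨z, w, y, T3, -⟩ := h3
  obtain ⟨g, hg⟩ : ∃ g : A ⟶ W, f = g ≫ w := Triangle.coyoneda_exact₃ _ T3 f (c _)
  obtain ⟨q, hq⟩ : ∃ q : X⟦(1 : ℤ)⟧ ⟶ A⟦(1 : ℤ)⟧, p⟦(1 : ℤ)⟧' = (-i⟦(1 : ℤ)⟧') ≫ q :=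
    Triangle.yoneda_exact₂ _ (rot_of_distTriang _ (rot_of_distTriang _ T2)) (p⟦(1 : ℤ)⟧') (b _)
  have e1 : p ≫ g = 0 := by
    apply (shiftFunctor D (1 : ℤ)).map_injective
    obtain ⟨t, ht⟩ := (shiftFunctor D (1 : ℤ)).map_surjective (q ≫ g⟦(1 : ℤ)⟧')
    rw [Functor.map_comp, Functor.map_zero, hq, Category.assoc, ← ht, d t, Functor.map_zero,
      comp_zero]
  have e2 : p ≫ f = 0 := by rw [hg, ← Category.assoc, e1, zero_comp]
  obtain ⟨t, ht⟩ : ∃ t : K⟦(1 : ℤ)⟧ ⟶ Y, f = r ≫ t := Triangle.yoneda_exact₃ _ T1 f e2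
  rw [ht, a t, comp_zero]

end

/-- The composition criterion. -/
def CompP {O : Type u} (Bd : O → Prop) (s : O → O) (Ext : O → O → O → Prop) (hom : O → O → ℕ) :
    Prop :=
  ∀ K P A X Z Z' W Y, Bd K → Bd A → Bd Z → Bd Z' → Bd Y → Ext K P A → Ext P X Z → Ext Z' W Y →
    hom (s K) Y = 0 → hom Z (s A) = 0 → hom A (s Z') = 0 → hom X W = 0 → hom A Y = 0

section

variable {k : Type} [Field k] {D : Type u} [Category.{v} D] [Preadditive D] [Linear k D]
  [HasZeroObject D] [HasShift D ℤ] [∀ n : ℤ, (shiftFunctor D n).Additive] [Pretriangulated D]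
  {E : Type} (c : TC k D E) [∀ n : ℤ, (shiftFunctor D n).Linear k]

omit [∀ n : ℤ, (shiftFunctor D n).Linear k] in
lemma TC.all_zero {X Y : D} (hX : c.Bd X) (hY : c.Bd Y) (h : finrank k (X ⟶ Y) = 0)
    (u : X ⟶ Y) : u = 0 := by
  have := c.fd X Y hX hY
  have : Subsingleton (X ⟶ Y) := Module.finrank_zero_iff.1 h
  exact Subsingleton.elim _ _

lemma TC.comp [IsTriangulated D] : CompP c.toTG.Bd c.toTG.s c.toTG.Ext c.toTG.hom := by
  refine ic_ind fun K => ic_ind fun P => ic_ind fun A => ic_ind fun X => ic_ind fun Z =>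
    ic_ind fun Z' => ic_ind fun W => ic_ind fun Y => ?_
  intro bK bA bZ bZ' bY h1 h2 h3 a b c' d
  replace h1 := icDT_mk.1 h1
  replace h2 := icDT_mk.1 h2
  replace h3 := icDT_mk.1 h3
  have bX : c.Bd X := c.bd_dt _ _ _ h2 (c.bd_dt _ _ _ h1 bK bA) bZ
  have bW : c.Bd W := c.bd_dt _ _ _ h3 bZ' bY
  have h := DT.comp h1 h2 h3 (c.all_zero ((c.bd_s K).2 bK) bY a)
    (c.all_zero bZ ((c.bd_s A).2 bA) b) (c.all_zero bA ((c.bd_s Z').2 bZ') c')
    (c.all_zero bX bW d)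
  have : Subsingleton (A ⟶ Y) := ⟨fun x y => by rw [h x, h y]⟩
  exact Module.finrank_zero_of_subsingleton

end

section

variable {k : Type} [Field k] {C : Type u} [Category.{0} C] [Preadditive C] [Linear k C]

/-- The counit after the unit is a non zero scalar. -/
def GC.Fn.Dim {g : GC k C} (F : g.Fn) : Prop :=
  ∃ d : k, d ≠ 0 ∧ ∀ X : C, F.η.app X ≫ F.ε.app X = d • 𝟙 X

lemma fn_faith {g : GC k C} (F : g.Fn) (hF : F.Dim) (a b : KC C)
    [Module.Finite k ((MH F.R).obj a ⟶ (MH F.R).obj b)] :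
    finrank k (a ⟶ b) ≤ finrank k ((MH F.R).obj a ⟶ (MH F.R).obj b) := by
  obtain ⟨d, hd, hF⟩ := hF
  obtain ⟨X, rfl⟩ := a.quotient_obj_surjective
  obtain ⟨Y, rfl⟩ := b.quotient_obj_surjective
  let η : X ⟶ (MC F.R).obj ((MC F.R).obj X) := (NatTrans.mapHomologicalComplex F.η _).app X
  let ε : (MC F.R).obj ((MC F.R).obj Y) ⟶ Y := (NatTrans.mapHomologicalComplex F.ε _).app Y
  have key : ∀ f : X ⟶ Y, η ≫ (MC F.R).map ((MC F.R).map f) ≫ ε = d • f := by
    intro f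
    ext p
    change F.η.app (X.X p) ≫ F.R.map (F.R.map (f.f p)) ≫ F.ε.app (Y.X p) = d • f.f p
    have h1 : F.R.map (F.R.map (f.f p)) ≫ F.ε.app (Y.X p) =
      F.ε.app (X.X p) ≫ f.f p := F.ε.naturality (f.f p)
    refine (congrArg (fun x => F.η.app (X.X p) ≫ x) h1).trans
      (((Category.assoc _ _ _).symm.trans (congrArg (· ≫ f.f p) (hF (X.X p)))).trans ?_)
    simp
  let η' : (QK C).obj X ⟶ (MH F.R).obj ((MH F.R).obj ((QK C).obj X)) := (QK C).map η
  let ε' : (MH F.R).obj ((MH F.R).obj ((QK C).obj Y)) ⟶ (QK C).obj Y := (QK C).map ε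
  refine LinearMap.finrank_le_finrank_of_injective (f := (MH F.R).mapLinearMap k)
    ((injective_iff_map_eq_zero _).2 fun f hf => ?_)
  have h2 : η' ≫ (MH F.R).map ((MH F.R).map f) ≫ ε' = d • f := by
    obtain ⟨f, rfl⟩ := (QK C).map_surjective f
    exact (congrArg (QK C).map (key f)).trans ((QK C).map_smul d f)
  have h3 : (MH F.R).map f = 0 := hf
  rw [h3, Functor.map_zero, zero_comp, comp_zero] at h2
  exact (smul_eq_zero.1 h2.symm).resolve_left hd

end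

lemma RF.dim {k : Type} [Field k] {T F : Type} [Fintype F] [DecidableEq F] {Z : ZD k (T × F)}
    (W : RF Z) (d : k) (hd : d ≠ 0)
    (h : ∀ g, (∑ a, if W.ρ g a then W.η g a * W.ε g a else 0) = d) : W.fn.Dim := by
  refine ⟨d, hd, fun X => ?_⟩
  change W.unit X ≫ W.counit X = _
  ext i j
  rw [ZC.mat_smul, ZC.mat_id]
  by_cases e : i = j
  · subst e
    rw [if_pos rfl, mul_one, ← h (X.v i).1.2,
      ← W.sum_rr X i (fun _ a _ => W.η (X.v i).1.2 a * W.ε (X.v i).1.2 a), ZC.mat_comp]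
    refine Finset.sum_congr rfl fun q _ => ?_
    rw [RF.mat_unit, RF.mat_counit]
    split_ifs with h'
    · rw [ZD.mu_dl _ (by rw [W.ok_rr X q i h']), mul_one]
    · simp
  · rw [if_neg e, mul_zero, ZC.mat_comp]
    refine Finset.sum_eq_zero fun q _ => ?_
    rw [RF.mat_unit, RF.mat_counit]
    by_cases h' : i = q.1.1.1.1
    · rw [if_neg (c := j = _ ∧ _) (fun h'' => e (h'.trans h''.1.symm))]; simp
    · rw [if_neg (c := i = _ ∧ _) (fun h'' => h' h''.1)]; simp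

lemma lamE_dim : ∀ e g, (∑ a, if fus e g a then lamE e g a * lamE e g a else 0) =
    if e then 8 else 19 := by decide +kernel

lemma dim_ne : ∀ e : Bool, (if e then 8 else 19 : ZMod 31) ≠ 0 := by decide +kernel

/-- Faithfulness on dimensions. -/
def FaithP {O : Type u} {E : Type} (Bd : O → Prop) (phi : E → O → O) (hom : O → O → ℕ) : Prop :=
  ∀ e A B, Bd A → Bd B → hom A B ≤ hom (phi e A) (phi e B)

theorem cStmt2 (S : Type) (m : S → S → ℕ) (hm : ∀ s t, m s t = m t s) :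
    ∃ c : CD (ZMod 31) (ZC (zd (frL m) (frL_symm hm))) (S × Irr) Bool (adjU m) fusU,
      ∀ e, (c.F e).Dim := by
  classical
  let Z := zd (frL m) (frL_symm hm)
  refine ⟨{
      g := ZC.gc Z
      F := fun e => (rf (frL m) (frL_symm hm) e).fn
      P := fun v => ZC.pt Z ((Sum.inl v.1, v.2), 0)
      Q := fun v => ZC.pt Z ((Sum.inr v.1, v.2), 0)
      hom_P := ?_
      hom_Q := ?_
      R_P := ?_ }, fun e => RF.dim _ _ (dim_ne e) (lamE_dim e)⟩
  · intro v w n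
    refine (ZC.finrank_pt (Z := Z) ((Sum.inl v.1, v.2), 0)
      (ZD.sv n ((Sum.inl w.1, w.2), 0))).trans ?_
    have e : Z.ok ((Sum.inl v.1, v.2), 0) (ZD.sv n ((Sum.inl w.1, w.2), 0)) ↔
        (((n = 0 ∨ n = 2) ∧ v = w) ∨ (n = 1 ∧ adjU m v w)) := by
      have e1 : Z.lam (Sum.inl v.1, v.2) (Sum.inl w.1, w.2) ≠ 0 ↔ adjU m v w := by
        change lamL (if v.1 = w.1 then 0 else cls (m v.1 w.1)) v.2 w.2 ≠ 0 ↔ _
        unfold adjU
        by_cases h : v.1 = w.1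
        · simp [h, lamL_zero]
        · rw [if_neg h, lamL_cls]; simp [h]
      have e2 : ((Sum.inl v.1, v.2) : (S ⊕ S) × Irr) = (Sum.inl w.1, w.2) ↔ v = w := by
        simp [Prod.ext_iff]
      simp only [ZD.ok, ZD.sv, e1, e2, zero_add]
      tauto
    unfold tab
    by_cases h : ((n = 0 ∨ n = 2) ∧ v = w) ∨ (n = 1 ∧ adjU m v w)
    · rw [if_pos (e.2 h), if_pos h]
    · rw [if_neg (fun h' => h (e.1 h')), if_neg h]
  · intro v w n
    refine (ZC.finrank_pt (Z := Z) ((Sum.inr v.1, v.2), 0)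
      (ZD.sv n ((Sum.inl w.1, w.2), 0))).trans ?_
    have e : Z.ok ((Sum.inr v.1, v.2), 0) (ZD.sv n ((Sum.inl w.1, w.2), 0)) ↔
        (n = 1 ∧ v = w) := by
      have e1 : Z.lam (Sum.inr v.1, v.2) (Sum.inl w.1, w.2) ≠ 0 ↔ v = w := by
        change lamL (if v.1 = w.1 then 1 else 0) v.2 w.2 ≠ 0 ↔ _
        by_cases h : v.1 = w.1
        · rw [if_pos h, lamL_one]; simp [Prod.ext_iff, h]
        · rw [if_neg h]; simp [lamL_zero, Prod.ext_iff, h]
      simp [ZD.ok, ZD.sv, e1]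
    by_cases h : n = 1 ∧ v = w
    · rw [if_pos (e.2 h), if_pos h]
    · rw [if_neg (fun h' => h (e.1 h')), if_neg h]
  · intro e v
    let s : Finset (S × Irr) := (Finset.univ.filter (fus e v.2)).image (fun a => (v.1, a))
    have hs : ∀ w, w ∈ s.toList ↔ fusU e v w := by
      intro w
      simp only [s, Finset.mem_toList, Finset.mem_image, Finset.mem_filter, Finset.mem_univ,
        true_and, fusU]
      constructor
      · rintro ⟨a, ha, rfl⟩; exact ⟨rfl, ha⟩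
      · rintro ⟨h1, h2⟩; exact ⟨w.2, h2, Prod.ext h1 rfl⟩
    refine ⟨s.toList, s.nodup_toList, hs, ?_⟩
    refine ZC.iso_lsum (Z := Z) (fun w : S × Irr => ((Sum.inl w.1, w.2), 0)) _ s.nodup_toList _
      { toFun := fun p => ⟨(v.1, p.1.2), (hs _).2 ⟨rfl, p.2⟩⟩
        invFun := fun w => ⟨((), w.1.2), ((hs _).1 w.2).2⟩
        left_inv := fun p => rfl
        right_inv := fun w => Subtype.ext (Prod.ext ((hs _).1 w.2).1 rfl) } (fun _ => rfl)

theorem aStmt2 {k : Type} [Field k] {C : Type 1} [Category.{0} C] [Preadditive C] [Linear k C]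
    [HasZeroObject C] [HasBinaryBiproducts C] {V E : Type} {adj : V → V → Prop}
    {N : E → V → V → Prop} (c : CD k C V E adj N) (hc : ∀ e, (c.F e).Dim) :
    ∃ T : GD.{1} V E adj N, CompP T.Bd T.s T.Ext T.hom ∧ FaithP T.Bd T.phi T.hom := by
  refine ⟨{
    toTG := (toTC c.g c.F).toTG
    P := fun v => ic ((SK C).obj (c.P v))
    Q := fun v => ic ((SK C).obj (c.Q v))
    bd_P := fun v => good_single _
    bd_Q := fun v => good_single _
    hom_P := fun v w m n => by rw [hom_gen, c.hom_P]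
    hom_Q := fun v w m n => by
      rw [hom_gen, c.hom_Q]
      by_cases hm : m = 0
      · rw [if_pos hm]
        by_cases h : n = 1 ∧ v = w
        · rw [if_pos h, if_pos ⟨hm, h⟩]
        · rw [if_neg h, if_neg fun h' => h h'.2]
      · simp [hm]
    phi_P := fun e v => ?_ }, TC.comp _, fun e => ic_ind fun A => ic_ind fun B hA _ => ?_⟩
  · obtain ⟨l, h1, h2, ⟨i⟩⟩ := c.R_P e v
    refine ⟨l, h1, h2, ?_⟩
    obtain ⟨j⟩ := mh_single (c.F e).R (c.P v)
    have h3 := flt_lsum (l.map c.P)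
    rw [List.map_map, ← ic_eq.2 ⟨j ≪≫ (SK C).mapIso i⟩] at h3
    exact h3
  · have := (Good.map (c.F e).R hA).fd c.g.fd ((MH (c.F e).R).obj B)
    exact fn_faith (c.F e) (hc e) A B

namespace GD

open TG

variable {V E : Type} {adj : V → V → Prop} {N : E → V → V → Prop} {T : GD.{u} V E adj N}

lemma hom_of_hT {A B : T.O} (a : T.Gen A) (b : T.Gen B) (h : T.hT A B = 0) (j : ℤ) :
    T.hom A (T.sh (-j) j B) = 0 :=
  Nat.le_zero.1 ((fsum_le (a.fs b).r j).trans (le_of_eq h))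

lemma rd_comp [Fintype V] (h : CompP T.Bd T.s T.Ext T.hom) :
    CompP (fun _ => True) T.rd.s T.rd.Ext T.rd.hom := by
  rintro _ _ _ X' Z0 _ _ _ - - - - - ⟨K, k, P, p, A, a, rfl, rfl, rfl, h1⟩ h2
    ⟨Z', z', W, w, Y, y, rfl, rfl, rfl, h3⟩ e1 e2 e3 e4
  obtain ⟨X, x, Z, z, rfl, rfl, k2⟩ := ext_left h2
  replace e1 : T.hT (T.s K) Y = 0 := by
    have : T.hO (T.sO (ob K k)) (ob Y y) = 0 := e1
    rwa [sO_mk] at this
  replace e2 : T.hT Z (T.s A) = 0 := by
    have : T.hO (ob Z z) (T.sO (ob A a)) = 0 := e2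
    rwa [sO_mk] at this
  replace e3 : T.hT A (T.s Z') = 0 := by
    have : T.hO (ob A a) (T.sO (ob Z' z')) = 0 := e3
    rwa [sO_mk] at this
  replace e4 : T.hT X W = 0 := e4
  change T.hT A Y = 0
  refine finsum_eq_zero_of_forall_eq_zero fun j => ?_
  refine h K P A X Z (T.sh (-j) j Z') (T.sh (-j) j W) _ k.bd a.bd z.bd (T.bd_sh _ _ z'.bd)
    (T.bd_sh _ _ y.bd) h1 k2 ((T.ext_sh _ _).2 h3) (hom_of_hT k.s y e1 j) ?_ ?_
    (hom_of_hT x w e4 j)
  · simpa using hom_of_hT z a.s e2 0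
  · have := hom_of_hT a z'.s e3 j
    rwa [← T.sh_10, T.sh_sh, add_comm (-j), add_comm j, ← T.sh_sh, T.sh_10] at this

lemma rd_faith [Fintype V] (h : FaithP T.Bd T.phi T.hom) :
    FaithP (fun _ => True) T.rd.phi T.rd.hom := by
  intro e
  refine Ob.ind fun A a => Ob.ind fun B b _ _ => ?_
  change T.hT A B ≤ T.hT (T.phi e A) (T.phi e B)
  refine finsum_le_finsum' (a.fs b).r ((a.phi e).fs (b.phi e)).r fun j => ?_
  have := h e A _ a.bd (T.bd_sh (-j) j b.bd)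
  rwa [T.phi_sh] at this

end GD

/-- The model with two more properties. -/
structure Model2 {S : Type} [Fintype S] [DecidableEq S] (m : S → S → ℕ) extends HT.Model m where
  Phi_le : ∀ e A B, D.hom A B ≤ D.hom (Phi e A) (Phi e B)
  Phi_adj_eq : ∀ e A B, D.hom (Phi e A) B = D.hom A (Phi e B)
  comp : ∀ K P A X Z Z' W Y, D.Ext K P A → D.Ext P X Z → D.Ext Z' W Y →
    D.hom (D.s K) Y = 0 → D.hom Z (D.s A) = 0 → D.hom A (D.s Z') = 0 → D.hom X W = 0 →
    D.hom A Y = 0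

lemma Model2.Phi_faith {S : Type} [Fintype S] [DecidableEq S] {m : S → S → ℕ} (M : Model2 m)
    (e : Bool) (A B : M.D.Obj) (h : M.D.hom (M.Phi e A) (M.Phi e B) = 0) : M.D.hom A B = 0 :=
  Nat.le_zero.1 ((M.Phi_le e A B).trans (le_of_eq h))

theorem model2 (S : Type) [Fintype S] [DecidableEq S] (m : S → S → ℕ) (hm : ∀ s t, m s t = m t s) :
    Nonempty (Model2 m) := by
  obtain ⟨c, hc⟩ := cStmt2 S m hm
  obtain ⟨T, h1, h2⟩ := aStmt2 c hc
  exact ⟨{
    toModel := T.rd.model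
    Phi_le := fun e A B => GD.rd_faith h2 e A B trivial trivial
    Phi_adj_eq := T.rd.phi_adj
    comp := fun K P A X Z Z' W Y =>
      GD.rd_comp h1 K P A X Z Z' W Y trivial trivial trivial trivial trivial }⟩

end Pool.Agent.HM
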