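import Pool.Agent.Lib.MP_6d85b4_al.HM.GC

set_option autoImplicit false

/-!
Interfaces for the ungraded 2-Calabi-Yau model (periodic complexes over dual numbers).
-/

namespace Pool.Agent.HM

open CategoryTheory Limits Module

universe u

section

variable (k : Type) [Field k] (C : Type u) [Category.{0} C] [Preadditive C] [Linear k C]

/-- An additive category with a translation and a skew trace in degree two. -/
structure GT where
  T : C ⥤ C
  add : T.Additive
  lin : T.Linear k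
  full : T.Full
  faithful : T.Faithful
  fd : ∀ X Y : C, Module.Finite k (X ⟶ Y)
  tr : ∀ X : C, (X ⟶ T.obj (T.obj X)) →ₗ[k] k
  cyc : ∀ (X Y : C) (u : X ⟶ Y) (v : Y ⟶ T.obj (T.obj X)),
    tr X (u ≫ v) = tr Y (v ≫ T.map (T.map u))
  nd : ∀ (X Y : C) (v : Y ⟶ T.obj (T.obj X)), (∀ u : X ⟶ Y, tr X (u ≫ v) = 0) → v = 0
  anti : ∀ (X : C) (u : X ⟶ T.obj (T.obj X)), tr (T.obj X) (T.map u) = - tr X u

attribute [instance] GT.add GT.lin GT.full GT.faithful

variable {k C}

/-- An additive endofunctor commuting with the translation, with unit and counit. -/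
structure GT.Fn (g : GT k C) where
  R : C ⥤ C
  add : R.Additive
  lin : R.Linear k
  c : R ⋙ g.T ≅ g.T ⋙ R
  η : 𝟭 C ⟶ R ⋙ R
  ε : R ⋙ R ⟶ 𝟭 C
  tri : ∀ X : C, R.map (η.app X) ≫ ε.app (R.obj X) = 𝟙 (R.obj X)
  η_c : ∀ X : C, g.T.map (η.app X) ≫ c.hom.app (R.obj X) ≫ R.map (c.hom.app X) =
    η.app (g.T.obj X)
  ε_c : ∀ X : C, c.hom.app (R.obj X) ≫ R.map (c.hom.app X) ≫ ε.app (g.T.obj X) =
    g.T.map (ε.app X)

attribute [instance] GT.Fn.add GT.Fn.lin

end

open Classical in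
/-- The additive data for the ungraded model. -/
structure CT (k : Type) [Field k] (C : Type u) [Category.{0} C] [Preadditive C] [Linear k C]
    [HasZeroObject C] [HasBinaryBiproducts C] (V E : Type) (adj : V → V → Prop)
    (N : E → V → V → Prop) where
  g : GT k C
  F : E → g.Fn
  P : V → ℤ → C
  Q : V → ℤ → C
  iP : ∀ v p, g.T.obj (P v p) ≅ P v (p + 1)
  iQ : ∀ v p, g.T.obj (Q v p) ≅ Q v (p + 1)
  hom_P : ∀ v w (n : ℤ), finrank k (P v 0 ⟶ P w n) = tab adj v w n
  hom_Q : ∀ v w (n : ℤ), finrank k (Q v 0 ⟶ P w n) = if n = 1 ∧ v = w then 1 else 0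
  R_P : ∀ e v, ∃ l : List V, l.Nodup ∧ (∀ w, w ∈ l ↔ N e v w) ∧
    Nonempty ((F e).R.obj (P v 0) ≅ lsum (l.map fun w => P w 0))

open Classical in
/-- Numerical data of a triangulated category whose finite objects are 2-Calabi-Yau, with
generators, framing objects and generic cones. -/
structure UD (V E : Type) (adj : V → V → Prop) (N : E → V → V → Prop) extends TG.{u} E where
  g_eq : g = s
  gcone : ∀ A B (l : List (O × O)), Bd A → Bd B → (∀ p ∈ l, Ext A p.1 B ∧ Bd p.2) →
    ∃ Y, Ext A Y B ∧ ∀ p ∈ l, hom Y p.2 ≤ hom p.1 p.2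
  P : V → O
  Q : V → O
  bd_P : ∀ v, Bd (P v)
  bd_Q : ∀ v, Bd (Q v)
  hom_P : ∀ v w (n : ℤ), hom (P v) ((s ^ n) (P w)) = tab adj v w n
  hom_Q : ∀ v w (n : ℤ), hom (Q v) ((s ^ n) (P w)) = if n = 1 ∧ v = w then 1 else 0
  phi_P : ∀ e v, ∃ l : List V, l.Nodup ∧ (∀ w, w ∈ l ↔ N e v w) ∧
    Flt zero Ext (l.map P) (phi e (P v))

/-- Numerical 2-Calabi-Yau data with generic cones. -/
structure RG (V E : Type) [Fintype V] (adj : V → V → Prop) (N : E → V → V → Prop)
    extends RD.{u} V E adj N where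
  gcone : ∀ A B (l : List (Obj × Obj)), (∀ p ∈ l, Ext A p.1 B) →
    ∃ Y, Ext A Y B ∧ ∀ p ∈ l, hom Y p.2 ≤ hom p.1 p.2

/-- Block (c2): the skew zigzag category over an infinite field. -/
def CTStmt : Prop :=
  ∀ (S : Type) [Finite S] (m : S → S → ℕ), (∀ s t, m s t = m t s) →
    ∃ (k : Type) (_ : Field k) (_ : Infinite k) (C : Type 1) (_ : Category.{0} C)
      (_ : Preadditive C) (_ : Linear k C) (_ : HasZeroObject C) (_ : HasBinaryBiproducts C),
      Nonempty (CT k C (S × Irr) Bool (adjU m) fusU)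

/-- Block (a2): periodic complexes. -/
def ATStmt : Prop :=
  ∀ (k : Type) [Field k] [Infinite k] (C : Type 1) [Category.{0} C] [Preadditive C] [Linear k C]
    [HasZeroObject C] [HasBinaryBiproducts C] (V E : Type) (adj : V → V → Prop)
    (N : E → V → V → Prop), Nonempty (CT k C V E adj N) → Nonempty (UD.{1} V E adj N)

/-- Block (b2): restriction to the objects generated by the configuration. -/
def SubStmt : Prop :=
  ∀ (V E : Type) [Fintype V] (adj : V → V → Prop) (N : E → V → V → Prop), (∀ v, ¬ adj v v) →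
    (∀ v w, adj v w → adj w v) → Nonempty (UD.{1} V E adj N) → Nonempty (RG.{1} V E adj N)

end Pool.Agent.HM
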