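import Pool.Agent.Lib.MP_6d85b4_al.HM.Defs

set_option autoImplicit false

/-!
The orbit construction, graded level: shifts, total dimensions, Euler characteristics.
-/

namespace Pool.Agent.HM

universe u

open Function

/-! ### Sums over the integers -/

lemma fs_left {f a b : ℤ → ℕ} (hf : (support f).Finite) (h : ∀ j, f j = a j + b j) :
    (support a).Finite :=
  hf.subset fun j hj => by have := h j; simp only [mem_support] at hj ⊢; omega

lemma fs_right {f a b : ℤ → ℕ} (hf : (support f).Finite) (h : ∀ j, f j = a j + b j) :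
    (support b).Finite :=
  hf.subset fun j hj => by have := h j; simp only [mem_support] at hj ⊢; omega

lemma fsum_add {f a b : ℤ → ℕ} (hf : (support f).Finite) (h : ∀ j, f j = a j + b j) :
    ∑ᶠ j, f j = ∑ᶠ j, a j + ∑ᶠ j, b j := by
  rw [← finsum_add_distrib (fs_left hf h) (fs_right hf h)]
  exact finsum_congr h

lemma fsum_le {f : ℤ → ℕ} (hf : (support f).Finite) (j : ℤ) : f j ≤ ∑ᶠ i, f i :=
  single_le_finsum j hf fun _ => Nat.zero_le _

lemma fsum_ne {f : ℤ → ℕ} (h : ∑ᶠ i, f i ≠ 0) : ∃ j, f j ≠ 0 := by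
  by_contra e
  push Not at e
  exact h (finsum_eq_zero_of_forall_eq_zero e)

/-- The sign. -/
def sgn (n : ℤ) : ℤ := ((n.negOnePow : ℤˣ) : ℤ)

lemma sgn_add (m n : ℤ) : sgn (m + n) = sgn m * sgn n := by simp [sgn, Int.negOnePow_add]

lemma sgn_neg (m : ℤ) : sgn (-m) = sgn m := by simp [sgn]

lemma sgn_sq (m : ℤ) : sgn m * sgn m = 1 := by
  nth_rw 1 [← sgn_neg]
  rw [← sgn_add]
  simp [sgn]

/-- The alternating sum. -/
noncomputable def alt (f : ℤ → ℕ) : ℤ := ∑ᶠ n : ℤ, sgn n * (f n : ℤ)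

lemma alt_fs {f : ℤ → ℕ} (hf : (support f).Finite) :
    (support fun n => sgn n * (f n : ℤ)).Finite :=
  hf.subset fun j hj => by
    simp only [mem_support] at hj ⊢
    exact fun e => hj (by rw [e]; simp)

lemma alt_add {f a b : ℤ → ℕ} (hf : (support f).Finite) (h : ∀ j, f j = a j + b j) :
    alt f = alt a + alt b := by
  rw [alt, alt, alt, ← finsum_add_distrib (alt_fs (fs_left hf h)) (alt_fs (fs_right hf h))]
  exact finsum_congr fun j => by rw [h]; push_cast; ring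

lemma alt_shift (f : ℤ → ℕ) (k : ℤ) : alt (fun j => f (j + k)) = sgn k * alt f := by
  rw [alt, alt, mul_finsum]
  refine Eq.trans ?_ (finsum_comp_equiv (Equiv.addRight k))
  refine finsum_congr fun j => ?_
  simp only [Equiv.coe_addRight, sgn_add]
  linear_combination (-(sgn j * f (j + k))) * sgn_sq k

lemma alt_les {fA fY fB a b c : ℤ → ℕ} {k : ℤ} (hk : sgn k = -1) (hA : (support fA).Finite)
    (hY : (support fY).Finite) (hB : (support fB).Finite) (h1 : ∀ j, fY j = a j + b j)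
    (h2 : ∀ j, fB j = b j + c j) (h3 : ∀ j, fA j = c (j + k) + a j) : alt fY = alt fA + alt fB := by
  rw [alt_add hY h1, alt_add hB h2, alt_add hA h3, alt_shift, hk]
  ring

namespace TG

variable {E : Type} (T : TG.{u} E)

/-! ### Shifts -/

lemma hom_zero' {A : T.O} (hA : T.Bd A) (h : T.g T.zero = T.zero) : T.hom T.zero A = 0 := by
  have := T.serre _ _ T.bd_zero hA
  rwa [h, h, T.hom_zero, Nat.le_zero] at this

lemma g_zero : T.g T.zero = T.zero :=
  T.eq_zero _ ((T.bd_g _).2 T.bd_zero) (by rw [T.hom_g, T.hom_zero])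

lemma s_zero : T.s T.zero = T.zero :=
  (T.eq_of_ext_zero _ _ ((T.rot _ _ _).1 (T.ext_zero T.zero))).symm

lemma phi_zero (e : E) : T.phi e T.zero = T.zero := by
  have h := T.phi_bd e _ T.bd_zero
  refine T.eq_zero _ h (Nat.le_zero.1 ((T.phi_le e _ _ T.bd_zero h).trans ?_))
  rw [T.hom_zero' (T.phi_bd e _ h) T.g_zero]

lemma phi_s (e : E) (A : T.O) : T.phi e (T.s A) = T.s (T.phi e A) := by
  have h1 : T.Ext A T.zero (T.s A) := by
    have := (T.rot _ _ _).1 ((T.rot _ _ _).1 (T.ext_zero A))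
    rwa [T.s_zero] at this
  have h2 := T.phi_ext e _ _ _ h1
  rw [T.phi_zero] at h2
  exact T.eq_of_ext_zero _ _ ((T.rot _ _ _).1 h2)

/-- Automorphisms of the data. -/
def Au : Subgroup (Equiv.Perm T.O) where
  carrier := {π | (∀ A Y B, T.Ext (π A) (π Y) (π B) ↔ T.Ext A Y B) ∧
    (∀ A B, T.hom (π A) (π B) = T.hom A B) ∧ (∀ A, T.Bd (π A) ↔ T.Bd A) ∧ π T.zero = T.zero ∧
    ∀ e A, T.phi e (π A) = π (T.phi e A)}
  one_mem' := ⟨fun _ _ _ => Iff.rfl, fun _ _ => rfl, fun _ => Iff.rfl, rfl, fun _ _ => rfl⟩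
  mul_mem' := fun {π ρ} ⟨a, b, c, d, e⟩ ⟨a', b', c', d', e'⟩ =>
    ⟨fun A Y B => (a _ _ _).trans (a' A Y B), fun A B => (b _ _).trans (b' A B),
      fun A => (c _).trans (c' A), by rw [Equiv.Perm.mul_apply, d', d],
      fun x A => by rw [Equiv.Perm.mul_apply, e, e', Equiv.Perm.mul_apply]⟩
  inv_mem' := fun {π} ⟨a, b, c, d, e⟩ =>
    ⟨fun A Y B => by rw [← a]; simp, fun A B => by rw [← b]; simp, fun A => by rw [← c]; simp,
      by rw [Equiv.Perm.inv_eq_iff_eq, d], fun x A => by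
        rw [Equiv.Perm.eq_inv_iff_eq, ← e]; simp⟩

lemma s_mem : T.s ∈ T.Au :=
  ⟨fun A Y B => by rw [T.rot A Y B, T.rot Y B, T.rot B], T.hom_s, T.bd_s, T.s_zero, T.phi_s⟩

lemma g_mem : T.g ∈ T.Au := ⟨T.ext_g, T.hom_g, T.bd_g, T.g_zero, T.phi_g⟩

/-- The bigraded shift. -/
def sh (m n : ℤ) (A : T.O) : T.O := (T.s ^ m) ((T.g ^ n) A)

lemma sh_mem (m n : ℤ) : T.s ^ m * T.g ^ n ∈ T.Au :=
  mul_mem (zpow_mem T.s_mem m) (zpow_mem T.g_mem n)

lemma ext_sh (m n : ℤ) {A Y B : T.O} :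
    T.Ext (T.sh m n A) (T.sh m n Y) (T.sh m n B) ↔ T.Ext A Y B := (T.sh_mem m n).1 A Y B

lemma hom_sh (m n : ℤ) (A B : T.O) : T.hom (T.sh m n A) (T.sh m n B) = T.hom A B :=
  (T.sh_mem m n).2.1 A B

lemma bd_sh (m n : ℤ) {A : T.O} (h : T.Bd A) : T.Bd (T.sh m n A) := ((T.sh_mem m n).2.2.1 A).2 h

@[simp] lemma sh_zero (m n : ℤ) : T.sh m n T.zero = T.zero := (T.sh_mem m n).2.2.2.1

lemma phi_sh (e : E) (m n : ℤ) (A : T.O) : T.phi e (T.sh m n A) = T.sh m n (T.phi e A) :=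
  (T.sh_mem m n).2.2.2.2 e A

@[simp] lemma sh_00 (A : T.O) : T.sh 0 0 A = A := by simp [sh]

lemma sh_10 (A : T.O) : T.sh 1 0 A = T.s A := by simp [sh]

lemma sh_sh (m n a b : ℤ) (A : T.O) : T.sh m n (T.sh a b A) = T.sh (m + a) (n + b) A := by
  have h : Commute T.s T.g := Equiv.ext T.sg
  have := (h.zpow_zpow a n).eq
  simp only [sh, zpow_add, ← Equiv.Perm.mul_apply, mul_assoc]
  rw [← mul_assoc (T.g ^ n), ← this, mul_assoc]

lemma gg (A : T.O) : T.g (T.g A) = T.sh 0 2 A := by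
  rw [sh, zpow_two, zpow_zero]; rfl

lemma hom_sh_left (m n : ℤ) (A B : T.O) :
    T.hom (T.sh m n A) B = T.hom A (T.sh (-m) (-n) B) := by
  rw [← T.hom_sh (-m) (-n), T.sh_sh]; simp

lemma serre_eq {A B : T.O} (hA : T.Bd A) (hB : T.Bd B) : T.hom A B = T.hom B (T.sh 0 2 A) := by
  refine le_antisymm (by rw [← T.gg]; exact T.serre A B hA hB) ?_
  have := T.serre B _ hB (T.bd_sh 0 2 hA)
  rwa [T.gg, T.hom_sh] at this

lemma phi_eq (e : E) {A B : T.O} (hA : T.Bd A) (hB : T.Bd B) :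
    T.hom (T.phi e A) B = T.hom A (T.phi e B) := by
  refine le_antisymm (T.phi_le e A B hA hB) ?_
  rw [T.serre_eq hA (T.phi_bd e B hB), T.serre_eq (T.phi_bd e A hA) hB, ← T.phi_sh]
  exact T.phi_le e _ _ hB (T.bd_sh 0 2 hA)

/-! ### Finiteness and totals -/

/-- Only finitely many shifts carry morphisms. -/
def FS (W A : T.O) : Prop := {p : ℤ × ℤ | T.hom W (T.sh p.1 p.2 A) ≠ 0}.Finite

variable {T}

lemma FS.right {W A : T.O} (h : T.FS W A) (m n : ℤ) : T.FS W (T.sh m n A) :=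
  (h.preimage (f := fun p : ℤ × ℤ => p + (m, n)) (add_left_injective _).injOn).subset
    fun p hp => by simpa [T.sh_sh] using hp

lemma FS.left {W A : T.O} (h : T.FS W A) (m n : ℤ) : T.FS (T.sh m n W) A :=
  (h.right (-m) (-n)).subset fun p hp => by simpa [T.sh_sh, T.hom_sh_left, add_comm] using hp

lemma fs_zero (W : T.O) : T.FS W T.zero := by simp [FS, T.hom_zero]

lemma fs_zero' {A : T.O} (hA : T.Bd A) : T.FS T.zero A := by
  simp [FS, T.hom_zero' (T.bd_sh _ _ hA) T.g_zero]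

lemma FS.ext {W A Y B : T.O} (hW : T.Bd W) (hA : T.Bd A) (hB : T.Bd B) (h : T.Ext A Y B)
    (h1 : T.FS W A) (h2 : T.FS W B) : T.FS W Y := by
  obtain ⟨a, b, c, e⟩ := T.les A Y B hA hB h
  refine (h1.union h2).subset fun p hp => ?_
  obtain ⟨e1, e2, e3⟩ := e _ (T.bd_sh (-p.1) (-p.2) hW)
  simp only [T.hom_sh_left, neg_neg] at e1 e2 e3
  simp only [Set.mem_ofPred_eq, Set.mem_union] at hp ⊢
  omega

lemma FS.ext' {W A Y B : T.O} (hW : T.Bd W) (hA : T.Bd A) (hB : T.Bd B) (h : T.Ext A Y B)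
    (h1 : T.FS A W) (h2 : T.FS B W) : T.FS Y W := by
  obtain ⟨a, b, c, e⟩ := T.les' A Y B hA hB h
  refine (h1.union h2).subset fun p hp => ?_
  obtain ⟨e1, e2, e3⟩ := e _ (T.bd_sh p.1 p.2 hW)
  simp only [Set.mem_ofPred_eq, Set.mem_union] at hp ⊢
  omega

variable (T)

/-- The sum over an orbit. -/
noncomputable def tot (f : T.O → ℕ) (A : T.O) : ℕ := ∑ᶠ k : ℤ, f (T.sh (-k) k A)

lemma tot_th (f : T.O → ℕ) (k : ℤ) (A : T.O) : T.tot f (T.sh (-k) k A) = T.tot f A := by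
  rw [tot, tot, ← finsum_comp_equiv (Equiv.addRight k) (f := fun j => f (T.sh (-j) j A))]
  exact finsum_congr fun j => by simp [T.sh_sh, add_comm]

lemma tot_s (f : T.O → ℕ) (A : T.O) :
    T.tot f (T.s A) = ∑ᶠ k : ℤ, f (T.s (T.sh (-k) k A)) :=
  finsum_congr fun j => by simp [← T.sh_10, T.sh_sh, add_comm]

/-- The total dimension. -/
noncomputable def hT (W A : T.O) : ℕ := T.tot (T.hom W) A

lemma hT_left (W A : T.O) : T.hT W A = T.tot (fun X => T.hom X A) W := by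
  rw [hT, tot, tot, ← finsum_comp_equiv (Equiv.neg ℤ)]
  exact finsum_congr fun j => by simp [T.hom_sh_left]

lemma hT_sh (m n : ℤ) (W A : T.O) : T.hT (T.sh m n W) (T.sh m n A) = T.hT W A :=
  finsum_congr fun j => by simp [T.hom_sh_left, T.sh_sh]

lemma hT_th (k : ℤ) (W A : T.O) : T.hT W (T.sh (-k) k A) = T.hT W A := T.tot_th _ k A

lemma hT_th' (k : ℤ) (W A : T.O) : T.hT (T.sh (-k) k W) A = T.hT W A := by
  rw [hT_left, hT_left, tot_th]

lemma hT_sh_left (m n : ℤ) (W A : T.O) : T.hT (T.sh m n W) A = T.hT W (T.sh (-m) (-n) A) := by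
  rw [← T.hT_sh (-m) (-n), T.sh_sh]; simp

lemma hT_flat (m n : ℤ) (W A : T.O) : T.hT W (T.sh m n A) = T.hT W (T.sh (m + n) 0 A) := by
  rw [← T.hT_th n W (T.sh (m + n) 0 A), T.sh_sh]; simp

variable {T}

lemma FS.r {W A : T.O} (h : T.FS W A) : (support fun k : ℤ => T.hom W (T.sh (-k) k A)).Finite :=
  (h.image Prod.snd).subset fun k hk => ⟨(-k, k), hk, rfl⟩

lemma FS.l {W A : T.O} (h : T.FS W A) : (support fun k : ℤ => T.hom (T.sh (-k) k W) A).Finite :=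
  (h.image Prod.fst).subset fun k hk => ⟨(k, -k), by simpa [T.hom_sh_left] using hk, rfl⟩

lemma FS.le {W A : T.O} (h : T.FS W A) : T.hom W A ≤ T.hT W A := by
  simpa [hT, TG.tot] using fsum_le h.r 0

lemma FS.tot {W A : T.O} (h : T.FS W A) : (support fun j : ℤ => T.hT W (T.sh j 0 A)).Finite :=
  (h.image fun p => p.1 + p.2).subset fun j hj => by
    obtain ⟨k, hk⟩ := fsum_ne hj
    exact ⟨(-k + j, k), by simpa [T.sh_sh] using hk, by simp⟩

lemma rk_tot {A Y B W : T.O} {a b c : T.O → ℕ} (hW : T.Bd W) (hA : T.FS W A) (hY : T.FS W Y)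
    (hB : T.FS W B) (h : ∀ W, T.Bd W → Rk T.hom T.s A Y B a b c W) :
    Rk T.hT T.s A Y B (T.tot a) (T.tot b) (T.tot c) W := by
  have e := fun k : ℤ => h _ (T.bd_sh (-k) k hW)
  refine ⟨?_, ?_, ?_⟩
  · rw [hT_left]; exact fsum_add hY.l fun k => (e k).1
  · rw [hT_left]; exact fsum_add hB.l fun k => (e k).2.1
  · rw [hT_left, tot_s]; exact fsum_add hA.l fun k => (e k).2.2

lemma rk_tot' {A Y B W : T.O} {a b c : T.O → ℕ} (hW : T.Bd W) (hA : T.FS A W) (hY : T.FS Y W)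
    (hB : T.FS B W) (h : ∀ W, T.Bd W → Rk' T.hom T.s A Y B a b c W) :
    Rk' T.hT T.s A Y B (T.tot a) (T.tot b) (T.tot c) W := by
  have e := fun k : ℤ => h _ (T.bd_sh (-k) k hW)
  refine ⟨fsum_add hY.r fun k => (e k).1, fsum_add hB.r fun k => (e k).2.1, ?_⟩
  rw [tot_s]; exact fsum_add hA.r fun k => (e k).2.2

lemma hT_add {A Y B W : T.O} (hW : T.Bd W) (hY : T.FS W Y)
    (h : ∀ W, T.Bd W → T.hom W Y = T.hom W A + T.hom W B) : T.hT W Y = T.hT W A + T.hT W B := by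
  rw [hT_left, hT_left, hT_left]
  exact fsum_add hY.l fun k => h _ (T.bd_sh (-k) k hW)

lemma hT_cy {A B : T.O} (hA : T.Bd A) (hB : T.Bd B) : T.hT A B = T.hT B (T.s (T.s A)) := by
  rw [← T.sh_10, ← T.sh_10, T.sh_sh, hT_left, ← T.hT_th 2, T.sh_sh]
  refine finsum_congr fun k => ?_
  refine (T.serre_eq (T.bd_sh _ _ hA) hB).trans ?_
  rw [T.sh_sh, T.sh_sh]
  congr 2 <;> ring

lemma hT_phi (e : E) {A B : T.O} (hA : T.Bd A) (hB : T.Bd B) :
    T.hT (T.phi e A) B = T.hT A (T.phi e B) :=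
  finsum_congr fun k => by rw [T.phi_eq e hA (T.bd_sh _ _ hB), T.phi_sh]

variable (T)

/-- The Euler characteristic. -/
noncomputable def chi (W A : T.O) : ℤ := alt fun j => T.hT W (T.sh j 0 A)

lemma chi_sh (m n : ℤ) (W A : T.O) : T.chi W (T.sh m n A) = sgn (m + n) * T.chi W A := by
  rw [chi, chi, ← alt_shift]
  congr 1
  funext j
  rw [T.sh_sh, hT_flat]
  congr 2
  ring

lemma chi_sh' (m n : ℤ) (W A : T.O) : T.chi (T.sh m n W) A = sgn (m + n) * T.chi W A := by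
  rw [← sgn_neg, neg_add, ← chi_sh, chi, chi]
  congr 1
  funext j
  rw [hT_sh_left, T.sh_sh, T.sh_sh]
  congr 2 <;> ring

lemma chi_zero (W : T.O) : T.chi W T.zero = 0 := by simp [chi, alt, hT, tot, T.hom_zero]

variable {T}

lemma chi_zero' {A : T.O} (hA : T.Bd A) : T.chi T.zero A = 0 := by
  simp [chi, alt, hT, tot, T.hom_zero' (T.bd_sh _ _ (T.bd_sh _ _ hA)) T.g_zero]

lemma chi_ext {W A Y B : T.O} (hW : T.Bd W) (hA : T.Bd A) (hB : T.Bd B) (h : T.Ext A Y B)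
    (h1 : T.FS W A) (h2 : T.FS W B) : T.chi W Y = T.chi W A + T.chi W B := by
  have h3 := h1.ext hW hA hB h h2
  obtain ⟨a, b, c, e⟩ := T.les A Y B hA hB h
  have k := fun j : ℤ =>
    rk_tot (T.bd_sh (-j) 0 hW) (h1.left (-j) 0) (h3.left (-j) 0) (h2.left (-j) 0) e
  simp only [Rk, hT_sh_left, neg_neg, neg_zero, ← T.sh_10, T.sh_sh] at k
  refine alt_les (k := -1) (c := fun j => T.tot c (T.sh (-j) 0 W)) rfl h1.tot h3.tot h2.tot
    (fun j => (k j).1) (fun j => (k j).2.1) fun j => ?_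
  rw [(k j).2.2]
  congr 3
  ring

lemma chi_ext' {W A Y B : T.O} (hW : T.Bd W) (hA : T.Bd A) (hB : T.Bd B) (h : T.Ext A Y B)
    (h1 : T.FS A W) (h2 : T.FS B W) : T.chi Y W = T.chi A W + T.chi B W := by
  have h3 := h1.ext' hW hA hB h h2
  obtain ⟨a, b, c, e⟩ := T.les' A Y B hA hB h
  have k := fun j : ℤ =>
    rk_tot' (T.bd_sh j 0 hW) (h1.right j 0) (h3.right j 0) (h2.right j 0) e
  simp only [Rk', ← T.sh_10, T.sh_sh] at k
  refine alt_les (k := 1) (c := fun j => T.tot c (T.sh j 0 W)) rfl h1.tot h3.tot h2.tot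
    (fun j => (k j).1) (fun j => (k j).2.1) fun j => ?_
  rw [(k j).2.2]
  congr 3
  ring

end TG

end Pool.Agent.HM
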