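import Pool.Agent.Lib.MP_6d85b4_al.HM.OrbA

set_option autoImplicit false

/-!
The orbit construction: the objects generated by the `P v`, classes and the Euler form.
-/

namespace Pool.Agent.HM

universe u

open Function

namespace GD

open TG

variable {V E : Type} {adj : V → V → Prop} {N : E → V → V → Prop} (T : GD.{u} V E adj N)

/-- The objects generated by the `P v`. -/
def Gen (A : T.O) : Prop := Clo T.zero T.Ext {X | ∃ m n v, X = T.sh m n (T.P v)} A

variable {T}

lemma Gen.zero : T.Gen T.zero := Clo.zero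

lemma Gen.bd {A : T.O} (h : T.Gen A) : T.Bd A := by
  induction h with
  | zero => exact T.bd_zero
  | cons h1 h2 _ ih =>
    obtain ⟨m, n, v, rfl⟩ := h1
    exact T.bd_ext _ _ _ h2 (T.bd_sh m n (T.bd_P v)) ih

lemma ext_zero' (A : T.O) : T.Ext A A T.zero := by
  have := (T.rot _ _ _).1 (T.ext_zero A)
  rwa [T.s_zero] at this

lemma Gen.shP (m n : ℤ) (v : V) : T.Gen (T.sh m n (T.P v)) :=
  Clo.cons ⟨m, n, v, rfl⟩ (ext_zero' _) Clo.zero

lemma Gen.P (v : V) : T.Gen (T.P v) := by simpa using Gen.shP (T := T) 0 0 v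

lemma Gen.sh {A : T.O} (h : T.Gen A) (a b : ℤ) : T.Gen (T.sh a b A) := by
  induction h with
  | zero => simpa using Gen.zero
  | cons h1 h2 _ ih =>
    obtain ⟨m, n, v, rfl⟩ := h1
    exact Clo.cons ⟨_, _, v, T.sh_sh a b m n _⟩ ((T.ext_sh a b).2 h2) ih

lemma Gen.ext {A Y B : T.O} (hA : T.Gen A) (hB : T.Gen B) (h : T.Ext A Y B) : T.Gen Y := by
  induction hA generalizing Y with
  | zero => rw [T.eq_of_ext_zero _ _ h]; exact hB
  | cons h1 h2 _ ih =>
    obtain ⟨F, h3, h4⟩ := T.assoc _ _ _ _ _ h h2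
    exact Clo.cons h1 h3 (ih h4)

lemma Gen.s {A : T.O} (h : T.Gen A) : T.Gen (T.s A) := by
  rw [← T.sh_10]; exact h.sh 1 0

lemma Gen.ext3 {A Y B : T.O} (hA : T.Gen A) (hY : T.Gen Y) (h : T.Ext A Y B) : T.Gen B :=
  hY.ext hA.s ((T.rot _ _ _).1 h)

lemma Gen.of_s {A : T.O} (h : T.Gen (T.s A)) : T.Gen A := by
  have := h.sh (-1) 0
  rwa [← T.sh_10, T.sh_sh, neg_add_cancel, add_zero, T.sh_00] at this

lemma Gen.ext1 {A Y B : T.O} (hY : T.Gen Y) (hB : T.Gen B) (h : T.Ext A Y B) : T.Gen A :=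
  (hY.ext3 hB ((T.rot _ _ _).1 h)).of_s

/-- Induction with all the hypotheses. -/
lemma Gen.ind {R : T.O → Prop} (h0 : R T.zero) (hP : ∀ m n v, R (T.sh m n (T.P v)))
    (hE : ∀ A Y B, T.Gen A → T.Gen B → T.Ext A Y B → R A → R B → R Y) {A : T.O} (h : T.Gen A) :
    R A := by
  induction h with
  | zero => exact h0
  | cons h1 h2 h3 ih =>
    obtain ⟨m, n, v, rfl⟩ := h1
    exact hE _ _ _ (Gen.shP m n v) h3 h2 (hP m n v) ih

lemma flt_gen {l : List V} {Y : T.O} (h : Flt T.zero T.Ext (l.map T.P) Y) : T.Gen Y := by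
  induction l generalizing Y with
  | nil => cases h; exact Gen.zero
  | cons v l ih => cases h with | cons h1 h2 => exact (Gen.P v).ext (ih h2) h1

lemma Gen.phi {A : T.O} (h : T.Gen A) (e : E) : T.Gen (T.phi e A) := by
  refine Gen.ind (R := fun A => T.Gen (T.phi e A)) ?_ (fun m n v => ?_)
    (fun A Y B _ _ h a b => a.ext b (T.phi_ext e _ _ _ h)) h
  · rw [T.phi_zero]; exact Gen.zero
  · obtain ⟨l, -, -, h⟩ := T.phi_P e v
    rw [T.phi_sh]
    exact (flt_gen h).sh m n

lemma fs_of {W A : T.O} (hW : T.Bd W) (h : ∀ v, T.FS W (T.P v)) (hA : T.Gen A) : T.FS W A :=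
  Gen.ind (R := fun A => T.FS W A) (fs_zero W) (fun m n v => (h v).right m n)
    (fun _ _ _ a b e h1 h2 => h1.ext hW a.bd b.bd e h2) hA

lemma hP (v w : V) (m n : ℤ) :
    T.hom (T.P v) (T.sh m n (T.P w)) = if m = 0 then tab adj v w n else 0 := T.hom_P v w m n

open Classical in
lemma hQ (v w : V) (m n : ℤ) :
    T.hom (T.Q v) (T.sh m n (T.P w)) = if m = 0 ∧ n = 1 ∧ v = w then 1 else 0 := T.hom_Q v w m n

lemma fs_PP (v w : V) : T.FS (T.P v) (T.P w) :=
  (Set.toFinite ({(0, 0), (0, 1), (0, 2)} : Set (ℤ × ℤ))).subset fun ⟨m, n⟩ hp => by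
    simp only [Set.mem_ofPred_eq, hP, tab] at hp
    simp only [Set.mem_insert_iff, Set.mem_singleton_iff, Prod.mk.injEq]
    split_ifs at hp with h1 h2 <;> first | exact absurd rfl hp | tauto

lemma fs_QP (v w : V) : T.FS (T.Q v) (T.P w) :=
  (Set.toFinite ({(0, 1)} : Set (ℤ × ℤ))).subset fun ⟨m, n⟩ hp => by
    simp only [Set.mem_ofPred_eq, hQ] at hp
    simp only [Set.mem_singleton_iff, Prod.mk.injEq]
    split_ifs at hp with h1 <;> first | exact absurd rfl hp | tauto

lemma Gen.fsQ {A : T.O} (h : T.Gen A) (v : V) : T.FS (T.Q v) A := fs_of (T.bd_Q v) (fs_QP v) h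

lemma Gen.fs {A B : T.O} (hA : T.Gen A) (hB : T.Gen B) : T.FS A B :=
  fs_of hA.bd (fun v => Gen.ind (R := fun A => T.FS A (T.P v)) (fs_zero' (T.bd_P v))
    (fun m n w => (fs_PP w v).left m n)
    (fun _ _ _ a b e h1 h2 => h1.ext' (T.bd_P v) a.bd b.bd e h2) hA) hB

lemma hT_P (v w : V) (n : ℤ) : T.hT (T.P v) (T.sh n 0 (T.P w)) = tab adj v w n := by
  rw [hT, TG.tot, finsum_eq_single _ n fun k hk => by
    rw [T.sh_sh, hP, if_neg (by omega)], T.sh_sh, hP, if_pos (by omega), add_zero]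

open Classical in
lemma hT_Q (v w : V) (n : ℤ) :
    T.hT (T.Q v) (T.sh n 0 (T.P w)) = if n = 1 ∧ v = w then 1 else 0 := by
  rw [hT, TG.tot, finsum_eq_single _ n fun k hk => by
    rw [T.sh_sh, hQ, if_neg (by omega)], T.sh_sh, hQ]
  simp

variable (T)

/-- The class. -/
noncomputable def cl (A : T.O) (v : V) : ℤ := -T.chi (T.Q v) A

lemma cl_sh (m n : ℤ) (A : T.O) : T.cl (T.sh m n A) = sgn (m + n) • T.cl A :=
  funext fun v => by simp [cl, chi_sh]

lemma cl_zero : T.cl T.zero = 0 := funext fun v => by simp [cl, chi_zero]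

open Classical in
lemma cl_P (w : V) : T.cl (T.P w) = Pi.single w 1 := funext fun v => by
  rw [cl, chi, alt, finsum_eq_single _ 1 fun k hk => by simp [hT_Q, hk], hT_Q, Pi.single_apply]
  split_ifs <;> simp_all [sgn]

open Classical in
lemma chi_P (v w : V) :
    T.chi (T.P v) (T.P w) = (if v = w then 2 else 0) - if adj v w then 1 else 0 := by
  rw [chi, alt, finsum_eq_sum_of_support_subset (s := {0, 1, 2})]
  · simp only [hT_P, tab]
    rw [Finset.sum_insert (by decide), Finset.sum_pair (by decide)]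
    have h2 : sgn 2 = 1 := rfl
    have h1 : sgn 1 = -1 := rfl
    have h0 : sgn 0 = 1 := rfl
    by_cases a : v = w <;> by_cases b : adj v w <;> simp [a, b, h0, h1, h2] <;> simp_all
  · intro n hn
    simp only [mem_support, hT_P, tab] at hn
    simp only [Finset.coe_insert, Finset.coe_singleton, Set.mem_insert_iff, Set.mem_singleton_iff]
    split_ifs at hn with h <;> first | tauto | simp at hn

variable {T}

lemma cl_ext {A Y B : T.O} (hA : T.Gen A) (hB : T.Gen B) (h : T.Ext A Y B) :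
    T.cl Y = T.cl A + T.cl B := funext fun v => by
  rw [Pi.add_apply, cl, cl, cl, chi_ext (T.bd_Q v) hA.bd hB.bd h (hA.fsQ v) (hB.fsQ v), neg_add]

section

variable [Fintype V]

lemma cartan_add (x x' y : V → ℤ) : cartan adj (x + x') y = cartan adj x y + cartan adj x' y := by
  simp [cartan, add_mul, Finset.sum_add_distrib]

lemma cartan_add' (x y y' : V → ℤ) : cartan adj x (y + y') = cartan adj x y + cartan adj x y' := by
  simp [cartan, add_mul, mul_add, Finset.sum_add_distrib]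

lemma cartan_smul (a b : ℤ) (x y : V → ℤ) :
    cartan adj (a • x) (b • y) = a * (b * cartan adj x y) := by
  simp only [cartan, Finset.mul_sum, Pi.smul_apply, smul_eq_mul]
  exact Finset.sum_congr rfl fun _ _ => Finset.sum_congr rfl fun _ _ => by ring

open Classical in
lemma cartan_single (v w : V) : cartan adj (Pi.single v 1) (Pi.single w 1) =
    (if v = w then 2 else 0) - if adj v w then 1 else 0 := by
  rw [cartan, Finset.sum_eq_single v (fun a _ h => by simp [h]) (by simp),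
    Finset.sum_eq_single w (fun a _ h => by simp [h]) (by simp)]
  simp

lemma euler {A B : T.O} (hA : T.Gen A) (hB : T.Gen B) :
    cartan adj (T.cl A) (T.cl B) = T.chi A B := by
  refine Gen.ind (R := fun A => cartan adj (T.cl A) (T.cl B) = T.chi A B) ?_ (fun m n v => ?_)
    (fun A Y C a c e h1 h2 => ?_) hA
  · rw [chi_zero' hB.bd, cl_zero]; simp [cartan]
  · refine Gen.ind (R := fun B => cartan adj (T.cl (T.sh m n (T.P v))) (T.cl B) =
      T.chi (T.sh m n (T.P v)) B) ?_ (fun a b w => ?_) (fun A Y C a c e h1 h2 => ?_) hB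
    · rw [chi_zero, cl_zero]; simp [cartan]
    · rw [cl_sh, cl_sh, cartan_smul, chi_sh', chi_sh, cl_P, cl_P, cartan_single, chi_P]
    · have g := Gen.shP (T := T) m n v
      rw [cl_ext a c e, cartan_add', h1, h2, chi_ext g.bd a.bd c.bd e (g.fs a) (g.fs c)]
  · rw [cl_ext a c e, cartan_add, h1, h2, chi_ext' hB.bd a.bd c.bd e (a.fs hB) (c.fs hB)]

omit [Fintype V] in
open Classical in
lemma cl_flt {l : List V} {Y : T.O} (hl : l.Nodup) (h : Flt T.zero T.Ext (l.map T.P) Y) (w : V) :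
    T.cl Y w = if w ∈ l then 1 else 0 := by
  induction l generalizing Y with
  | nil => cases h; simp [cl_zero]
  | cons v l ih =>
    cases h with
    | cons h1 h2 =>
      obtain ⟨a, b⟩ := List.nodup_cons.1 hl
      rw [cl_ext (Gen.P v) (flt_gen h2) h1, Pi.add_apply, ih b h2, cl_P, Pi.single_apply]
      by_cases e : w = v
      · simp [e, a]
      · simp [e]

open Classical in
lemma phi_cl (e : E) {A : T.O} (hA : T.Gen A) (w : V) :
    T.cl (T.phi e A) w = ∑ v, if N e v w then T.cl A v else 0 := by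
  refine Gen.ind (R := fun A => T.cl (T.phi e A) w = ∑ v, if N e v w then T.cl A v else 0) ?_
    (fun m n v => ?_) (fun A Y C a c h h1 h2 => ?_) hA
  · simp [T.phi_zero, cl_zero]
  · obtain ⟨l, h1, h2, h3⟩ := T.phi_P e v
    rw [T.phi_sh, cl_sh, cl_sh, cl_P, Pi.smul_apply, cl_flt h1 h3,
      Finset.sum_eq_single v (fun a _ h => by simp [h]) (by simp)]
    simp [h2]
  · rw [cl_ext (a.phi e) (c.phi e) (T.phi_ext e _ _ _ h), Pi.add_apply, h1, h2, cl_ext a c h,
      ← Finset.sum_add_distrib]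
    exact Finset.sum_congr rfl fun v _ => by split_ifs <;> simp

end

end GD

end Pool.Agent.HM
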