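import Pool.Agent.Lib.MP_6d85b4_al.HM.OrbB

set_option autoImplicit false

/-!
The orbit construction: the quotient.
-/

namespace Pool.Agent.HM

universe u

open Function

namespace GD

open TG

variable {V E : Type} {adj : V → V → Prop} {N : E → V → V → Prop} (T : GD.{u} V E adj N)

/-- Generated objects. -/
abbrev GO : Type u := {A : T.O // T.Gen A}

/-- The orbit relation. -/
def orb : Setoid T.GO where
  r a b := ∃ k : ℤ, b.1 = T.sh (-k) k a.1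
  iseqv :=
    ⟨fun a => ⟨0, by simp⟩, fun ⟨k, h⟩ => ⟨-k, by rw [h, T.sh_sh]; simp⟩,
      fun ⟨k, h⟩ ⟨j, h'⟩ => ⟨j + k, by rw [h', h, T.sh_sh, neg_add]⟩⟩

/-- The orbits. -/
def Ob : Type u := Quotient T.orb

variable {T}

/-- The orbit of an object. -/
def ob (A : T.O) (h : T.Gen A) : T.Ob := Quotient.mk T.orb ⟨A, h⟩

lemma mk_eq {A B : T.O} {a : T.Gen A} {b : T.Gen B} :
    ob A a = ob B b ↔ ∃ k : ℤ, B = T.sh (-k) k A := Quotient.eq

lemma mk_th {A : T.O} (a : T.Gen A) (k : ℤ) : ob _ (a.sh (-k) k) = ob A a :=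
  (mk_eq.2 ⟨k, rfl⟩).symm

lemma mk_congr {A B : T.O} {a : T.Gen A} {b : T.Gen B} (h : A = B) : ob A a = ob B b := by
  subst h; rfl

@[elab_as_elim]
lemma Ob.ind {R : T.Ob → Prop} (h : ∀ A a, R (ob A a)) (X : T.Ob) : R X :=
  Quotient.ind (s := T.orb) (fun a => h a.1 a.2) X

variable (T)

/-- The shift by `m` on the orbits. -/
def shO (m : ℤ) : T.Ob → T.Ob :=
  Quotient.map (fun a => ⟨T.sh m 0 a.1, a.2.sh m 0⟩) fun a b ⟨k, h⟩ =>
    ⟨k, by simp [h, T.sh_sh, add_comm]⟩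

lemma shO_mk (m : ℤ) (A : T.O) (a : T.Gen A) : T.shO m (ob A a) = ob _ (a.sh m 0) := rfl

/-- The shift on the orbits. -/
def sO : Equiv.Perm T.Ob where
  toFun := T.shO 1
  invFun := T.shO (-1)
  left_inv := Ob.ind fun A a => mk_congr (by simp [T.sh_sh])
  right_inv := Ob.ind fun A a => mk_congr (by simp [T.sh_sh])

lemma sO_mk (A : T.O) (a : T.Gen A) : T.sO (ob A a) = ob _ a.s := mk_congr (T.sh_10 A)

lemma sO_pow (n : ℤ) (A : T.O) (a : T.Gen A) : (T.sO ^ n) (ob A a) = ob _ (a.sh n 0) := by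
  induction n using Int.induction_on with
  | zero => exact mk_congr (by simp)
  | succ n ih =>
    rw [add_comm, zpow_add, zpow_one, Equiv.Perm.mul_apply, ih]
    exact mk_congr (by simp [T.sh_sh])
  | pred n ih =>
    rw [sub_eq_add_neg, add_comm, zpow_add, zpow_neg_one, Equiv.Perm.mul_apply, ih]
    exact mk_congr (by simp [T.sh_sh])

/-- A ternary relation on the orbits. -/
def lf (R : T.O → T.O → T.O → Prop) (X Y Z : T.Ob) : Prop :=
  ∃ A a B b C c, X = ob A a ∧ Y = ob B b ∧ Z = ob C c ∧ R A B C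

/-- A function on the orbits. -/
noncomputable def totO (f : T.O → ℕ) : T.Ob → ℕ :=
  Quotient.lift (fun a => T.tot f a.1) fun a b ⟨k, h⟩ => by rw [h, tot_th]

/-- The total dimension on the orbits. -/
noncomputable def hO : T.Ob → T.Ob → ℕ :=
  Quotient.lift₂ (fun a b => T.hT a.1 b.1) fun a b c d ⟨k, h⟩ ⟨j, h'⟩ => by
    rw [h, h', hT_th, hT_th']

/-- The class on the orbits. -/
noncomputable def clO : T.Ob → V → ℤ :=
  Quotient.lift (fun a => T.cl a.1) fun a b ⟨k, h⟩ => by rw [h, cl_sh]; simp [sgn]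

/-- The endofunctor on the orbits. -/
def phiO (e : E) : T.Ob → T.Ob :=
  Quotient.map (fun a => ⟨T.phi e a.1, a.2.phi e⟩) fun a b ⟨k, h⟩ => ⟨k, by simp [h, T.phi_sh]⟩

variable {T}

lemma lf_mk {R : T.O → T.O → T.O → Prop} {A B C : T.O} (a : T.Gen A) (b : T.Gen B) (c : T.Gen C)
    (h : R A B C) : T.lf R (ob A a) (ob B b) (ob C c) := ⟨A, a, B, b, C, c, rfl, rfl, rfl, h⟩

lemma ext_left {A : T.O} {a : T.Gen A} {Y Z : T.Ob} (h : T.lf T.Ext (ob A a) Y Z) :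
    ∃ B b C c, Y = ob B b ∧ Z = ob C c ∧ T.Ext A B C := by
  obtain ⟨A', a', B, b, C, c, h1, rfl, rfl, h2⟩ := h
  obtain ⟨k, rfl⟩ := mk_eq.1 h1.symm
  exact ⟨_, _, _, _, (mk_th b k).symm, (mk_th c k).symm, (T.ext_sh _ _).2 h2⟩

lemma ext_mid {B : T.O} {b : T.Gen B} {X Z : T.Ob} (h : T.lf T.Ext X (ob B b) Z) :
    ∃ A a C c, X = ob A a ∧ Z = ob C c ∧ T.Ext A B C := by
  obtain ⟨A, a, B', b', C, c, rfl, h1, rfl, h2⟩ := h
  obtain ⟨k, rfl⟩ := mk_eq.1 h1.symm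
  exact ⟨_, _, _, _, (mk_th a k).symm, (mk_th c k).symm, (T.ext_sh _ _).2 h2⟩

lemma ext_right {C : T.O} {c : T.Gen C} {X Y : T.Ob} (h : T.lf T.Ext X Y (ob C c)) :
    ∃ A a B b, X = ob A a ∧ Y = ob B b ∧ T.Ext A B C := by
  obtain ⟨A, a, B, b, C', c', rfl, rfl, h1, h2⟩ := h
  obtain ⟨k, rfl⟩ := mk_eq.1 h1.symm
  exact ⟨_, _, _, _, (mk_th a k).symm, (mk_th b k).symm, (T.ext_sh _ _).2 h2⟩

lemma rkO {A Y B : T.O} (a : T.Gen A) (y : T.Gen Y) (b : T.Gen B) {p q r : T.O → ℕ}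
    (h : ∀ W, T.Bd W → Rk T.hom T.s A Y B p q r W) (W : T.Ob) :
    Rk T.hO T.sO (ob A a) (ob Y y) (ob B b) (T.totO p) (T.totO q) (T.totO r) W := by
  induction W using Ob.ind with
  | h W w =>
    rw [Rk, sO_mk]
    exact rk_tot w.bd (w.fs a) (w.fs y) (w.fs b) h

lemma rkO' {A Y B : T.O} (a : T.Gen A) (y : T.Gen Y) (b : T.Gen B) {p q r : T.O → ℕ}
    (h : ∀ W, T.Bd W → Rk' T.hom T.s A Y B p q r W) (W : T.Ob) :
    Rk' T.hO T.sO (ob A a) (ob Y y) (ob B b) (T.totO p) (T.totO q) (T.totO r) W := by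
  induction W using Ob.ind with
  | h W w =>
    rw [Rk', sO_mk]
    exact rk_tot' w.bd (a.fs w) (y.fs w) (b.fs w) h

lemma addO {A Y B : T.O} (a : T.Gen A) (y : T.Gen Y) (b : T.Gen B)
    (h : ∀ W, T.Bd W → T.hom W Y = T.hom W A + T.hom W B) (W : T.Ob) :
    T.hO W (ob Y y) = T.hO W (ob A a) + T.hO W (ob B b) := by
  induction W using Ob.ind with
  | h W w => exact hT_add w.bd (w.fs y) h

lemma tot_pos {f : T.O → ℕ} {A : T.O} {g : ℤ → ℕ} (hg : (support g).Finite)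
    (h : ∀ k, f (T.sh (-k) k A) ≤ g k) (h0 : 0 < f A) : 0 < T.tot f A := by
  have := fsum_le (f := fun k => f (T.sh (-k) k A)) (hg.subset fun k hk => by
    have := h k
    simp only [mem_support] at hk ⊢
    omega) 0
  simp only [neg_zero, sh_00] at this
  exact h0.trans_le this

lemma fltO {l : List V} {Y : T.O} (h : Flt T.zero T.Ext (l.map T.P) Y) (y : T.Gen Y) :
    Flt (ob _ Gen.zero) (T.lf T.Ext) (l.map fun v => ob _ (Gen.P v)) (ob Y y) := by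
  induction l generalizing Y with
  | nil => cases h; exact Flt.nil
  | cons v l ih =>
    cases h with
    | cons h1 h2 => exact Flt.cons (lf_mk _ y (flt_gen h2) h1) (ih h2 _)

lemma genO {A : T.O} (a : T.Gen A) : ∀ a' : T.Gen A, Clo (ob _ Gen.zero) (T.lf T.Ext)
    {X | ∃ (n : ℤ) (v : V), X = (T.sO ^ n) (ob _ (Gen.P v))} (ob A a') := by
  induction a with
  | zero => exact fun _ => Clo.zero
  | cons h1 h2 h3 ih =>
    obtain ⟨m, n, v, rfl⟩ := h1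
    refine fun a' => Clo.cons ⟨m + n, v, ?_⟩ (lf_mk (Gen.shP m n v) a' h3 h2) (ih h3)
    rw [sO_pow]
    exact (mk_eq.2 ⟨n, by simp [T.sh_sh]⟩).symm

variable (T)

/-- The orbit data. -/
noncomputable def rd [Fintype V] : RD.{u} V E adj N where
  Obj := T.Ob
  s := T.sO
  zero := ob _ Gen.zero
  Ext := T.lf T.Ext
  NZ := T.lf T.NZ
  hom := T.hO
  cl := T.clO
  phi := T.phiO
  P v := ob _ (Gen.P v)
  rot X Y Z := by
    constructor
    · rintro ⟨A, a, B, b, C, c, rfl, rfl, rfl, h⟩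
      rw [sO_mk]
      exact lf_mk b c _ ((T.rot _ _ _).1 h)
    · induction X using Ob.ind with
      | h A a =>
        rw [sO_mk]
        intro h
        obtain ⟨B, b, C, c, rfl, rfl, k⟩ := ext_right h
        exact lf_mk a b c ((T.rot _ _ _).2 k)
  ext_zero := Ob.ind fun A a => lf_mk _ a a (T.ext_zero A)
  eq_of_ext_zero Y Z h := by
    obtain ⟨B, b, C, c, rfl, rfl, k⟩ := ext_left h
    exact mk_congr (T.eq_of_ext_zero _ _ k)
  assoc := by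
    rintro _ _ _ X Z ⟨A, a, Y, y, B, b, rfl, rfl, rfl, h⟩ h'
    obtain ⟨C, c, D, d, rfl, rfl, k⟩ := ext_mid h'
    obtain ⟨F, h1, h2⟩ := T.assoc _ _ _ _ _ h k
    exact ⟨ob F (d.ext b h2), lf_mk c y _ h1, lf_mk d _ b h2⟩
  fac := by
    rintro _ _ _ X Z h0 ⟨A, a, Y, y, B, b, rfl, rfl, rfl, h⟩ h'
    obtain ⟨C, c, D, d, rfl, rfl, k⟩ := ext_mid h'
    obtain ⟨F, h1, h2⟩ := T.fac _ _ _ _ _ a.bd d.bd
      (Nat.le_zero.1 ((a.fs d).le.trans (le_of_eq h0))) h k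
    rw [sO_mk]
    exact ⟨ob F (c.ext a.s h1), lf_mk c _ _ h1, lf_mk _ b d h2⟩
  hom_s := Ob.ind fun A a => Ob.ind fun B b => T.hT_sh 1 0 A B
  eq_zero := Ob.ind fun A a h =>
    mk_congr (T.eq_zero A a.bd (Nat.le_zero.1 ((a.fs a).le.trans (le_of_eq h))))
  hom_zero := Ob.ind fun A a => by
    show T.hT A T.zero = 0
    simp [hT, TG.tot, T.hom_zero]
  cy := Ob.ind fun A a => Ob.ind fun B b => by
    rw [sO_mk, sO_mk]
    exact hT_cy a.bd b.bd
  sum := Ob.ind fun A a => Ob.ind fun B b => by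
    obtain ⟨Y, h1, h2, h3⟩ := T.sum A B a.bd b.bd
    have y := a.ext b h1
    exact ⟨ob Y y, lf_mk a y b h1, lf_mk b y a h2, addO a y b h3⟩
  nz_ext := by
    rintro _ _ _ ⟨A, a, Y, y, B, b, rfl, rfl, rfl, h⟩
    exact lf_mk a y b (T.nz_ext _ _ _ h)
  dich := by
    rintro _ _ _ ⟨A, a, Y, y, B, b, rfl, rfl, rfl, h⟩
    exact (T.dich _ _ _ a.bd b.bd h).imp (fun ⟨h1, h2⟩ => ⟨lf_mk b y a h1, addO a y b h2⟩)
      (lf_mk a y b)
  cone := Ob.ind fun A a => Ob.ind fun B b h => by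
    rw [sO_mk] at h
    obtain ⟨k, hk⟩ := fsum_ne ((T.hT_left B (T.s A)).symm.trans_ne h)
    obtain ⟨Y, hY⟩ := T.cone A _ hk
    have y := a.ext (b.sh _ _) (T.nz_ext _ _ _ hY)
    exact ⟨ob Y y, mk_th b k ▸ lf_mk a y _ hY⟩
  les := by
    rintro _ _ _ ⟨A, a, Y, y, B, b, rfl, rfl, rfl, h⟩
    obtain ⟨p, q, r, e⟩ := T.les _ _ _ a.bd b.bd h
    exact ⟨_, _, _, rkO a y b e⟩
  les' := by
    rintro _ _ _ ⟨A, a, Y, y, B, b, rfl, rfl, rfl, h⟩
    obtain ⟨p, q, r, e⟩ := T.les' _ _ _ a.bd b.bd h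
    exact ⟨_, _, _, rkO' a y b e⟩
  les_nz := by
    rintro _ _ _ ⟨A, a, Y, y, B, b, rfl, rfl, rfl, h⟩
    obtain ⟨p, q, r, e0, e⟩ := T.les_nz _ _ _ a.bd b.bd h
    exact ⟨_, _, _, tot_pos (b.fs b).l
      (fun k => by have := (e _ (T.bd_sh (-k) k b.bd)).2.1; omega) e0, rkO a y b e⟩
  les_nz' := by
    rintro _ _ _ ⟨A, a, Y, y, B, b, rfl, rfl, rfl, h⟩
    obtain ⟨p, q, r, e0, e⟩ := T.les_nz' _ _ _ a.bd b.bd h
    rw [sO_mk]
    exact ⟨_, _, _, tot_pos (b.fs a.s).r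
      (fun k => by have := (e _ (T.bd_sh (-k) k a.s.bd)).2.1; omega) e0, rkO' a y b e⟩
  fin := Ob.ind fun A a => Ob.ind fun B b => by
    simp only [sO_pow]
    exact (a.fs b).tot
  cl_ext := by
    rintro _ _ _ ⟨A, a, Y, y, B, b, rfl, rfl, rfl, h⟩
    exact cl_ext a b h
  euler := Ob.ind fun A a => Ob.ind fun B b => by
    simp only [sO_pow]
    exact euler a b
  hom_P v w n := by
    rw [sO_pow]
    exact hT_P v w n
  cl_P v := T.cl_P v
  gen := Ob.ind fun A a => genO a a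
  phi_ext := by
    rintro e _ _ _ ⟨A, a, Y, y, B, b, rfl, rfl, rfl, h⟩
    exact lf_mk (a.phi e) (y.phi e) (b.phi e) (T.phi_ext e _ _ _ h)
  phi_adj e := Ob.ind fun A a => Ob.ind fun B b => hT_phi e a.bd b.bd
  phi_P e v := by
    obtain ⟨l, h1, h2, h3⟩ := T.phi_P e v
    exact ⟨l, h1, h2, fltO h3 _⟩
  phi_cl e := Ob.ind fun A a w => phi_cl e a w

end GD

theorem orbit : OrbitStmt := fun _ _ _ _ _ _ _ ⟨T⟩ => ⟨T.rd⟩

end Pool.Agent.HM
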