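import Pool.Agent.Lib.MP_6d85b4_al.HM.Zig
import Pool.Agent.Lib.MP_6d85b4_al.HM.GC

set_option autoImplicit false

/-!
Fusion functors on the matrix category.
-/

namespace Pool.Agent.HM

open CategoryTheory Limits Finset

variable {k : Type} [Field k] {T F : Type} [Fintype F] [DecidableEq F]

/-- A connection on the fibres of the vertex set `T × F`. -/
structure RF (Z : ZD k (T × F)) where
  ρ : F → F → Prop
  dec : DecidableRel ρ
  c : T × F → T × F → F → F → k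
  η : F → F → k
  ε : F → F → k
  symm : ∀ a b, ρ a b → ρ b a
  supp : ∀ s t g h g' h', Z.lam (s, g) (t, h) ≠ 0 → Z.lam (s, g') (t, h') = 0 →
    c (s, g) (t, h) g' h' = 0
  funct : ∀ s t g h g₂ g', Z.lam (s, g) (t, h) ≠ 0 → Z.lam (t, h) (s, g₂) ≠ 0 → ρ g g' →
    ρ g₂ g' → (∑ h', if ρ h h' then
      c (s, g) (t, h) g' h' * c (t, h) (s, g₂) h' g' * Z.lam (s, g') (t, h') else 0) =
      if g = g₂ then Z.lam (s, g) (t, h) else 0
  eta_nat : ∀ s t g h h' h'', Z.lam (s, g) (t, h) ≠ 0 → ρ h h' → ρ h' h'' →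
    (∑ g', if ρ g g' then η g g' * (c (s, g) (t, h) g' h' * c (s, g') (t, h') g h'') else 0) =
      if h'' = h then η h h' else 0
  eps_nat : ∀ s t g h g' g'', Z.lam (s, g) (t, h) ≠ 0 → ρ g g' → ρ g' g'' →
    (∑ h', if ρ h h' then c (s, g) (t, h) g' h' * c (s, g') (t, h') g'' h * ε h h' else 0) =
      if g'' = g then ε g g' else 0
  tri : ∀ a b, ρ a b → η a b * ε b a = 1

attribute [instance] RF.dec

omit [DecidableEq F] in
lemma sum_sub {ι : Type} [Fintype ι] (P : ι × F → Prop) [DecidablePred P] (f : ι × F → k) :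
    ∑ p : {p : ι × F // P p}, f p.1 = ∑ i, ∑ a, if P (i, a) then f (i, a) else 0 := by
  rw [← Finset.sum_subtype (Finset.univ.filter P) (by simp) f, Finset.sum_filter,
    Fintype.sum_prod_type]

/-- Change of the fibre coordinate. -/
def rv (x : (T × F) × ℤ) (a : F) : (T × F) × ℤ := ((x.1.1, a), x.2)

namespace ZD

variable {I : Type} {Z : ZD k I}

lemma mu_dl {x y : I × ℤ} (z : I × ℤ) (h : x.2 = y.2) : Z.mu x y z = 1 := by simp [mu, h]

lemma mu_dr (x : I × ℤ) {y z : I × ℤ} (h : y.2 = z.2) : Z.mu x y z = 1 := by simp [mu, h]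

lemma ok_one {x y : I × ℤ} (h : Z.ok x y) (h1 : y.2 = x.2 + 1) : Z.lam x.1 y.1 ≠ 0 := by
  rcases h with ⟨h, -⟩ | ⟨-, h⟩ | ⟨h, -⟩
  · omega
  · exact h
  · omega

lemma ok_not_one {x y : I × ℤ} (h : Z.ok x y) (h1 : y.2 ≠ x.2 + 1) : x.1 = y.1 := by
  rcases h with ⟨-, h⟩ | ⟨h, -⟩ | ⟨-, h⟩
  · exact h
  · exact absurd h h1
  · exact h

end ZD

namespace RF

variable {Z : ZD k (T × F)} (W : RF Z)

/-- The coefficient of the fusion functor on a matrix entry. -/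
def kap (x y : (T × F) × ℤ) (a b : F) : k :=
  if y.2 = x.2 + 1 then W.c x.1 y.1 a b else if a = b then 1 else 0

lemma kap_one {x y : (T × F) × ℤ} (h : y.2 = x.2 + 1) (a b : F) :
    W.kap x y a b = W.c x.1 y.1 a b := if_pos h

lemma kap_not {x y : (T × F) × ℤ} (h : y.2 ≠ x.2 + 1) (a b : F) :
    W.kap x y a b = if a = b then 1 else 0 := if_neg h

lemma kap_self (x : (T × F) × ℤ) (a b : F) : W.kap x x a b = if a = b then 1 else 0 :=
  W.kap_not (by omega) a b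

lemma kap_ok {x y : (T × F) × ℤ} (h : Z.ok x y) {a b : F} (h0 : W.kap x y a b ≠ 0) :
    Z.ok (rv x a) (rv y b) := by
  by_cases h1 : y.2 = x.2 + 1
  · rw [W.kap_one h1] at h0
    refine Or.inr (Or.inl ⟨h1, fun h2 => h0 ?_⟩)
    exact W.supp x.1.1 y.1.1 x.1.2 y.1.2 a b (ZD.ok_one h h1) h2
  · rw [W.kap_not h1] at h0
    have e : a = b := by
      by_contra e
      exact h0 (if_neg e)
    subst e
    have e := ZD.ok_not_one h h1
    rcases h with ⟨h, -⟩ | ⟨h, -⟩ | ⟨h, -⟩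
    · exact Or.inl ⟨h, by simp [rv, e]⟩
    · exact absurd h h1
    · exact Or.inr (Or.inr ⟨h, by simp [rv, e]⟩)

lemma kap_comp {x y z : (T × F) × ℤ} (h1 : Z.ok x y) (h2 : Z.ok y z) {a c : F}
    (ha : W.ρ x.1.2 a) (hc : W.ρ z.1.2 c) :
    (∑ b, if W.ρ y.1.2 b then
      W.kap x y a b * W.kap y z b c * Z.mu (rv x a) (rv y b) (rv z c) else 0) =
      Z.mu x y z * W.kap x z a c := by
  rcases ZD.ok_cases h1 with rfl | l1
  · rw [Finset.sum_eq_single a]
    · rw [if_pos ha, W.kap_self, if_pos rfl, ZD.mu_left, ZD.mu_left]; ring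
    · intro b _ hb
      rw [W.kap_self, if_neg hb.symm]; simp
    · simp
  rcases ZD.ok_cases h2 with rfl | l2
  · rw [Finset.sum_eq_single c]
    · rw [if_pos hc, W.kap_self, if_pos rfl, ZD.mu_right, ZD.mu_right]; ring
    · intro b _ hb
      rw [W.kap_self, if_neg hb]; simp
    · simp
  classical
  have m1 : ∀ b, Z.mu (rv x a) (rv y b) (rv z c) =
      if (x.1.1 = z.1.1 ∧ a = c) ∧ z.2 = x.2 + 2 then Z.lam (x.1.1, a) (y.1.1, b) else 0 := by
    intro b
    simp only [ZD.mu, rv]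
    rw [if_neg (by omega)]
    exact if_congr (by simp) rfl rfl
  have m2 : Z.mu x y z =
      if (x.1.1 = z.1.1 ∧ x.1.2 = z.1.2) ∧ z.2 = x.2 + 2 then Z.lam x.1 y.1 else 0 := by
    simp only [ZD.mu]
    rw [if_neg (by omega)]
    by_cases h : x.1 = z.1 ∧ z.2 = x.2 + 2
    · rw [if_pos h, if_pos ⟨Prod.ext_iff.1 h.1, h.2⟩]
    · rw [if_neg h, if_neg (fun h' => h ⟨Prod.ext h'.1.1 h'.1.2, h'.2⟩)]
  rw [m2]
  simp only [m1]
  by_cases hd : z.2 = x.2 + 2
  swap
  · simp [hd]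
  by_cases hT : x.1.1 = z.1.1
  swap
  · simp [hT]
  rw [W.kap_not (x := x) (y := z) (by omega)]
  by_cases hac : a = c
  swap
  · simp [hac]
  subst hac
  have d1 : y.2 = x.2 + 1 := by omega
  have d2 : z.2 = y.2 + 1 := by omega
  have e1 := ZD.ok_one h1 d1
  have e2 := ZD.ok_one h2 d2
  obtain ⟨⟨s, g⟩, n⟩ := x
  obtain ⟨⟨t, h⟩, m⟩ := y
  obtain ⟨⟨s', g₂⟩, l⟩ := z
  dsimp only at *
  subst hT
  have := W.funct s t g h g₂ a e1 e2 ha hc
  simp only [kap, d1, hd, and_true, true_and, if_true, mul_one]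
  have d3 : n + 2 = n + 1 + 1 := by ring
  simp only [d3, if_true]
  convert this using 1

lemma kap_eta {x y : (T × F) × ℤ} (h : Z.ok x y) {b b' : F} (hb : W.ρ y.1.2 b) (hb' : W.ρ b b') :
    (∑ a, if W.ρ x.1.2 a then
      W.η x.1.2 a * (W.kap x y a b * W.kap (rv x a) (rv y b) x.1.2 b') else 0) =
      if b' = y.1.2 then W.η y.1.2 b else 0 := by
  by_cases h1 : y.2 = x.2 + 1
  · have e : ∀ a, W.kap (rv x a) (rv y b) x.1.2 b' = W.c (x.1.1, a) (y.1.1, b) x.1.2 b' :=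
      fun a => W.kap_one (x := rv x a) (y := rv y b) h1 _ _
    simp only [W.kap_one h1, e]
    exact W.eta_nat x.1.1 y.1.1 x.1.2 y.1.2 b b' (ZD.ok_one h h1) hb hb'
  · have e : ∀ a, W.kap (rv x a) (rv y b) x.1.2 b' = if x.1.2 = b' then 1 else 0 :=
      fun a => W.kap_not (x := rv x a) (y := rv y b) h1 _ _
    simp only [W.kap_not h1, e]
    rw [ZD.ok_not_one h h1, Finset.sum_eq_single b]
    · rw [if_pos hb]
      by_cases e : b' = y.1.2
      · simp [e]
      · simp [e, Ne.symm e]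
    · intro a _ ha; simp [ha]
    · simp

lemma kap_eps {x y : (T × F) × ℤ} (h : Z.ok x y) {a a' : F} (ha : W.ρ x.1.2 a) (ha' : W.ρ a a') :
    (∑ b, if W.ρ y.1.2 b then
      W.kap x y a b * W.kap (rv x a) (rv y b) a' y.1.2 * W.ε y.1.2 b else 0) =
      if a' = x.1.2 then W.ε x.1.2 a else 0 := by
  by_cases h1 : y.2 = x.2 + 1
  · have e : ∀ b, W.kap (rv x a) (rv y b) a' y.1.2 = W.c (x.1.1, a) (y.1.1, b) a' y.1.2 :=
      fun b => W.kap_one (x := rv x a) (y := rv y b) h1 _ _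
    simp only [W.kap_one h1, e]
    exact W.eps_nat x.1.1 y.1.1 x.1.2 y.1.2 a a' (ZD.ok_one h h1) ha ha'
  · have e : ∀ b, W.kap (rv x a) (rv y b) a' y.1.2 = if a' = y.1.2 then 1 else 0 :=
      fun b => W.kap_not (x := rv x a) (y := rv y b) h1 _ _
    simp only [W.kap_not h1, e]
    rw [← ZD.ok_not_one h h1, Finset.sum_eq_single a]
    · rw [if_pos ha]
      by_cases e : a' = x.1.2
      · simp [e]
      · simp [e]
    · intro b _ hb; simp [hb.symm]
    · simp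

/-- The fusion functor on objects. -/
def obj (X : ZC Z) : ZC Z :=
  ⟨{p : X.ι × F // W.ρ (X.v p.1).1.2 p.2}, fun p => rv (X.v p.1.1) p.1.2⟩

lemma sum_obj (X : ZC Z) (f : X.ι × F → k) :
    ∑ p : (W.obj X).ι, f p.1 = ∑ i, ∑ a, if W.ρ (X.v i).1.2 a then f (i, a) else 0 :=
  sum_sub (fun p : X.ι × F => W.ρ (X.v p.1).1.2 p.2) f

/-- The fusion functor on morphisms. -/
def map {X Y : ZC Z} (f : X ⟶ Y) : W.obj X ⟶ W.obj Y :=
  ZC.mk' (fun p q => ZC.mat f p.1.1 q.1.1 * W.kap (X.v p.1.1) (Y.v q.1.1) p.1.2 q.1.2) (by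
    intro p q h
    by_contra h0
    have h1 := mul_ne_zero_iff.1 h0
    exact h (W.kap_ok (ZC.mat_ok f h1.1) h1.2))

lemma mat_map {X Y : ZC Z} (f : X ⟶ Y) (p : (W.obj X).ι) (q : (W.obj Y).ι) :
    ZC.mat (W.map f) p q =
      ZC.mat f p.1.1 q.1.1 * W.kap (X.v p.1.1) (Y.v q.1.1) p.1.2 q.1.2 := rfl

/-- The fusion functor. -/
noncomputable def R : ZC Z ⥤ ZC Z where
  obj := W.obj
  map := W.map
  map_id X := by
    ext p q
    rw [mat_map, ZC.mat_id, ZC.mat_id]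
    obtain ⟨⟨i, a⟩, hp⟩ := p
    obtain ⟨⟨j, b⟩, hq⟩ := q
    dsimp only
    by_cases e : i = j
    · subst e
      rw [if_pos rfl, W.kap_self, one_mul]
      by_cases e : a = b
      · subst e
        rw [if_pos rfl]; exact (if_pos rfl).symm
      · rw [if_neg e]
        exact (if_neg (fun h => e (congrArg (fun p : (W.obj X).ι => p.1.2) h))).symm
    · rw [if_neg e, zero_mul]
      exact (if_neg (fun h => e (congrArg (fun p : (W.obj X).ι => p.1.1) h))).symm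
  map_comp := by
    intro X Y U f g
    ext p r
    rw [mat_map, ZC.mat_comp, ZC.mat_comp]
    refine Eq.trans ?_ (W.sum_obj Y (fun q =>
      ZC.mat f p.1.1 q.1 * W.kap (X.v p.1.1) (Y.v q.1) p.1.2 q.2 *
        (ZC.mat g q.1 r.1.1 * W.kap (Y.v q.1) (U.v r.1.1) q.2 r.1.2) *
        Z.mu (rv (X.v p.1.1) p.1.2) (rv (Y.v q.1) q.2) (rv (U.v r.1.1) r.1.2))).symm
    rw [Finset.sum_mul]
    refine Finset.sum_congr rfl fun j _ => ?_
    dsimp only
    by_cases h1 : ZC.mat f p.1.1 j = 0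
    · simp [h1]
    by_cases h2 : ZC.mat g j r.1.1 = 0
    · simp [h2]
    rw [mul_assoc, ← W.kap_comp (ZC.mat_ok f h1) (ZC.mat_ok g h2) p.2 r.2, Finset.mul_sum]
    refine Finset.sum_congr rfl fun b _ => ?_
    split_ifs
    · ring
    · simp

instance : W.R.Additive where
  map_add := by
    intro X Y f g
    ext p q
    exact add_mul _ _ _

instance : W.R.Linear k where
  map_smul := by
    intro X Y f r
    ext p q
    exact mul_assoc _ _ _

lemma kap_sv (m : ℤ) (x y : (T × F) × ℤ) (a b : F) :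
    W.kap (ZD.sv m x) (ZD.sv m y) a b = W.kap x y a b := by
  simp only [kap, ZD.sv]
  exact if_congr (by omega) rfl rfl

/-- The fusion functor commutes with the grading shift. -/
noncomputable def comm (m : ℤ) : ZC.G Z m ⋙ W.R ≅ W.R ⋙ ZC.G Z m :=
  ZC.natIsoOfEquiv (fun X => Equiv.refl (W.obj X).ι) (fun _ _ => rfl) (by
    intro X Y f p q
    exact congrArg (fun t => ZC.mat f p.1.1 q.1.1 * t) (W.kap_sv m _ _ _ _).symm)

lemma ok_rr (X : ZC Z) (q : (W.obj (W.obj X)).ι) (i : X.ι) (h : i = q.1.1.1.1 ∧ q.1.2 = (X.v i).1.2) :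
    (W.obj (W.obj X)).v q = X.v i := by
  obtain ⟨rfl, h⟩ := h
  change rv (rv (X.v q.1.1.1.1) q.1.1.1.2) q.1.2 = _
  rw [h]; rfl

/-- The unit. -/
def unit (X : ZC Z) : X ⟶ W.obj (W.obj X) :=
  ZC.mk' (fun i q => if i = q.1.1.1.1 ∧ q.1.2 = (X.v i).1.2 then W.η (X.v i).1.2 q.1.1.1.2 else 0)
    (by
      intro i q h
      refine if_neg fun e => h ?_
      rw [W.ok_rr X q i e]; exact ZD.ok_refl _)

/-- The counit. -/
def counit (X : ZC Z) : W.obj (W.obj X) ⟶ X :=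
  ZC.mk' (fun q i => if i = q.1.1.1.1 ∧ q.1.2 = (X.v i).1.2 then W.ε (X.v i).1.2 q.1.1.1.2 else 0)
    (by
      intro q i h
      refine if_neg fun e => h ?_
      rw [W.ok_rr X q i e]; exact ZD.ok_refl _)

lemma mat_unit (X : ZC Z) (i : X.ι) (q : (W.obj (W.obj X)).ι) : ZC.mat (W.unit X) i q =
    if i = q.1.1.1.1 ∧ q.1.2 = (X.v i).1.2 then W.η (X.v i).1.2 q.1.1.1.2 else 0 := rfl

lemma mat_counit (X : ZC Z) (i : X.ι) (q : (W.obj (W.obj X)).ι) : ZC.mat (W.counit X) q i =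
    if i = q.1.1.1.1 ∧ q.1.2 = (X.v i).1.2 then W.ε (X.v i).1.2 q.1.1.1.2 else 0 := rfl

lemma sum_rr (X : ZC Z) (i : X.ι) (f : X.ι → F → F → k) :
    (∑ q : (W.obj (W.obj X)).ι, if i = q.1.1.1.1 ∧ q.1.2 = (X.v i).1.2 then
      f q.1.1.1.1 q.1.1.1.2 q.1.2 else 0) =
      ∑ a, if W.ρ (X.v i).1.2 a then f i a (X.v i).1.2 else 0 := by
  refine (W.sum_obj (W.obj X) (fun q => if i = q.1.1.1 ∧ q.2 = (X.v i).1.2 then
      f q.1.1.1 q.1.1.2 q.2 else 0)).trans ?_
  refine (W.sum_obj X (fun p => ∑ b, if W.ρ p.2 b then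
      (if i = p.1 ∧ b = (X.v i).1.2 then f p.1 p.2 b else 0) else 0)).trans ?_
  rw [Finset.sum_eq_single i]
  · refine Finset.sum_congr rfl fun a _ => ?_
    split_ifs with h
    · rw [Finset.sum_eq_single (X.v i).1.2]
      · simp [W.symm _ _ h]
      · intro b _ hb; simp [hb]
      · simp
    · rfl
  · intro j _ hj
    simp [hj.symm]
  · simp

lemma unit_nat {X Y : ZC Z} (f : X ⟶ Y) : f ≫ W.unit Y = W.unit X ≫ W.map (W.map f) := by
  ext i q
  have e1 : ZC.mat (f ≫ W.unit Y) i q = ZC.mat f i q.1.1.1.1 *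
      if q.1.2 = (Y.v q.1.1.1.1).1.2 then W.η (Y.v q.1.1.1.1).1.2 q.1.1.1.2 else 0 := by
    rw [ZC.mat_comp, Finset.sum_eq_single q.1.1.1.1]
    · rw [mat_unit,
        ZD.mu_dr (y := Y.v q.1.1.1.1) (z := (W.obj (W.obj Y)).v q) _ rfl]; simp
    · intro j' _ hj
      rw [mat_unit, if_neg (fun h => hj h.1)]; simp
    · simp
  have e2 : ZC.mat (W.unit X ≫ W.map (W.map f)) i q =
      ∑ a, if W.ρ (X.v i).1.2 a then W.η (X.v i).1.2 a * (ZC.mat f i q.1.1.1.1 *
        W.kap (X.v i) (Y.v q.1.1.1.1) a q.1.1.1.2 *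
        W.kap (rv (X.v i) a) (rv (Y.v q.1.1.1.1) q.1.1.1.2) (X.v i).1.2 q.1.2) else 0 := by
    rw [← W.sum_rr X i (fun i' a a' => W.η (X.v i).1.2 a * (ZC.mat f i' q.1.1.1.1 *
        W.kap (X.v i') (Y.v q.1.1.1.1) a q.1.1.1.2 *
        W.kap (rv (X.v i') a) (rv (Y.v q.1.1.1.1) q.1.1.1.2) a' q.1.2)), ZC.mat_comp]
    refine Finset.sum_congr rfl fun p _ => ?_
    rw [mat_unit]
    split_ifs with h
    · rw [ZD.mu_dl _ (by rw [W.ok_rr X p i h]), mul_one]; rfl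
    · simp
  rw [e1, e2]
  by_cases h0 : ZC.mat f i q.1.1.1.1 = 0
  · simp [h0]
  rw [← W.kap_eta (ZC.mat_ok f h0) q.1.1.2 q.2, Finset.mul_sum]
  refine Finset.sum_congr rfl fun a _ => ?_
  split_ifs
  · ring
  · simp

lemma counit_nat {X Y : ZC Z} (f : X ⟶ Y) :
    W.map (W.map f) ≫ W.counit Y = W.counit X ≫ f := by
  ext p j
  have e1 : ZC.mat (W.counit X ≫ f) p j = ZC.mat f p.1.1.1.1 j *
      if p.1.2 = (X.v p.1.1.1.1).1.2 then W.ε (X.v p.1.1.1.1).1.2 p.1.1.1.2 else 0 := by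
    rw [ZC.mat_comp, Finset.sum_eq_single p.1.1.1.1]
    · rw [mat_counit,
        ZD.mu_dl (x := (W.obj (W.obj X)).v p) (y := X.v p.1.1.1.1) _ rfl]; simp [mul_comm]
    · intro i' _ hi
      rw [mat_counit, if_neg (fun h => hi h.1)]; simp
    · simp
  have e2 : ZC.mat (W.map (W.map f) ≫ W.counit Y) p j =
      ∑ b, if W.ρ (Y.v j).1.2 b then (ZC.mat f p.1.1.1.1 j *
        W.kap (X.v p.1.1.1.1) (Y.v j) p.1.1.1.2 b *
        W.kap (rv (X.v p.1.1.1.1) p.1.1.1.2) (rv (Y.v j) b) p.1.2 (Y.v j).1.2) *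
        W.ε (Y.v j).1.2 b else 0 := by
    rw [← W.sum_rr Y j (fun j' b b' => (ZC.mat f p.1.1.1.1 j' *
        W.kap (X.v p.1.1.1.1) (Y.v j') p.1.1.1.2 b *
        W.kap (rv (X.v p.1.1.1.1) p.1.1.1.2) (rv (Y.v j') b) p.1.2 b') *
        W.ε (Y.v j).1.2 b), ZC.mat_comp]
    refine Finset.sum_congr rfl fun q _ => ?_
    rw [mat_counit]
    split_ifs with h
    · rw [ZD.mu_dr _ (by rw [W.ok_rr Y q j h]), mul_one]; rfl
    · simp
  rw [e1, e2]
  by_cases h0 : ZC.mat f p.1.1.1.1 j = 0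
  · simp [h0]
  rw [← W.kap_eps (ZC.mat_ok f h0) p.1.1.2 p.2, Finset.mul_sum]
  refine Finset.sum_congr rfl fun b _ => ?_
  split_ifs
  · ring
  · simp

lemma tri_id (X : ZC Z) : W.map (W.unit X) ≫ W.counit (W.obj X) = 𝟙 (W.obj X) := by
  ext p r
  have e2 : ZC.mat (W.map (W.unit X) ≫ W.counit (W.obj X)) p r =
      ∑ c, if W.ρ r.1.2 c then
        ((if p.1.1 = r.1.1 ∧ c = (X.v p.1.1).1.2 then W.η (X.v p.1.1).1.2 r.1.2 else 0) *
        (if p.1.2 = r.1.2 then 1 else 0)) * W.ε r.1.2 c else 0 := by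
    refine Eq.trans ?_ (W.sum_rr (W.obj X) r (fun r' c a =>
      ((if p.1.1 = r'.1.1 ∧ c = (X.v p.1.1).1.2 then W.η (X.v p.1.1).1.2 r'.1.2 else 0) *
        (if p.1.2 = a then 1 else 0)) * W.ε r.1.2 c))
    rw [ZC.mat_comp]
    refine Finset.sum_congr rfl fun q _ => ?_
    rw [mat_counit]
    by_cases h : r = q.1.1.1.1 ∧ q.1.2 = ((W.obj X).v r).1.2
    · rw [if_pos h, if_pos h, ZD.mu_dr _ (by rw [W.ok_rr _ q r h]), mul_one, mat_map, mat_unit]
      by_cases h' : p.1.1 = q.1.1.1.1.1.1 ∧ q.1.1.1.2 = (X.v p.1.1).1.2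
      · rw [W.ok_rr X q.1.1 p.1.1 h', W.kap_self]; rfl
      · rw [if_neg h']; simp
    · rw [if_neg h, if_neg h]; simp
  rw [e2, ZC.mat_id, Finset.sum_eq_single (X.v p.1.1).1.2]
  · by_cases e : p = r
    · subst e
      rw [if_pos (W.symm _ _ p.2), if_pos ⟨rfl, rfl⟩, if_pos rfl, mul_one, W.tri _ _ p.2,
        if_pos rfl]
    · rw [if_neg e]
      by_cases e1 : p.1.1 = r.1.1
      · rw [if_neg (fun e2 : p.1.2 = r.1.2 => e (Subtype.ext (Prod.ext e1 e2)))]; simp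
      · rw [if_neg (fun h : p.1.1 = r.1.1 ∧ _ => e1 h.1)]; simp
  · intro c _ hc
    simp [hc]
  · simp

end RF

/-- The graded structure on the matrix category. -/
noncomputable def ZC.gc {I : Type} (Z : ZD k I) : GC k (ZC Z) where
  G := ZC.G Z
  add := inferInstance
  lin := inferInstance
  full := inferInstance
  faithful := inferInstance
  G0 := ZC.G0 Z
  Gadd := ZC.Gadd Z
  fd := ZC.finite_hom
  tr := ZC.tr
  cyc := ZC.tr_cyc
  nd := ZC.tr_nd

/-- The fusion functor with its unit and counit. -/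
noncomputable def RF.fn {Z : ZD k (T × F)} (W : RF Z) : (ZC.gc Z).Fn where
  R := W.R
  add := inferInstance
  lin := inferInstance
  comm := W.comm
  η := { app := W.unit, naturality := fun _ _ f => W.unit_nat f }
  ε := { app := W.counit, naturality := fun _ _ f => W.counit_nat f }
  tri := W.tri_id

open ZeroObject in
lemma ZC.iso_lsum {I A : Type} [DecidableEq A] {Z : ZD k I} (x : A → I × ℤ) (l : List A)
    (hl : l.Nodup) (X : ZC Z) (e : X.ι ≃ {a : A // a ∈ l}) (he : ∀ i, X.v i = x (e i).1) :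
    Nonempty (X ≅ lsum (l.map fun a => ZC.pt Z (x a))) := by
  induction l generalizing X with
  | nil =>
    have : IsEmpty X.ι := ⟨fun i => by simpa using (e i).2⟩
    exact ⟨(ZC.isZero_of_isEmpty X).iso (isZero_zero _)⟩
  | cons a l ih =>
    rw [List.nodup_cons] at hl
    let Y : ZC Z := ⟨{b : A // b ∈ l}, fun b => x b.1⟩
    obtain ⟨i1⟩ := ih hl.2 Y (Equiv.refl _) (fun _ => rfl)
    let e' : Unit ⊕ {b : A // b ∈ l} ≃ {b : A // b ∈ a :: l} :=
      { toFun := Sum.elim (fun _ => ⟨a, List.mem_cons_self⟩)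
          (fun b => ⟨b.1, List.mem_cons_of_mem _ b.2⟩)
        invFun := fun b => if h : b.1 = a then Sum.inl () else
          Sum.inr ⟨b.1, (List.mem_cons.1 b.2).resolve_left h⟩
        left_inv := by
          rintro (_ | b)
          · simp
          · have : b.1 ≠ a := fun h => hl.1 (h ▸ b.2)
            simp [this]
        right_inv := by
          intro b
          by_cases h : b.1 = a
          · simp only [h, dif_pos, Sum.elim_inl]; exact Subtype.ext h.symm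
          · simp [h] }
    have i2 : ZC.sum (ZC.pt Z (x a)) Y ≅ X :=
      ZC.isoOfEquiv (X := ZC.sum (ZC.pt Z (x a)) Y) (e'.trans e.symm) (by
        intro i
        rw [he]
        rcases i with _ | b
        · exact congrArg (fun t => x t.1) (e.apply_symm_apply _)
        · exact congrArg (fun t => x t.1) (e.apply_symm_apply _))
    exact ⟨i2.symm ≪≫ (biprod.uniqueUpToIso _ _ (ZC.isBilimit (ZC.pt Z (x a)) Y)) ≪≫
      biprod.mapIso (Iso.refl _) i1⟩

end Pool.Agent.HM
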