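import Mathlib

set_option autoImplicit false

/-!
The additive category of graded projective modules over a zigzag algebra, as matrices.
-/

namespace Pool.Agent.HM

open CategoryTheory Limits Finset

/-- Structure constants of a symmetric zigzag algebra on the vertex set `I`. -/
structure ZD (k : Type) [Field k] (I : Type) where
  lam : I → I → k
  w : I → k
  w_ne : ∀ a, w a ≠ 0
  sym : ∀ a b, w a * lam a b = w b * lam b a

namespace ZD

variable {k : Type} [Field k] {I : Type} (Z : ZD k I)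

/-- Positions where a matrix entry may be non zero. -/
def ok (x y : I × ℤ) : Prop :=
  (y.2 = x.2 ∧ x.1 = y.1) ∨ (y.2 = x.2 + 1 ∧ Z.lam x.1 y.1 ≠ 0) ∨ (y.2 = x.2 + 2 ∧ x.1 = y.1)

open Classical in
/-- Multiplication constants. -/
noncomputable def mu (x y z : I × ℤ) : k :=
  if x.2 = y.2 ∨ y.2 = z.2 then 1 else
    if x.1 = z.1 ∧ z.2 = x.2 + 2 then Z.lam x.1 y.1 else 0

variable {Z}

lemma lam_ne {a b : I} (h : Z.lam a b ≠ 0) : Z.lam b a ≠ 0 := by
  intro h0
  have := Z.sym a b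
  rw [h0, mul_zero] at this
  exact (mul_ne_zero (Z.w_ne a) h) this

lemma ok_refl (x : I × ℤ) : Z.ok x x := Or.inl ⟨rfl, rfl⟩

lemma mu_left (x z : I × ℤ) : Z.mu x x z = 1 := by simp [mu]

lemma mu_right (x z : I × ℤ) : Z.mu x z z = 1 := by simp [mu]

lemma ok_comp {x y z : I × ℤ} (h1 : Z.ok x y) (h2 : Z.ok y z) (h : Z.mu x y z ≠ 0) :
    Z.ok x z := by
  obtain ⟨a, n⟩ := x
  obtain ⟨b, m⟩ := y
  obtain ⟨c, l⟩ := z
  simp only [ok, mu] at *
  by_cases h3 : n = m ∨ m = l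
  · rcases h3 with rfl | rfl
    · rcases h1 with ⟨-, rfl⟩ | ⟨h1, -⟩ | ⟨h1, -⟩
      · exact h2
      · omega
      · omega
    · rcases h2 with ⟨-, rfl⟩ | ⟨h2, -⟩ | ⟨h2, -⟩
      · exact h1
      · omega
      · omega
  · rw [if_neg h3] at h
    by_cases h4 : a = c ∧ l = n + 2
    · exact Or.inr (Or.inr ⟨h4.2, h4.1⟩)
    · rw [if_neg h4] at h; exact absurd rfl h

lemma ok_cases {x y : I × ℤ} (h : Z.ok x y) : x = y ∨ x.2 < y.2 := by
  rcases h with ⟨h1, h2⟩ | ⟨h1, -⟩ | ⟨h1, -⟩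
  · exact Or.inl (Prod.ext h2 h1.symm)
  · right; omega
  · right; omega

lemma mu_assoc {x y z t : I × ℤ} (h1 : Z.ok x y) (h2 : Z.ok y z) (h3 : Z.ok z t) :
    Z.mu x y z * Z.mu x z t = Z.mu y z t * Z.mu x y t := by
  rcases ok_cases h1 with rfl | h1
  · simp [mu_left]
  rcases ok_cases h2 with rfl | h2
  · simp [mu_left, mu_right]
  rcases ok_cases h3 with rfl | h3
  · simp [mu_right]
  have e1 : Z.mu x z t = 0 := by
    simp only [mu]
    rw [if_neg (by omega), if_neg (by omega)]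
  have e2 : Z.mu x y t = 0 := by
    simp only [mu]
    rw [if_neg (by omega), if_neg (by omega)]
  rw [e1, e2, mul_zero, mul_zero]

/-- The grading shift on vertices. -/
def sv (m : ℤ) (x : I × ℤ) : I × ℤ := (x.1, x.2 + m)

lemma ok_sv (m : ℤ) {x y : I × ℤ} : Z.ok (sv m x) (sv m y) ↔ Z.ok x y := by
  simp only [ok, sv]
  constructor <;> rintro (⟨h1, h2⟩ | ⟨h1, h2⟩ | ⟨h1, h2⟩)
  · exact Or.inl ⟨by omega, h2⟩
  · exact Or.inr (Or.inl ⟨by omega, h2⟩)
  · exact Or.inr (Or.inr ⟨by omega, h2⟩)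
  · exact Or.inl ⟨by omega, h2⟩
  · exact Or.inr (Or.inl ⟨by omega, h2⟩)
  · exact Or.inr (Or.inr ⟨by omega, h2⟩)

lemma mu_sv (m : ℤ) (x y z : I × ℤ) : Z.mu (sv m x) (sv m y) (sv m z) = Z.mu x y z := by
  simp only [mu, sv]
  have e1 : (x.2 + m = y.2 + m ∨ y.2 + m = z.2 + m) ↔ (x.2 = y.2 ∨ y.2 = z.2) := by omega
  have e2 : (x.1 = z.1 ∧ z.2 + m = x.2 + m + 2) ↔ (x.1 = z.1 ∧ z.2 = x.2 + 2) :=
    and_congr Iff.rfl (by omega)
  classical
  exact if_congr e1 rfl (if_congr e2 rfl rfl)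

lemma ok_dual {x y : I × ℤ} : Z.ok y (sv 2 x) ↔ Z.ok x y := by
  simp only [ok, sv]
  constructor <;> rintro (⟨h1, h2⟩ | ⟨h1, h2⟩ | ⟨h1, h2⟩)
  · exact Or.inr (Or.inr ⟨by omega, h2.symm⟩)
  · exact Or.inr (Or.inl ⟨by omega, lam_ne h2⟩)
  · exact Or.inl ⟨by omega, h2.symm⟩
  · exact Or.inr (Or.inr ⟨by omega, h2.symm⟩)
  · exact Or.inr (Or.inl ⟨by omega, lam_ne h2⟩)
  · exact Or.inl ⟨by omega, h2.symm⟩

lemma mu_cyc {x y : I × ℤ} (h : Z.ok x y) :
    Z.w x.1 * Z.mu x y (sv 2 x) = Z.w y.1 * Z.mu y (sv 2 x) (sv 2 y) := by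
  obtain ⟨a, n⟩ := x
  obtain ⟨b, m⟩ := y
  simp only [ok, mu, sv] at *
  rcases h with ⟨rfl, rfl⟩ | ⟨rfl, -⟩ | ⟨rfl, rfl⟩
  · simp
  · rw [if_neg (by omega), if_pos (by simp), if_neg (by omega), if_pos (by simp)]
    exact Z.sym a b
  · simp

lemma mu_ne {x y : I × ℤ} (h : Z.ok x y) : Z.mu x y (sv 2 x) ≠ 0 := by
  obtain ⟨a, n⟩ := x
  obtain ⟨b, m⟩ := y
  simp only [ok, mu, sv] at *
  rcases h with ⟨rfl, rfl⟩ | ⟨rfl, h⟩ | ⟨rfl, rfl⟩
  · simp
  · rw [if_neg (by omega), if_pos (by simp)]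
    exact h
  · simp

end ZD

variable {k : Type} [Field k] {I : Type}

/-- Objects: finite families of graded vertices. -/
structure ZC (Z : ZD k I) : Type 1 where
  ι : Type
  [fin : Fintype ι]
  [dec : DecidableEq ι]
  v : ι → I × ℤ

attribute [instance] ZC.fin ZC.dec

namespace ZC

variable {Z : ZD k I}

/-- Morphisms: matrices supported on admissible positions. -/
def Hm (X Y : ZC Z) : Submodule k (X.ι → Y.ι → k) where
  carrier := {f | ∀ i j, ¬ Z.ok (X.v i) (Y.v j) → f i j = 0}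
  add_mem' := by
    intro f g hf hg i j h
    simp [hf i j h, hg i j h]
  zero_mem' := by intro i j _; rfl
  smul_mem' := by
    intro c f hf i j h
    simp [hf i j h]

lemma ok_of_ne {X Y : ZC Z} (f : Hm X Y) {i : X.ι} {j : Y.ι} (h : f.1 i j ≠ 0) :
    Z.ok (X.v i) (Y.v j) := by
  by_contra h'
  exact h (f.2 i j h')

/-- Composition of matrices. -/
noncomputable def cmp {X Y W : ZC Z} (f : Hm X Y) (g : Hm Y W) : Hm X W :=
  ⟨fun i l => ∑ j, f.1 i j * g.1 j l * Z.mu (X.v i) (Y.v j) (W.v l), by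
    intro i l h
    refine Finset.sum_eq_zero fun j _ => ?_
    by_contra h0
    have h1 := mul_ne_zero_iff.1 h0
    have h2 := mul_ne_zero_iff.1 h1.1
    exact h (ZD.ok_comp (ok_of_ne f h2.1) (ok_of_ne g h2.2) h1.2)⟩

/-- The identity matrix. -/
def one (X : ZC Z) : Hm X X :=
  ⟨fun i j => if i = j then 1 else 0, by
    intro i j h
    by_cases e : i = j
    · subst e; exact absurd (ZD.ok_refl _) h
    · simp [e]⟩

noncomputable instance : Category.{0} (ZC Z) where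
  Hom X Y := Hm X Y
  id X := one X
  comp f g := cmp f g
  id_comp f := by
    apply Subtype.ext
    funext i l
    simp [cmp, one, ZD.mu_left]
  comp_id f := by
    apply Subtype.ext
    funext i l
    simp [cmp, one, ZD.mu_right]
  assoc := by
    intro X Y W U f g h
    apply Subtype.ext
    funext i l
    simp only [cmp, Finset.sum_mul, Finset.mul_sum]
    rw [Finset.sum_comm]
    refine Finset.sum_congr rfl fun j _ => Finset.sum_congr rfl fun p _ => ?_
    by_cases h1 : f.1 i j = 0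
    · simp [h1]
    by_cases h2 : g.1 j p = 0
    · simp [h2]
    by_cases h3 : h.1 p l = 0
    · simp [h3]
    have := ZD.mu_assoc (ok_of_ne f h1) (ok_of_ne g h2) (ok_of_ne h h3)
    linear_combination (f.1 i j * g.1 j p * h.1 p l) * this

/-- The matrix of a morphism. -/
def mat {X Y : ZC Z} (f : X ⟶ Y) : X.ι → Y.ι → k := Subtype.val f

/-- A morphism from a matrix. -/
def mk' {X Y : ZC Z} (f : X.ι → Y.ι → k) (h : ∀ i j, ¬ Z.ok (X.v i) (Y.v j) → f i j = 0) :
    X ⟶ Y := (⟨f, h⟩ : Hm X Y)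

@[simp] lemma mat_mk' {X Y : ZC Z} (f : X.ι → Y.ι → k)
    (h : ∀ i j, ¬ Z.ok (X.v i) (Y.v j) → f i j = 0) : mat (mk' f h) = f := rfl

@[ext] lemma hom_ext {X Y : ZC Z} {f g : X ⟶ Y} (h : ∀ i j, mat f i j = mat g i j) : f = g :=
  Subtype.ext (funext fun i => funext fun j => h i j)

lemma mat_ok {X Y : ZC Z} (f : X ⟶ Y) {i : X.ι} {j : Y.ι} (h : mat f i j ≠ 0) :
    Z.ok (X.v i) (Y.v j) := ok_of_ne f h

lemma mat_eq_zero {X Y : ZC Z} (f : X ⟶ Y) {i : X.ι} {j : Y.ι} (h : ¬ Z.ok (X.v i) (Y.v j)) :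
    mat f i j = 0 := Subtype.property (p := fun f => f ∈ Hm X Y) f i j h

@[simp] lemma mat_id (X : ZC Z) (i j : X.ι) : mat (𝟙 X) i j = if i = j then 1 else 0 := rfl

lemma mat_comp {X Y W : ZC Z} (f : X ⟶ Y) (g : Y ⟶ W) (i : X.ι) (l : W.ι) :
    mat (f ≫ g) i l = ∑ j, mat f i j * mat g j l * Z.mu (X.v i) (Y.v j) (W.v l) := rfl

noncomputable instance (X Y : ZC Z) : AddCommGroup (X ⟶ Y) :=
  inferInstanceAs (AddCommGroup (Hm X Y))

noncomputable instance (X Y : ZC Z) : Module k (X ⟶ Y) :=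
  inferInstanceAs (Module k (Hm X Y))

@[simp] lemma mat_add {X Y : ZC Z} (f g : X ⟶ Y) (i : X.ι) (j : Y.ι) :
    mat (f + g) i j = mat f i j + mat g i j := rfl

@[simp] lemma mat_zero {X Y : ZC Z} (i : X.ι) (j : Y.ι) : mat (0 : X ⟶ Y) i j = 0 := rfl

@[simp] lemma mat_smul {X Y : ZC Z} (c : k) (f : X ⟶ Y) (i : X.ι) (j : Y.ι) :
    mat (c • f) i j = c * mat f i j := rfl

noncomputable instance : Preadditive (ZC Z) where
  homGroup X Y := inferInstance
  add_comp := by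
    intro X Y W f f' g
    ext i l
    simp [mat_comp, add_mul, Finset.sum_add_distrib]
  comp_add := by
    intro X Y W f g g'
    ext i l
    simp [mat_comp, add_mul, mul_add, Finset.sum_add_distrib]

noncomputable instance : Linear k (ZC Z) where
  homModule X Y := inferInstance
  smul_comp := by
    intro X Y W c f g
    ext i l
    simp [mat_comp, Finset.mul_sum, mul_assoc]
  comp_smul := by
    intro X Y W f c g
    ext i l
    simp only [mat_comp, mat_smul, Finset.mul_sum]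
    refine Finset.sum_congr rfl fun j _ => by ring

instance finite_hom (X Y : ZC Z) : Module.Finite k (X ⟶ Y) :=
  inferInstanceAs (Module.Finite k (Hm X Y))

lemma isZero_of_isEmpty (X : ZC Z) [IsEmpty X.ι] : IsZero X := by
  rw [IsZero.iff_id_eq_zero]
  ext i j
  exact isEmptyElim i

instance : HasZeroObject (ZC Z) :=
  ⟨⟨⟨PEmpty, fun i => i.elim⟩, isZero_of_isEmpty (X := ⟨PEmpty, fun i => i.elim⟩)⟩⟩

/-- A morphism given by a degree zero partial matching: entry one when `r i j`. -/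
def ind {X Y : ZC Z} (r : X.ι → Y.ι → Prop) [∀ i j, Decidable (r i j)]
    (h : ∀ i j, r i j → X.v i = Y.v j) : X ⟶ Y :=
  mk' (fun i j => if r i j then 1 else 0) (by
    intro i j h'
    by_cases e : r i j
    · rw [h i j e] at h'; exact absurd (ZD.ok_refl _) h'
    · simp [e])

/-- The morphism induced by a map of index sets. -/
def inc {X Y : ZC Z} (e : X.ι → Y.ι) (h : ∀ i, Y.v (e i) = X.v i) : X ⟶ Y :=
  ind (fun i j => e i = j) (by rintro i j rfl; exact (h i).symm)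

/-- The transposed morphism. -/
def prj {X Y : ZC Z} (e : X.ι → Y.ι) (h : ∀ i, Y.v (e i) = X.v i) : Y ⟶ X :=
  ind (fun j i => e i = j) (by rintro j i rfl; exact h i)

lemma mat_inc {X Y : ZC Z} (e : X.ι → Y.ι) (h : ∀ i, Y.v (e i) = X.v i) (i : X.ι) (j : Y.ι) :
    mat (inc e h) i j = if e i = j then 1 else 0 := rfl

lemma mat_prj {X Y : ZC Z} (e : X.ι → Y.ι) (h : ∀ i, Y.v (e i) = X.v i) (j : Y.ι) (i : X.ι) :
    mat (prj e h) j i = if e i = j then 1 else 0 := rfl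

lemma mat_inc_comp {X Y W : ZC Z} (e : X.ι → Y.ι) (h : ∀ i, Y.v (e i) = X.v i) (g : Y ⟶ W)
    (i : X.ι) (l : W.ι) : mat (inc e h ≫ g) i l = mat g (e i) l := by
  rw [mat_comp, Finset.sum_eq_single (e i)]
  · simp [mat_inc, h, ZD.mu_left]
  · intro j _ hj
    simp [mat_inc, hj.symm]
  · simp

lemma mat_comp_prj {X Y W : ZC Z} (e : X.ι → Y.ι) (h : ∀ i, Y.v (e i) = X.v i) (g : W ⟶ Y)
    (l : W.ι) (i : X.ι) : mat (g ≫ prj e h) l i = mat g l (e i) := by
  rw [mat_comp, Finset.sum_eq_single (e i)]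
  · simp [mat_prj, h, ZD.mu_right]
  · intro j _ hj
    simp [mat_prj, hj.symm]
  · simp

/-- Reindexing. -/
noncomputable def isoOfEquiv {X Y : ZC Z} (e : X.ι ≃ Y.ι) (h : ∀ i, Y.v (e i) = X.v i) :
    X ≅ Y where
  hom := inc e h
  inv := prj e h
  hom_inv_id := by
    ext i j
    rw [mat_inc_comp, mat_prj]
    simp [eq_comm]
  inv_hom_id := by
    ext i j
    obtain ⟨i, rfl⟩ := e.surjective i
    rw [mat_comp, Finset.sum_eq_single i]
    · simp [mat_prj, mat_inc, h, ZD.mu_left]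
    · intro l _ hl
      simp [mat_prj, hl]
    · simp

/-- The direct sum. -/
def sum (X Y : ZC Z) : ZC Z := ⟨X.ι ⊕ Y.ι, Sum.elim X.v Y.v⟩

/-- The bicone of the direct sum. -/
noncomputable def bicone (X Y : ZC Z) : BinaryBicone X Y where
  pt := sum X Y
  fst := prj (Y := sum X Y) Sum.inl (fun _ => rfl)
  snd := prj (Y := sum X Y) Sum.inr (fun _ => rfl)
  inl := inc (Y := sum X Y) Sum.inl (fun _ => rfl)
  inr := inc (Y := sum X Y) Sum.inr (fun _ => rfl)
  inl_fst := by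
    ext i j
    rw [mat_inc_comp, mat_prj, mat_id]
    by_cases h : i = j
    · subst h; simp
    · rw [if_neg h]; exact if_neg (fun h' => h (Sum.inl.inj h').symm)
  inl_snd := by
    ext i j
    rw [mat_inc_comp, mat_prj]
    simp
  inr_fst := by
    ext i j
    rw [mat_inc_comp, mat_prj]
    simp
  inr_snd := by
    ext i j
    rw [mat_inc_comp, mat_prj, mat_id]
    by_cases h : i = j
    · subst h; simp
    · rw [if_neg h]; exact if_neg (fun h' => h (Sum.inr.inj h').symm)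

lemma bicone_total (X Y : ZC Z) :
    (bicone X Y).fst ≫ (bicone X Y).inl + (bicone X Y).snd ≫ (bicone X Y).inr =
      𝟙 (bicone X Y).pt := by
  ext i j
  rw [mat_add, mat_comp, mat_comp, mat_id]
  rcases i with i | i <;> rcases j with j | j
  · simp [bicone, mat_prj, mat_inc, sum, ZD.mu_right, eq_comm]
  · simp [bicone, mat_prj, mat_inc, sum]
  · simp [bicone, mat_prj, mat_inc, sum]
  · simp [bicone, mat_prj, mat_inc, sum, ZD.mu_right, eq_comm]

/-- The direct sum is a biproduct. -/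
noncomputable def isBilimit (X Y : ZC Z) : (bicone X Y).IsBilimit :=
  isBinaryBilimitOfTotal _ (bicone_total X Y)

instance : HasBinaryBiproducts (ZC Z) :=
  ⟨fun X Y => HasBinaryBiproduct.mk ⟨bicone X Y, isBilimit X Y⟩⟩

/-- The grading shift. -/
noncomputable def G (Z : ZD k I) (m : ℤ) : ZC Z ⥤ ZC Z where
  obj X := ⟨X.ι, fun i => ZD.sv m (X.v i)⟩
  map {X Y} f := mk' (fun i j => mat (X := X) (Y := Y) f i j)
    (fun i j h => mat_eq_zero (X := X) (Y := Y) f (fun h' => h ((ZD.ok_sv m).2 h')))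
  map_id X := rfl
  map_comp f g := by
    ext i l
    simp only [mat_mk', mat_comp, ZD.mu_sv]

@[simp] lemma mat_G (m : ℤ) {X Y : ZC Z} (f : X ⟶ Y) (i : X.ι) (j : Y.ι) :
    mat ((G Z m).map f) i j = mat f i j := rfl

instance (m : ℤ) : (G Z m).Additive where
  map_add := rfl

instance (m : ℤ) : (G Z m).Linear k where
  map_smul _ _ := rfl

instance (m : ℤ) : (G Z m).Faithful where
  map_injective := by
    intro X Y f g h
    ext i j
    exact congrFun (congrFun (congrArg mat h) i) j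

instance (m : ℤ) : (G Z m).Full where
  map_surjective := by
    intro X Y f
    exact ⟨mk' (fun i j => mat f i j)
      (fun i j h => mat_eq_zero f (fun h' => h ((ZD.ok_sv m).1 h'))), rfl⟩

/-- A natural isomorphism between functors given by reindexing. -/
noncomputable def natIsoOfEquiv {F F' : ZC Z ⥤ ZC Z} (e : ∀ X, (F.obj X).ι ≃ (F'.obj X).ι)
    (h : ∀ X i, (F'.obj X).v (e X i) = (F.obj X).v i)
    (hm : ∀ (X Y : ZC Z) (f : X ⟶ Y) i j, mat (F'.map f) (e X i) (e Y j) = mat (F.map f) i j) :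
    F ≅ F' :=
  NatIso.ofComponents (fun X => isoOfEquiv (e X) (h X)) (by
    intro X Y f
    rw [← Iso.eq_comp_inv, Category.assoc]
    ext i j
    change _ = mat (inc (e X) (h X) ≫ F'.map f ≫ prj (e Y) (h Y)) i j
    rw [mat_inc_comp, mat_comp_prj, hm])

/-- The shift by zero. -/
noncomputable def G0 (Z : ZD k I) : G Z 0 ≅ 𝟭 (ZC Z) :=
  natIsoOfEquiv (fun X => Equiv.refl X.ι) (fun _ _ => Prod.ext rfl (add_zero _).symm)
    (fun _ _ _ _ _ => rfl)

/-- Additivity of the shift. -/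
noncomputable def Gadd (Z : ZD k I) (m n : ℤ) : G Z n ⋙ G Z m ≅ G Z (m + n) :=
  natIsoOfEquiv (fun X => Equiv.refl X.ι)
    (fun X i => Prod.ext rfl (by
      change (X.v i).2 + (m + n) = (X.v i).2 + n + m
      ring))
    (fun _ _ _ _ _ => rfl)

lemma van (X Y : ZC Z) : ∃ M : ℕ, ∀ m : ℤ, (M : ℤ) < |m| → ∀ f : (G Z m).obj X ⟶ Y, f = 0 := by
  obtain ⟨M, hM⟩ := Finite.exists_le
    (fun p : X.ι × Y.ι => ((Y.v p.2).2 - (X.v p.1).2).natAbs)
  refine ⟨M + 2, fun m hm f => ?_⟩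
  ext i j
  refine mat_eq_zero f ?_
  have h1 := hM (i, j)
  simp only at h1
  intro h
  have h2 : (M : ℤ) + 2 < m ∨ m < -((M : ℤ) + 2) := by
    push_cast at hm
    rcases lt_abs.1 hm with h | h
    · left; omega
    · right; omega
  rcases h with ⟨h, -⟩ | ⟨h, -⟩ | ⟨h, -⟩ <;> simp only [G, ZD.sv] at h <;> omega

/-- The trace. -/
noncomputable def tr (X : ZC Z) : (X ⟶ (G Z 2).obj X) →ₗ[k] k where
  toFun u := ∑ i, Z.w (X.v i).1 * mat u i i
  map_add' u v := by simp [mul_add, Finset.sum_add_distrib]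
  map_smul' c u := by
    simp only [mat_smul, RingHom.id_apply, smul_eq_mul, Finset.mul_sum]
    exact Finset.sum_congr rfl fun i _ => by ring

lemma tr_apply (X : ZC Z) (u : X ⟶ (G Z 2).obj X) :
    tr X u = ∑ i, Z.w (X.v i).1 * mat u i i := rfl

lemma tr_comp {X Y : ZC Z} (u : X ⟶ Y) (v : Y ⟶ (G Z 2).obj X) :
    tr X (u ≫ v) = ∑ i, ∑ j, mat u i j * mat v j i *
      (Z.w (X.v i).1 * Z.mu (X.v i) (Y.v j) (ZD.sv 2 (X.v i))) := by
  rw [tr_apply]
  refine Finset.sum_congr rfl fun i _ => ?_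
  rw [mat_comp, Finset.mul_sum]
  refine Finset.sum_congr rfl fun j _ => ?_
  change _ * (_ * Z.mu (X.v i) (Y.v j) (ZD.sv 2 (X.v i))) = _
  ring

lemma tr_cyc (X Y : ZC Z) (u : X ⟶ Y) (v : Y ⟶ (G Z 2).obj X) :
    tr X (u ≫ v) = tr Y (v ≫ (G Z 2).map u) := by
  rw [tr_comp, tr_apply, Finset.sum_comm]
  refine Finset.sum_congr rfl fun j _ => ?_
  rw [mat_comp, Finset.mul_sum]
  refine Finset.sum_congr rfl fun i _ => ?_
  change _ = _ * (mat v j i * mat u i j * Z.mu (Y.v j) (ZD.sv 2 (X.v i)) (ZD.sv 2 (Y.v j)))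
  by_cases h : mat u i j = 0
  · simp [h]
  · rw [ZD.mu_cyc (mat_ok u h)]; ring

lemma tr_nd (X Y : ZC Z) (v : Y ⟶ (G Z 2).obj X) (h : ∀ u : X ⟶ Y, tr X (u ≫ v) = 0) :
    v = 0 := by
  ext j (i : X.ι)
  by_contra h0
  have h1 : Z.ok (X.v i) (Y.v j) := ZD.ok_dual.1 (mat_ok v h0)
  have h2 := h (mk' (fun i' j' => if i' = i ∧ j' = j then 1 else 0) (by
    intro i' j' h'
    by_cases e : i' = i ∧ j' = j
    · obtain ⟨rfl, rfl⟩ := e; exact absurd h1 h'
    · simp [e]))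
  rw [tr_comp, Finset.sum_eq_single i, Finset.sum_eq_single j] at h2
  · simp only [mat_mk', and_self, if_true, one_mul] at h2
    exact mul_ne_zero h0 (mul_ne_zero (Z.w_ne _) (ZD.mu_ne h1)) h2
  · intro j' _ hj; simp [hj]
  · simp
  · intro i' _ hi; simp [hi]
  · simp

/-- The indecomposable object at a graded vertex. -/
def pt (Z : ZD k I) (x : I × ℤ) : ZC Z := ⟨Unit, fun _ => x⟩

open Classical in
lemma finrank_pt (x y : I × ℤ) :
    Module.finrank k (pt Z x ⟶ pt Z y) = if Z.ok x y then 1 else 0 := by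
  split_ifs with h
  · let e : (pt Z x ⟶ pt Z y) ≃ₗ[k] k :=
      { toFun := fun f => mat f () ()
        map_add' := fun _ _ => rfl
        map_smul' := fun _ _ => rfl
        invFun := fun c => mk' (fun _ _ => c) (fun _ _ h' => absurd h h')
        left_inv := fun f => rfl
        right_inv := fun c => rfl }
    rw [e.finrank_eq, Module.finrank_self]
  · have : Subsingleton (pt Z x ⟶ pt Z y) := ⟨fun f g => by
      ext i j
      rw [mat_eq_zero f h, mat_eq_zero g h]⟩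
    exact Module.finrank_zero_of_subsingleton

end ZC

end Pool.Agent.HM
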